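import Pool.Agent.Work.MP_91aed7_un.Def

/-!
# Block CJ: conjugation with `y_j ↦ y_j + t y_0`
-/

set_option autoImplicit false

open Finset

namespace Pool.AM

noncomputable section

namespace UCJ

variable {k : Type} [Field k] {n : ℕ}

theorem mu_self (j : ℕ) (t : k) : mu (n := n) j t (MvPolynomial.X (Sum.inr j)) =
    MvPolynomial.X (Sum.inr j) + MvPolynomial.C t * MvPolynomial.X (Sum.inr 0) := by
  simp [mu]

theorem mu_of_ne (j : ℕ) (t : k) {v : Vr n} (h : v ≠ Sum.inr j) :
    mu (n := n) j t (MvPolynomial.X v) = MvPolynomial.X v := by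
  simp [mu, h]

theorem mu_J (hJ : JLaws k n) (j : ℕ) (t : k) {r : ℕ} {f : PS k n} (hf : f ∈ J k n r) :
    mu j t f ∈ J k n r := by
  refine hJ.pres (mu j t) ?_ hf
  intro v
  by_cases h : v = Sum.inr j
  · subst h
    rw [mu_self]
    refine Submodule.add_mem _ (hJ.X_mem _) ?_
    rw [← MvPolynomial.smul_eq_C_mul]
    exact Submodule.smul_mem _ _ (hJ.X_mem (Sum.inr 0))
  · rw [mu_of_ne j t h]
    exact hJ.X_mem v

theorem mu_supp (j : ℕ) (t : k) {L : ℕ} (h0 : (Sum.inr 0 : Vr n) ∈ low n L) {f : PS k n}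
    (hf : f ∈ MvPolynomial.supported k (low n L)) :
    mu j t f ∈ MvPolynomial.supported k (low n L) := by
  have h : MvPolynomial.supported k (low n L)
      ≤ (MvPolynomial.supported k (low n L)).comap (mu j t) := by
    conv_lhs => rw [MvPolynomial.supported]
    refine Algebra.adjoin_le ?_
    rintro _ ⟨v, hv, rfl⟩
    change mu j t (MvPolynomial.X v) ∈ MvPolynomial.supported k (low n L)
    by_cases h : v = Sum.inr j
    · subst h
      rw [mu_self]
      refine Subalgebra.add_mem _ (MvPolynomial.X_mem_supported.2 hv) ?_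
      rw [← MvPolynomial.smul_eq_C_mul]
      exact Subalgebra.smul_mem _ (MvPolynomial.X_mem_supported.2 h0) _
    · rw [mu_of_ne j t h]
      exact MvPolynomial.X_mem_supported.2 hv
  exact h hf

end UCJ

open Classical in
theorem u_CJ (hJ : Stmt_J) (hT : S_TLL) : S_CJ := by
  intro k _ n L w j t H hj1 hjL hw hH
  obtain ⟨hH1, hH2, hH3, τ, hτ, hτ2⟩ := hH
  have J0 := hJ k n
  have h0 : (Sum.inr 0 : Vr n) ∈ low n L := by
    intro j' hj'
    have : (0 : ℕ) = j' := Sum.inr.inj hj'
    omega
  have hjl : (Sum.inr j : Vr n) ∈ low n L := by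
    intro j' hj'
    have : j = j' := Sum.inr.inj hj'
    omega
  have hne : (Sum.inr 0 : Vr n) ≠ Sum.inr j := by
    intro h
    have : (0 : ℕ) = j := Sum.inr.inj h
    omega
  have hfs : (MvPolynomial.C t * MvPolynomial.X (Sum.inr 0) : PS k n)
      ∈ MvPolynomial.supported k (low n L) := by
    rw [← MvPolynomial.smul_eq_C_mul]
    exact Subalgebra.smul_mem _ (MvPolynomial.X_mem_supported.2 h0) _
  have hfv : (Sum.inr j : Vr n) ∉
      (MvPolynomial.C t * MvPolynomial.X (Sum.inr 0) : PS k n).vars := by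
    intro h
    have h1 := MvPolynomial.vars_mul _ _ h
    rw [MvPolynomial.vars_C, Finset.empty_union, MvPolynomial.vars_X,
      Finset.mem_singleton] at h1
    exact hne h1.symm
  obtain ⟨m, hm, hmj, hmj', hmo, hmo', -, -⟩ := (hT k n).el hjl hfs hfv
  have hmm : ∀ f : PS k n, m f = mu j t f := by
    have h1 : (m : PS k n →ₐ[k] PS k n) = mu j t := by
      refine MvPolynomial.algHom_ext fun v => ?_
      change m (MvPolynomial.X v) = _
      by_cases h : v = Sum.inr j
      · subst h
        rw [UCJ.mu_self, hmj]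
      · rw [UCJ.mu_of_ne j t h, hmo v h]
    intro f
    rw [← h1]
    rfl
  refine ⟨?_, ?_, ?_, m * τ * m⁻¹, ?_, ?_⟩
  · intro v
    by_cases h : v = Sum.inr j
    · subst h
      simp only [if_true]
      refine UCJ.mu_J J0 j t (Submodule.sub_mem _ (hH1 _) ?_)
      rw [← MvPolynomial.smul_eq_C_mul]
      exact Submodule.smul_mem _ _ (hH1 (Sum.inr 0))
    · simp only [if_neg h]
      exact UCJ.mu_J J0 j t (hH1 v)
  · intro v
    by_cases h : v = Sum.inr j
    · subst h
      simp only [if_true]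
      refine UCJ.mu_supp j t h0 (Subalgebra.sub_mem _ (hH2 _) ?_)
      rw [← MvPolynomial.smul_eq_C_mul]
      exact Subalgebra.smul_mem _ (hH2 (Sum.inr 0)) _
    · simp only [if_neg h]
      exact UCJ.mu_supp j t h0 (hH2 v)
  · intro v hv
    have h : v ≠ Sum.inr j := by
      rintro rfl
      exact hv hjl
    simp only [if_neg h]
    rw [hH3 v hv, map_zero]
  · exact Subgroup.mul_mem _ (Subgroup.mul_mem _ hm hτ) (Subgroup.inv_mem _ hm)
  · intro v
    change m (τ (m⁻¹ (MvPolynomial.X v))) - MvPolynomial.X v - _ ∈ _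
    by_cases h : v = Sum.inr j
    · subst h
      simp only [if_true]
      have h1 : m (τ (m⁻¹ (MvPolynomial.X (Sum.inr j)))) - MvPolynomial.X (Sum.inr j)
          - mu j t (H (Sum.inr j) - MvPolynomial.C t * H (Sum.inr 0))
          = mu j t ((τ (MvPolynomial.X (Sum.inr j)) - MvPolynomial.X (Sum.inr j)
              - H (Sum.inr j))
            - MvPolynomial.C t * (τ (MvPolynomial.X (Sum.inr 0)) - MvPolynomial.X (Sum.inr 0)
              - H (Sum.inr 0))) := by
        rw [hmj', hmm]
        have h2 : ∀ c : k, τ (MvPolynomial.C c) = MvPolynomial.C c := fun c =>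
          τ.commutes c
        have h3 : ∀ c : k, mu (n := n) j t (MvPolynomial.C c) = MvPolynomial.C c := fun c =>
          (mu (n := n) j t).commutes c
        simp only [map_sub, map_mul, h2, h3, UCJ.mu_self, UCJ.mu_of_ne j t hne]
        ring
      rw [h1]
      refine UCJ.mu_J J0 j t (Submodule.sub_mem _ (hτ2 _) ?_)
      rw [← MvPolynomial.smul_eq_C_mul]
      exact Submodule.smul_mem _ _ (hτ2 (Sum.inr 0))
    · simp only [if_neg h]
      have h1 : m (τ (m⁻¹ (MvPolynomial.X v))) - MvPolynomial.X v - mu j t (H v)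
          = mu j t (τ (MvPolynomial.X v) - MvPolynomial.X v - H v) := by
        rw [hmo' v h, hmm]
        simp only [map_sub, UCJ.mu_of_ne j t h]
      rw [h1]
      exact UCJ.mu_J J0 j t (hτ2 v)

end

end Pool.AM
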