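import Pool.Agent.Work.MP_91aed7_un.Def

/-!
# Block CX: realizable fields with a given `x_i`-component
-/

set_option autoImplicit false

open Finset

namespace Pool.AM

namespace BCX

variable {k : Type} [Field k] {n : ℕ}

lemma ydeg_add (a b : Vr n →₀ ℕ) : ydeg (a + b) = ydeg a + ydeg b := by
  unfold ydeg
  exact Finsupp.sum_add_index' (fun _ => zero_mul _) (fun _ _ _ => add_mul _ _ _)

lemma ydeg_single (v : Vr n) (e : ℕ) : ydeg (Finsupp.single v e) = e * wt v := by
  unfold ydeg
  exact Finsupp.sum_single_index (zero_mul _)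

lemma mem_supp_monomial {m d : Vr n →₀ ℕ} {c : k}
    (h : d ∈ (MvPolynomial.monomial m c).support) : d = m := by
  exact Finset.mem_singleton.1 (MvPolynomial.support_monomial_subset h)

lemma monomial_mem_J {m : Vr n →₀ ℕ} {r : ℕ} (h : r ≤ ydeg m) (c : k) :
    MvPolynomial.monomial m c ∈ J k n r := by
  intro d hd
  rw [mem_supp_monomial hd]
  exact h

lemma monomial_mem_supported {m : Vr n →₀ ℕ} {s : Set (Vr n)} (h : ∀ v ∈ m.support, v ∈ s)
    (c : k) : MvPolynomial.monomial m c ∈ MvPolynomial.supported k s := by
  rw [MvPolynomial.monomial_eq]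
  refine Subalgebra.mul_mem _ ?_ ?_
  · exact Subalgebra.algebraMap_mem _ c
  · refine Subalgebra.prod_mem _ fun v hv => Subalgebra.pow_mem _ ?_ _
    exact MvPolynomial.X_mem_supported.2 (h v hv)

lemma notMem_vars_monomial {m : Vr n →₀ ℕ} {v : Vr n} (h : m v = 0) (c : k) :
    v ∉ (MvPolynomial.monomial m c).vars := by
  intro hv
  rw [MvPolynomial.mem_vars_iff_mem_support] at hv
  obtain ⟨d, hd, hv⟩ := hv
  rw [mem_supp_monomial hd, Finsupp.mem_support_iff] at hv
  exact hv h

lemma mu_monomial (j : ℕ) (t : k) {m : Vr n →₀ ℕ} (h : m (Sum.inr j) = 0) (c : k) :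
    mu (n := n) j t (MvPolynomial.monomial m c) = MvPolynomial.monomial m c := by
  unfold mu
  rw [MvPolynomial.aeval_monomial, MvPolynomial.monomial_eq]
  congr 1
  refine Finsupp.prod_congr fun v hv => ?_
  have : v ≠ Sum.inr j := by
    rintro rfl
    exact (Finsupp.mem_support_iff.1 hv) h
  rw [if_neg this]

lemma mu_X (j : ℕ) (t : k) : mu (n := n) j t (MvPolynomial.X (Sum.inr j)) =
    MvPolynomial.X (Sum.inr j) + MvPolynomial.C t * MvPolynomial.X (Sum.inr 0) := by
  unfold mu
  rw [MvPolynomial.aeval_X, if_pos rfl]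

end BCX

theorem p_CX (hJ : Stmt_J) (hR : S_RL) (hK : S_RKL) (hC : S_CJ) (hP : S_POL) : S_CX := by
  intro k _ _ n L w i f hL hw hf hfJ
  have hRn := hR k n
  have hlow0 : (Sum.inr 0 : Vr n) ∈ low n L := by
    intro j hj
    have : j = 0 := (Sum.inr.inj hj).symm
    omega
  have hlow1 : (Sum.inr 1 : Vr n) ∈ low n L := by
    intro j hj
    have : j = 1 := (Sum.inr.inj hj).symm
    omega
  have hlowi : (Sum.inl i : Vr n) ∈ low n L := by
    intro j hj
    exact absurd hj (by simp)
  let S : AddSubgroup (PS k n) :=
    { carrier := {g | ∃ H : VF k n, RealL L w H ∧ H (Sum.inl i) = g ∧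
        ∀ i' : Fin n, i' ≠ i → H (Sum.inl i') = 0}
      add_mem' := by
        rintro a b ⟨H, h1, h2, h3⟩ ⟨H', h1', h2', h3'⟩
        refine ⟨H + H', hRn.add hw h1 h1', ?_, ?_⟩
        · rw [Pi.add_apply, h2, h2']
        · intro i' hi'
          rw [Pi.add_apply, h3 i' hi', h3' i' hi', add_zero]
      zero_mem' := ⟨0, hRn.zero L w, rfl, fun _ _ => rfl⟩
      neg_mem' := by
        rintro a ⟨H, h1, h2, h3⟩
        refine ⟨-H, hRn.neg hw h1, ?_, ?_⟩
        · rw [Pi.neg_apply, h2]
        · intro i' hi'
          rw [Pi.neg_apply, h3 i' hi', neg_zero] }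
  have key : ∀ (m : Vr n →₀ ℕ) (a : k), (∀ v ∈ m.support, v ∈ low n L) → w ≤ ydeg m →
      MvPolynomial.monomial m a ∈ S := by
    intro m a hm hwm
    rcases hwm.lt_or_eq with h | h
    · -- large weight
      refine ⟨Pi.single (Sum.inl i) (MvPolynomial.monomial m a), ?_, ?_, ?_⟩
      · refine hRn.congr (hRn.zero L w) ?_ ?_ ?_
        · intro v
          by_cases hv : v = Sum.inl i
          · subst hv
            rw [Pi.single_eq_same]
            exact BCX.monomial_mem_supported hm a
          · rw [Pi.single_eq_of_ne hv]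
            exact Subalgebra.zero_mem _
        · intro v hv
          have : v ≠ Sum.inl i := by
            rintro rfl
            exact hv hlowi
          rw [Pi.single_eq_of_ne this]
        · intro v
          rw [Pi.zero_apply, sub_zero]
          by_cases hv : v = Sum.inl i
          · subst hv
            rw [Pi.single_eq_same]
            refine BCX.monomial_mem_J ?_ a
            have : wt (Sum.inl i : Vr n) = 0 := rfl
            omega
          · rw [Pi.single_eq_of_ne hv]
            exact Submodule.zero_mem _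
      · rw [Pi.single_eq_same]
      · intro i' hi'
        rw [Pi.single_eq_of_ne]
        intro h0
        exact hi' (Sum.inl.inj h0)
    · -- weight w
      set m1 : Vr n →₀ ℕ := m.erase (Sum.inr 1) with hm1
      set m0 : Vr n →₀ ℕ := m1.erase (Sum.inr 0) with hm0
      have e1 : m = m1 + Finsupp.single (Sum.inr 1) (m (Sum.inr 1)) :=
        (Finsupp.erase_add_single _ _).symm
      have e2 : m1 = m0 + Finsupp.single (Sum.inr 0) (m1 (Sum.inr 0)) :=
        (Finsupp.erase_add_single _ _).symm
      set e : ℕ := m (Sum.inr 1) with he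
      set b : ℕ := m1 (Sum.inr 0) with hb
      have h01 : (Sum.inr 0 : Vr n) ≠ Sum.inr 1 := by simp
      have hm00 : m0 (Sum.inr 0) = 0 := Finsupp.erase_same
      have hm01 : m0 (Sum.inr 1) = 0 := by
        rw [hm0, Finsupp.erase_ne h01.symm, hm1]
        exact Finsupp.erase_same
      have hsupp : ∀ v ∈ m0.support, v ∈ low n L := by
        intro v hv
        refine hm v ?_
        rw [hm0, Finsupp.support_erase, hm1, Finsupp.support_erase] at hv
        exact Finset.mem_of_mem_erase (Finset.mem_of_mem_erase hv)
      have hyd : ydeg m0 + (e + b) = w := by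
        have h1 : ydeg m = ydeg m1 + e := by
          conv_lhs => rw [e1]
          rw [BCX.ydeg_add, BCX.ydeg_single]
          have : wt (Sum.inr 1 : Vr n) = 1 := rfl
          rw [this, mul_one]
        have h2 : ydeg m1 = ydeg m0 + b := by
          conv_lhs => rw [e2]
          rw [BCX.ydeg_add, BCX.ydeg_single]
          have : wt (Sum.inr 0 : Vr n) = 1 := rfl
          rw [this, mul_one]
        omega
      have hpol := hP k (PS k n) S (MvPolynomial.monomial m0 1) (MvPolynomial.X (Sum.inr 1))
        (MvPolynomial.X (Sum.inr 0)) (e + b) ?_ b (by omega) a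
      · have e3 : a • (MvPolynomial.monomial m0 (1 : k) *
            ((MvPolynomial.X (Sum.inr 1) : PS k n) ^ (e + b - b) * MvPolynomial.X (Sum.inr 0) ^ b)) =
            MvPolynomial.monomial m a := by
          rw [Nat.add_sub_cancel, ← smul_mul_assoc, MvPolynomial.smul_monomial, smul_eq_mul,
            mul_one, e1, MvPolynomial.monomial_add_single, e2, MvPolynomial.monomial_add_single]
          ring
        rw [e3] at hpol
        exact hpol
      · intro c t _
        set h : PS k n := MvPolynomial.monomial (m0 + Finsupp.single (Sum.inr 1) (e + b)) c with hh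
        have hh' : h = MvPolynomial.monomial m0 c * MvPolynomial.X (Sum.inr 1) ^ (e + b) := by
          rw [hh, MvPolynomial.monomial_add_single]
        have s1 : h ∈ MvPolynomial.supported k (low n L) := by
          rw [hh']
          exact Subalgebra.mul_mem _ (BCX.monomial_mem_supported hsupp c)
            (Subalgebra.pow_mem _ (MvPolynomial.X_mem_supported.2 hlow1) _)
        have s2 : (Sum.inr 0 : Vr n) ∉ h.vars := by
          refine BCX.notMem_vars_monomial ?_ c
          rw [Finsupp.add_apply, hm00, Finsupp.single_eq_of_ne h01, add_zero]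
        have s3 : h ∈ J k n w := by
          refine BCX.monomial_mem_J ?_ c
          rw [BCX.ydeg_add, BCX.ydeg_single]
          have : wt (Sum.inr 1 : Vr n) = 1 := rfl
          rw [this, mul_one, hyd]
        have r1 := hK k n L w i h (by omega) hw s1 s2 s3
        have r2 := hC k n L w 1 t _ le_rfl (by omega) hw r1
        refine ⟨_, r2, ?_, ?_⟩
        · rw [if_neg (by simp)]
          have e4 : KK (Sum.inl i) (Sum.inr 0) h (Sum.inl i) = h := by
            unfold KK
            rw [Pi.sub_apply, Pi.single_eq_same, Pi.single_eq_of_ne (by simp), sub_zero]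
          rw [e4, hh', map_mul, map_pow, BCX.mu_monomial 1 t hm01, BCX.mu_X, ← smul_mul_assoc,
            MvPolynomial.smul_monomial, smul_eq_mul, mul_one, MvPolynomial.smul_eq_C_mul]
        · intro i' hi'
          rw [if_neg (by simp)]
          have e4 : KK (Sum.inl i) (Sum.inr 0) h (Sum.inl i') = 0 := by
            unfold KK
            rw [Pi.sub_apply, Pi.single_eq_of_ne (by simpa using hi'),
              Pi.single_eq_of_ne (by simp), sub_zero]
          rw [e4, map_zero]
  have hfS : f ∈ S := by
    rw [f.as_sum]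
    refine AddSubgroup.sum_mem _ fun m hm => key m _ ?_ (hfJ m hm)
    intro v hv
    rw [MvPolynomial.mem_supported] at hf
    exact hf ((MvPolynomial.mem_vars_iff_mem_support v).2 ⟨m, hm, hv⟩)
  exact hfS

end Pool.AM
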