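import Pool.Agent.Work.MP_91aed7_un.Def

/-!
# Block CY: realizable fields with a given `y_j`-component
-/

set_option autoImplicit false

open Finset

namespace Pool.AM

noncomputable section

namespace UCY

/-- the degree in the `y`-variables is additive -/
theorem ydeg_add {n : ℕ} (a b : Vr n →₀ ℕ) : ydeg (a + b) = ydeg a + ydeg b := by
  unfold ydeg
  exact Finsupp.sum_add_index' (fun v => by simp) (fun v x y => by ring)

theorem ydeg_single {n : ℕ} (v : Vr n) (e : ℕ) : ydeg (Finsupp.single v e) = e * wt v := by
  unfold ydeg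
  exact Finsupp.sum_single_index (by simp)

theorem vars_mono {k : Type} [Field k] {n : ℕ} (m : Vr n →₀ ℕ) (c : k) :
    (MvPolynomial.monomial m c : PS k n).vars ⊆ m.support := by
  classical
  by_cases hc : c = 0
  · subst hc
    simp
  · rw [MvPolynomial.vars_monomial hc]

theorem mono_mem_J {k : Type} [Field k] {n r : ℕ} (m : Vr n →₀ ℕ) (c : k) (h : r ≤ ydeg m) :
    (MvPolynomial.monomial m c : PS k n) ∈ J k n r := by
  classical
  intro m' hm'
  have := MvPolynomial.support_monomial_subset hm'
  rw [Finset.mem_singleton] at this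
  rw [this]
  exact h

end UCY

theorem u_CY (_hJ : Stmt_J) (hR : S_RL) (hC : S_CJ) (hP : S_POL) : S_CY := by
  intro k _ _ n L w j f hj hjL hw hs hf
  classical
  have R := hR k n
  have hj0 : (Sum.inr j : Vr n) ≠ Sum.inr 0 := by
    intro h
    have := Sum.inr_injective h
    omega
  let S : AddSubgroup (PS k n) :=
    { carrier := {g | ∃ H : VF k n, RealL L w H ∧ H (Sum.inr j) = g ∧
        ∀ v : Vr n, v ≠ Sum.inr j → v ≠ Sum.inr 0 → H v = 0}
      add_mem' := by
        rintro a b ⟨H, h1, h2, h3⟩ ⟨H', h1', h2', h3'⟩
        refine ⟨H + H', R.add hw h1 h1', ?_, ?_⟩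
        · rw [Pi.add_apply, h2, h2']
        · intro v hv hv0
          rw [Pi.add_apply, h3 v hv hv0, h3' v hv hv0, add_zero]
      zero_mem' := ⟨0, R.zero L w, rfl, fun _ _ _ => rfl⟩
      neg_mem' := by
        rintro a ⟨H, h1, h2, h3⟩
        refine ⟨-H, R.neg hw h1, ?_, ?_⟩
        · rw [Pi.neg_apply, h2]
        · intro v hv hv0
          rw [Pi.neg_apply, h3 v hv hv0, neg_zero] }
  suffices hfS : f ∈ S from hfS
  have hmono : ∀ m ∈ f.support, ∀ c : k, (MvPolynomial.monomial m c : PS k n) ∈ S := by
    intro m hm c
    have hmy := hf m hm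
    have hmL : ∀ v ∈ m.support, v ∈ low n L := by
      intro v hv
      rw [MvPolynomial.mem_supported] at hs
      apply hs
      rw [Finset.mem_coe, MvPolynomial.mem_vars_iff_mem_support]
      exact ⟨m, hm, hv⟩
    let m0 : Vr n →₀ ℕ := (m.erase (Sum.inr j)).erase (Sum.inr 0)
    set e : ℕ := m (Sum.inr j) with he
    set b : ℕ := m (Sum.inr 0) with hb
    have hm0j : m0 (Sum.inr j) = 0 := by
      simp only [m0]
      rw [Finsupp.erase_ne hj0, Finsupp.erase_same]
    have hm00 : m0 (Sum.inr 0) = 0 := by
      simp only [m0]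
      rw [Finsupp.erase_same]
    have hm0s : ∀ v ∈ m0.support, v ∈ m.support := by
      intro v hv
      simp only [m0, Finsupp.support_erase, Finset.mem_erase] at hv
      exact hv.2.2
    have hdec : m = m0 + (Finsupp.single (Sum.inr j) e + Finsupp.single (Sum.inr 0) b) := by
      ext v
      by_cases h1 : v = Sum.inr j
      · subst h1
        rw [Finsupp.add_apply, Finsupp.add_apply, hm0j, Finsupp.single_eq_same,
          Finsupp.single_eq_of_ne hj0]
        omega
      · by_cases h2 : v = Sum.inr 0
        · subst h2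
          rw [Finsupp.add_apply, Finsupp.add_apply, hm00, Finsupp.single_eq_same,
            Finsupp.single_eq_of_ne (Ne.symm hj0)]
          omega
        · rw [Finsupp.add_apply, Finsupp.add_apply, Finsupp.single_eq_of_ne h1,
            Finsupp.single_eq_of_ne h2]
          simp only [m0]
          rw [Finsupp.erase_ne h2, Finsupp.erase_ne h1]
          omega
    have hyd : ydeg m = ydeg m0 + (e + b) := by
      conv_lhs => rw [hdec]
      rw [UCY.ydeg_add, UCY.ydeg_add, UCY.ydeg_single, UCY.ydeg_single]
      simp [wt]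
    have hprod : (MvPolynomial.monomial m c : PS k n) = c • ((MvPolynomial.monomial m0 1 : PS k n) *
        ((MvPolynomial.X (Sum.inr j) : PS k n) ^ (e + b - b) *
          (MvPolynomial.X (Sum.inr 0) : PS k n) ^ b)) := by
      rw [Nat.add_sub_cancel, MvPolynomial.X_pow_eq_monomial, MvPolynomial.X_pow_eq_monomial,
        MvPolynomial.monomial_mul, MvPolynomial.monomial_mul, MvPolynomial.smul_monomial, ← hdec]
      simp
    rw [hprod]
    refine hP k (PS k n) S _ _ _ (e + b) ?_ b (Nat.le_add_left _ _) c
    intro c t ht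
    -- the elementary field
    let d : Vr n →₀ ℕ := m0 + Finsupp.single (Sum.inr j) (e + b)
    let g : PS k n := MvPolynomial.monomial d (-(c / t))
    have h0low : (Sum.inr 0 : Vr n) ∈ low n L := by
      intro i hi
      have := Sum.inr_injective hi
      omega
    have hjlow : (Sum.inr j : Vr n) ∈ low n L := by
      intro i hi
      have := Sum.inr_injective hi
      omega
    have hd : ∀ v ∈ d.support, v ∈ low n L ∧ v ≠ Sum.inr 0 := by
      intro v hv
      have h1 := Finsupp.mem_support_iff.1 hv
      by_cases h2 : v = Sum.inr j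
      · subst h2
        exact ⟨hjlow, hj0⟩
      · have h3 : m0 v ≠ 0 := by
          intro h4
          apply h1
          simp only [d]
          rw [Finsupp.add_apply, h4, Finsupp.single_eq_of_ne h2, add_zero]
        refine ⟨hmL v (hm0s v (Finsupp.mem_support_iff.2 h3)), ?_⟩
        rintro rfl
        exact h3 hm00
    have hg1 : g ∈ MvPolynomial.supported k (low n L) := by
      rw [MvPolynomial.mem_supported]
      intro v hv
      exact (hd v (UCY.vars_mono _ _ hv)).1
    have hg2 : (Sum.inr 0 : Vr n) ∉ g.vars := by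
      intro hv
      exact (hd _ (UCY.vars_mono _ _ hv)).2 rfl
    have hg3 : g ∈ J k n (w + wt (Sum.inr 0 : Vr n)) := by
      apply UCY.mono_mem_J
      simp only [d]
      rw [UCY.ydeg_add, UCY.ydeg_single]
      simp only [wt, Sum.elim_inr, mul_one]
      omega
    have hH0 : RealL L w (Pi.single (Sum.inr 0) g) := R.el h0low hg1 hg2 hg3
    have hH1 := hC k n L w j t _ hj hjL hw hH0
    refine ⟨_, hH1, ?_, ?_⟩
    · rw [if_pos rfl, Pi.single_eq_same, Pi.single_eq_of_ne hj0, zero_sub]
      have hgm : g = MvPolynomial.C (-(c / t)) * ((MvPolynomial.monomial m0 1 : PS k n) *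
          (MvPolynomial.X (Sum.inr j) : PS k n) ^ (e + b)) := by
        rw [MvPolynomial.X_pow_eq_monomial, MvPolynomial.monomial_mul, MvPolynomial.C_mul_monomial]
        simp only [g, d]
        simp
      have hmum : mu j t (MvPolynomial.monomial m0 1 : PS k n) = MvPolynomial.monomial m0 1 := by
        unfold mu
        rw [MvPolynomial.aeval_monomial, map_one, one_mul, MvPolynomial.monomial_eq,
          MvPolynomial.C_1, one_mul]
        apply Finsupp.prod_congr
        intro v hv
        have : v ≠ Sum.inr j := by
          rintro rfl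
          exact (Finsupp.mem_support_iff.1 hv) hm0j
        rw [if_neg this]
      have hmuC : ∀ a : k, mu j t (MvPolynomial.C a : PS k n) = MvPolynomial.C a := by
        intro a
        exact (mu j t : PS k n →ₐ[k] PS k n).commutes a
      have hmuX : mu j t (MvPolynomial.X (Sum.inr j) : PS k n) =
          MvPolynomial.X (Sum.inr j) + MvPolynomial.C t * MvPolynomial.X (Sum.inr 0) := by
        unfold mu
        rw [MvPolynomial.aeval_X, if_pos rfl]
      rw [map_neg, map_mul, hgm, map_mul, map_mul, map_pow, hmum, hmuC, hmuC, hmuX,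
        MvPolynomial.smul_eq_C_mul, MvPolynomial.smul_eq_C_mul]
      have h5 : (MvPolynomial.C c : PS k n) = MvPolynomial.C t * MvPolynomial.C (c / t) := by
        rw [← MvPolynomial.C_mul, mul_div_cancel₀ _ ht]
      rw [h5, MvPolynomial.C_neg]
      ring
    · intro v hv hv0
      rw [if_neg hv, Pi.single_eq_of_ne hv0, map_zero]
  rw [← MvPolynomial.support_sum_monomial_coeff f]
  exact S.sum_mem fun m hm => hmono m hm _

end

end Pool.AM
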