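import Pool.Agent.Work.MP_91aed7_un.Def
import Pool.Agent.Work.MP_91aed7_am_helper29.DSC

/-! Block DSL: descent to `n + L` variables. -/

set_option autoImplicit false

open Finset

namespace Pool.AM

namespace DSL_

open MvPolynomial DSC_

lemma low_range {n L : ℕ} (v : Vr n) (h : v ∈ low n L) : v ∈ Set.range (emb n L) := by
  rcases v with i | j
  · exact ⟨Fin.castAdd L i, emb_castAdd n L i⟩
  · exact ⟨Fin.natAdd n ⟨j, h j rfl⟩, emb_natAdd n L ⟨j, h j rfl⟩⟩

lemma emb_low {n L : ℕ} (a : Fin (n + L)) : emb n L a ∈ low n L := by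
  refine Fin.addCases (fun i => ?_) (fun i => ?_) a
  · rw [emb_castAdd]
    intro j h
    cases h
  · rw [emb_natAdd]
    intro j h
    have := Sum.inr_injective h
    omega

end DSL_

open MvPolynomial DSC_ DSL_ in
theorem u_DSL : S_DSL := by
  classical
  intro k _ n L τ hτ
  unfold TL at hτ
  induction hτ using Subgroup.closure_induction with
  | mem τ h =>
    obtain ⟨h, hFL⟩ := h
    rcases h with ⟨i, f, hif, h1, h2⟩ | ⟨i, c, hc, h1, h2⟩
    · by_cases hi : i ∈ low n L
      · have hf : ∀ v ∈ f.vars, v ∈ low n L := by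
          intro v hv
          have h3 := (hFL.1 i hi).1
          have h4 : f = τ (X i) - X i := by rw [h1]; ring
          have h5 : f ∈ MvPolynomial.supported k (low n L) := by
            rw [h4]
            exact Subalgebra.sub_mem _ h3 ((MvPolynomial.X_mem_supported).2 hi)
          exact MvPolynomial.mem_supported.1 h5 (Finset.mem_coe.2 hv)
        obtain ⟨a₀, ha₀⟩ := low_range i hi
        obtain ⟨f', hf'⟩ := MvPolynomial.exists_rename_eq_of_vars_subset_range f (emb n L)
          (emb_inj n L) (fun v hv => low_range v (hf v hv))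
        have hvar : a₀ ∉ f'.vars := by
          intro h
          apply hif
          rw [← hf', ← ha₀, MvPolynomial.vars_def, Multiset.mem_toFinset,
            MvPolynomial.degrees_rename_of_injective (emb_inj n L)]
          rw [MvPolynomial.vars_def, Multiset.mem_toFinset] at h
          exact Multiset.mem_map_of_mem _ h
        obtain ⟨σ, s1, s2⟩ := exists_el a₀ f' hvar
        refine ⟨σ, Subgroup.subset_closure (Or.inr ⟨a₀, f', hvar, s1, s2⟩), ?_⟩
        intro a
        by_cases ha : a = a₀
        · rw [ha, s1, map_add, rename_X, hf', ha₀, h1]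
        · rw [s2 a ha, rename_X, h2]
          intro h
          rw [← ha₀] at h
          exact ha (emb_inj n L h)
      · refine ⟨1, Subgroup.one_mem _, fun a => ?_⟩
        rw [AlgEquiv.one_apply, rename_X, h2]
        intro h
        exact hi (h ▸ emb_low a)
    · by_cases hi : i ∈ low n L
      · obtain ⟨a₀, ha₀⟩ := low_range i hi
        obtain ⟨σ, s1, s2⟩ := exists_sc a₀ c hc
        refine ⟨σ, Subgroup.subset_closure (Or.inl ?_), ?_⟩
        · intro a
          by_cases ha : a = a₀
          · rw [ha, s1]
            refine le_trans (MvPolynomial.totalDegree_mul _ _) ?_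
            rw [totalDegree_C, totalDegree_X]
          · rw [s2 a ha, totalDegree_X]
        · intro a
          by_cases ha : a = a₀
          · rw [ha, s1, map_mul, rename_X, rename_C, ha₀, h1]
          · rw [s2 a ha, rename_X, h2]
            intro h
            rw [← ha₀] at h
            exact ha (emb_inj n L h)
      · refine ⟨1, Subgroup.one_mem _, fun a => ?_⟩
        rw [AlgEquiv.one_apply, rename_X, h2]
        intro h
        exact hi (h ▸ emb_low a)
  | one =>
    refine ⟨1, Subgroup.one_mem _, fun a => ?_⟩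
    rw [AlgEquiv.one_apply, AlgEquiv.one_apply, rename_X]
  | mul x y _ _ hx hy =>
    obtain ⟨σ, s0, s1⟩ := hx
    obtain ⟨ρ, r0, r1⟩ := hy
    refine ⟨σ * ρ, Subgroup.mul_mem _ s0 r0, fun a => ?_⟩
    have key : (rename (emb n L) : MvPolynomial (Fin (n + L)) k →ₐ[k] PS k n).comp
          (σ : MvPolynomial (Fin (n + L)) k →ₐ[k] MvPolynomial (Fin (n + L)) k)
        = (x : PS k n →ₐ[k] PS k n).comp (rename (emb n L)) := by
      apply MvPolynomial.algHom_ext
      intro b
      rw [AlgHom.comp_apply, AlgHom.comp_apply, rename_X]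
      exact s1 b
    have key' : ∀ p, rename (emb n L) (σ p) = x (rename (emb n L) p) := fun p =>
      congrArg (fun z => z p) key
    rw [AlgEquiv.mul_apply, key', r1, AlgEquiv.mul_apply]
  | inv x _ hx =>
    obtain ⟨σ, s0, s1⟩ := hx
    refine ⟨σ⁻¹, Subgroup.inv_mem _ s0, fun a => ?_⟩
    have key : (rename (emb n L) : MvPolynomial (Fin (n + L)) k →ₐ[k] PS k n).comp
          (σ : MvPolynomial (Fin (n + L)) k →ₐ[k] MvPolynomial (Fin (n + L)) k)
        = (x : PS k n →ₐ[k] PS k n).comp (rename (emb n L)) := by
      apply MvPolynomial.algHom_ext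
      intro b
      rw [AlgHom.comp_apply, AlgHom.comp_apply, rename_X]
      exact s1 b
    have key' : ∀ p, rename (emb n L) (σ p) = x (rename (emb n L) p) := fun p =>
      congrArg (fun z => z p) key
    apply x.injective
    rw [← key']
    have e1 : σ (σ⁻¹ (X a)) = X a := by
      rw [← AlgEquiv.mul_apply, mul_inv_cancel, AlgEquiv.one_apply]
    have e2 : x (x⁻¹ (X (emb n L a))) = X (emb n L a) := by
      rw [← AlgEquiv.mul_apply, mul_inv_cancel, AlgEquiv.one_apply]
    rw [e1, e2, rename_X]

end Pool.AM
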