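import Pool.Agent.Work.MP_91aed7_un.Def2

/-!
# MP_91aed7_ag: block EF (extension of an automorphism in `n + l` variables)
-/

set_option autoImplicit false

open MvPolynomial

namespace Pool.AM.UEF

variable {k : Type} [Field k] {n : ℕ}

/-- the extension of an endomorphism by the identity in the last `l` variables -/
noncomputable def ex (l : ℕ) (φ : MvPolynomial (Fin n) k →ₐ[k] MvPolynomial (Fin n) k) :
    MvPolynomial (Fin (n + l)) k →ₐ[k] MvPolynomial (Fin (n + l)) k :=
  aeval (Fin.addCases (fun i => rename (Fin.castAdd l) (φ (X i))) (fun j => X (Fin.natAdd n j)))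

theorem ex_l (l : ℕ) (φ : MvPolynomial (Fin n) k →ₐ[k] MvPolynomial (Fin n) k) (i : Fin n) :
    ex l φ (X (Fin.castAdd l i)) = rename (Fin.castAdd l) (φ (X i)) := by
  simp [ex]

theorem ex_r (l : ℕ) (φ : MvPolynomial (Fin n) k →ₐ[k] MvPolynomial (Fin n) k) (j : Fin l) :
    ex l φ (X (Fin.natAdd n j)) = X (Fin.natAdd n j) := by
  simp [ex]

theorem ex_rename (l : ℕ) (φ : MvPolynomial (Fin n) k →ₐ[k] MvPolynomial (Fin n) k)
    (f : MvPolynomial (Fin n) k) :
    ex l φ (rename (Fin.castAdd l) f) = rename (Fin.castAdd l) (φ f) := by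
  have h : (ex l φ).comp (rename (Fin.castAdd l)) = (rename (Fin.castAdd l)).comp φ := by
    apply MvPolynomial.algHom_ext
    intro i
    simp only [AlgHom.comp_apply, rename_X]
    exact ex_l l φ i
  exact congrArg (fun g => g f) h

theorem ex_comp (l : ℕ) (φ ψ : MvPolynomial (Fin n) k →ₐ[k] MvPolynomial (Fin n) k) :
    (ex l φ).comp (ex l ψ) = ex l (φ.comp ψ) := by
  apply MvPolynomial.algHom_ext
  intro a
  refine Fin.addCases (fun i => ?_) (fun j => ?_) a
  · rw [AlgHom.comp_apply, ex_l, ex_rename, ex_l]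
    rfl
  · rw [AlgHom.comp_apply, ex_r, ex_r, ex_r]

theorem ex_id (l : ℕ) : ex l (AlgHom.id k (MvPolynomial (Fin n) k)) = AlgHom.id k _ := by
  apply MvPolynomial.algHom_ext
  intro a
  refine Fin.addCases (fun i => ?_) (fun j => ?_) a
  · rw [ex_l]
    simp
  · rw [ex_r]
    simp

/-- the extension of an automorphism -/
noncomputable def ee (l : ℕ) (φ : MvPolynomial (Fin n) k ≃ₐ[k] MvPolynomial (Fin n) k) :
    MvPolynomial (Fin (n + l)) k ≃ₐ[k] MvPolynomial (Fin (n + l)) k :=
  AlgEquiv.ofAlgHom (ex l (φ : MvPolynomial (Fin n) k →ₐ[k] MvPolynomial (Fin n) k))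
    (ex l (φ.symm : MvPolynomial (Fin n) k →ₐ[k] MvPolynomial (Fin n) k))
    (by rw [ex_comp, ← ex_id]; congr 1; ext i; simp)
    (by rw [ex_comp, ← ex_id]; congr 1; ext i; simp)

theorem ee_symm (l : ℕ) (φ : MvPolynomial (Fin n) k ≃ₐ[k] MvPolynomial (Fin n) k)
    (f : MvPolynomial (Fin (n + l)) k) :
    (ee l φ).symm f = ex l (φ.symm : MvPolynomial (Fin n) k →ₐ[k] MvPolynomial (Fin n) k) f := rfl

theorem ee_apply (l : ℕ) (φ : MvPolynomial (Fin n) k ≃ₐ[k] MvPolynomial (Fin n) k)
    (f : MvPolynomial (Fin (n + l)) k) :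
    ee l φ f = ex l (φ : MvPolynomial (Fin n) k →ₐ[k] MvPolynomial (Fin n) k) f := rfl

theorem ee_mul (l : ℕ) (φ ψ : MvPolynomial (Fin n) k ≃ₐ[k] MvPolynomial (Fin n) k) :
    ee l (φ * ψ) = ee l φ * ee l ψ := by
  apply AlgEquiv.ext
  intro f
  have h := congrArg (fun g => g f)
    (ex_comp l (φ : MvPolynomial (Fin n) k →ₐ[k] MvPolynomial (Fin n) k)
      (ψ : MvPolynomial (Fin n) k →ₐ[k] MvPolynomial (Fin n) k))
  rw [ee_apply, AlgEquiv.mul_apply, ee_apply, ee_apply]
  exact h.symm

theorem ee_one (l : ℕ) : ee l (1 : MvPolynomial (Fin n) k ≃ₐ[k] MvPolynomial (Fin n) k) = 1 := by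
  apply AlgEquiv.ext
  intro f
  have h := congrArg (fun g => g f) (ex_id (k := k) (n := n) l)
  rw [ee_apply, AlgEquiv.one_apply]
  exact h

theorem ee_inv (l : ℕ) (φ : MvPolynomial (Fin n) k ≃ₐ[k] MvPolynomial (Fin n) k) :
    ee l φ⁻¹ = (ee l φ)⁻¹ := by
  rw [eq_inv_iff_mul_eq_one, ← ee_mul, inv_mul_cancel, ee_one]

theorem ee_tame (l : ℕ) {φ : MvPolynomial (Fin n) k ≃ₐ[k] MvPolynomial (Fin n) k}
    (hφ : φ ∈ Tame k n) : ee l φ ∈ Tame k (n + l) := by
  classical
  unfold Tame at hφ
  induction hφ using Subgroup.closure_induction with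
  | mem x hx =>
    apply Subgroup.subset_closure
    rcases hx with hx | ⟨i, f, hif, hi, hj⟩
    · left
      intro a
      refine Fin.addCases (fun i => ?_) (fun j => ?_) a
      · rw [ee_apply, ex_l]
        exact (totalDegree_rename_le _ _).trans (hx i)
      · rw [ee_apply, ex_r]
        exact (totalDegree_X _).le
    · right
      refine ⟨Fin.castAdd l i, rename (Fin.castAdd l) f, ?_, ?_, ?_⟩
      · intro hm
        have h := vars_rename (Fin.castAdd l) f hm
        rw [Finset.mem_image] at h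
        obtain ⟨i', hi', he⟩ := h
        rw [Fin.castAdd_injective _ _ he] at hi'
        exact hif hi'
      · rw [ee_apply, ex_l]
        have : (x : MvPolynomial (Fin n) k →ₐ[k] MvPolynomial (Fin n) k) (X i) = X i + f := hi
        rw [this, map_add, rename_X]
      · intro a
        refine Fin.addCases (fun i' => ?_) (fun j => ?_) a
        · intro hne
          rw [ee_apply, ex_l]
          have : (x : MvPolynomial (Fin n) k →ₐ[k] MvPolynomial (Fin n) k) (X i') = X i' :=
            hj i' fun h => hne (by rw [h])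
          rw [this, rename_X]
        · intro _
          rw [ee_apply, ex_r]
  | one =>
    rw [ee_one]
    exact Subgroup.one_mem _
  | mul x y _ _ hx hy =>
    rw [ee_mul]
    exact Subgroup.mul_mem _ hx hy
  | inv x _ hx =>
    rw [ee_inv]
    exact Subgroup.inv_mem _ hx

end Pool.AM.UEF

open Pool.AM.UEF in
theorem Pool.AM.u_EF : Pool.AM.S_EF := by
  intro k _ n l φ
  refine ⟨ee l φ, fun i => ?_, fun j => ?_, fun i => ?_, fun j => ?_, fun h => ee_tame l h⟩
  · exact ex_l l _ i
  · exact ex_r l _ j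
  · exact ex_l l _ i
  · exact ex_r l _ j
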