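import Pool.Agent.Work.MP_91aed7_un.Def
import Pool.Agent.Work.MP_91aed7_am_helper54.FIN

set_option autoImplicit false

open Finset

namespace Pool.AM

/-- FA -/
theorem u_FA (_hJ : Stmt_J) (hLV : Stmt_LV) (hI : S_IT) (hDS : S_DSL) (hL : S_LFT) (hJY : S_JY) :
    S_FA := by
  intro k _ _ n l hl θ' h1 h2 m
  have LV := hLV k n
  have JL := _hJ k n
  obtain ⟨θ, hθL, hθ⟩ := hL k n l θ'
  have hlvl : Lvl 1 θ := by
    intro v
    rcases v with i | j
    · have e1 := hθ (Fin.castAdd l i)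
      rw [FIN_.emb_castAdd] at e1
      have e2 : θ (MvPolynomial.X (Sum.inl i)) - MvPolynomial.X (Sum.inl i)
          = MvPolynomial.rename (emb n l) (θ' (MvPolynomial.X (Fin.castAdd l i))
            - MvPolynomial.X (Fin.castAdd l i)) := by
        rw [map_sub, e1, MvPolynomial.rename_X, FIN_.emb_castAdd]
      rw [e2]
      refine (hJY k n l _ _).2 ?_
      have e3 : (1 + wt (Sum.inl i : Vr n)) = 1 := rfl
      rw [e3, pow_one]
      exact h1 i
    · by_cases hj : j < l
      · have e1 := hθ (Fin.natAdd n ⟨j, hj⟩)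
        rw [FIN_.emb_natAdd] at e1
        have e2 : θ (MvPolynomial.X (Sum.inr j)) - MvPolynomial.X (Sum.inr j)
            = MvPolynomial.rename (emb n l) (θ' (MvPolynomial.X (Fin.natAdd n ⟨j, hj⟩))
              - MvPolynomial.X (Fin.natAdd n ⟨j, hj⟩)) := by
          rw [map_sub, e1, MvPolynomial.rename_X, FIN_.emb_natAdd]
        rw [e2]
        refine (hJY k n l _ _).2 ?_
        exact h2 ⟨j, hj⟩
      · rw [hθL.2 (Sum.inr j) (fun h => hj (h j rfl)), sub_self]
        exact Submodule.zero_mem _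
  obtain ⟨τ, hτ, -, hw⟩ := hI k n l (max m 1) θ hl (le_max_right _ _) hθL hlvl
  obtain ⟨τ', hτ', hr⟩ := hDS k n l τ hτ
  refine ⟨τ', hτ', fun a => ?_⟩
  refine (hJY k n l m _).1 ?_
  rw [map_sub, hr, hθ]
  have h3 := (LV.pres hw (JL.zero (τ (MvPolynomial.X (emb n l a))))).2
  have h4 : (θ * τ⁻¹) (τ (MvPolynomial.X (emb n l a))) = θ (MvPolynomial.X (emb n l a)) := by
    rw [AlgEquiv.mul_apply]
    have : τ⁻¹ (τ (MvPolynomial.X (emb n l a))) = MvPolynomial.X (emb n l a) :=
      τ.symm_apply_apply _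
    rw [this]
  rw [h4] at h3
  have h5 := Submodule.neg_mem _ h3
  rw [neg_sub] at h5
  exact JL.mono (by rw [zero_add]; exact le_max_left _ _) h5

end Pool.AM
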