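import Pool.Agent.Work.MP_91aed7_un.Def

/-! FB: uniform stable tameness to all orders -/

set_option autoImplicit false

open Finset

namespace Pool.AM

namespace UFB

lemma emb_castAdd (n l : ℕ) (i : Fin n) : emb n l (Fin.castAdd l i) = Sum.inl i := by
  unfold emb
  rw [Fin.addCases_left]

lemma emb_natAdd (n l : ℕ) (j : Fin l) : emb n l (Fin.natAdd n j) = Sum.inr (j : ℕ) := by
  unfold emb
  rw [Fin.addCases_right]

end UFB

/-- FB -/
theorem u_FB (hJ : Stmt_J) (hF : Stmt_FLL) (hSt : Stmt_START) (hE : Stmt_EXT) (hT : S_TLL)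
    (hI : S_IT) (hDS : S_DSL) (hJY : S_JY) : S_FB := by
  intro k _ _ n φ
  have J' := hJ k n
  have L' := hF k n
  have T' := hT k n
  obtain ⟨Φ, hΦ, hΦs, hΦL⟩ := hE k n φ
  obtain ⟨θ, ⟨L0, hL0⟩, hθ, hT0⟩ := hSt k n φ Φ hΦ hΦs hΦL
  obtain ⟨L1, hL1⟩ := T'.tame _ hT0
  refine ⟨max (max L0 L1) 2, fun l hl m => ?_⟩
  have h2 : 2 ≤ l := le_trans (le_max_right _ _) hl
  have hl0 : L0 ≤ l := le_trans (le_trans (le_max_left _ _) (le_max_left _ _)) hl
  have hl1 : L1 ≤ l := le_trans (le_trans (le_max_right _ _) (le_max_left _ _)) hl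
  obtain ⟨τ, hτ, -, hlev⟩ := hI k n l (max m 1) θ h2 (le_max_right _ _) (L'.mono hl0 hL0) hθ
  have hσ : Φ * θ * τ⁻¹ ∈ TL k n l := mul_mem (T'.mono hl1 hL1) (inv_mem hτ)
  obtain ⟨τ', hτ', hr⟩ := hDS k n l _ hσ
  have hpres : ∀ v, (Φ : PS k n →ₐ[k] PS k n) (MvPolynomial.X v) ∈ J k n (wt v) := by
    intro v
    rcases v with i | j
    · exact J'.zero _
    · have h1 : (Φ : PS k n →ₐ[k] PS k n) (MvPolynomial.X (Sum.inr j))
          = MvPolynomial.X (Sum.inr j) := hΦ.2 j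
      rw [h1]
      exact J'.X_mem _
  have hdiff : ∀ v, (Φ * θ * τ⁻¹) (MvPolynomial.X v) - Φ (MvPolynomial.X v) ∈ J k n m := by
    intro v
    have h1 : (Φ * θ * τ⁻¹) (MvPolynomial.X v) - Φ (MvPolynomial.X v)
        = (Φ : PS k n →ₐ[k] PS k n) ((θ * τ⁻¹) (MvPolynomial.X v) - MvPolynomial.X v) := by
      rw [map_sub, mul_assoc]
      rfl
    rw [h1]
    exact J'.pres _ hpres
      (J'.mono (le_trans (le_max_left m 1) (Nat.le_add_right _ _)) (hlev v))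
  refine ⟨τ', hτ', fun i => ?_, fun j => ?_⟩
  · rw [← hJY, map_sub, hr, UFB.emb_castAdd, MvPolynomial.rename_rename]
    have h1 : (emb n l ∘ Fin.castAdd l) = Sum.inl := by
      funext i
      exact UFB.emb_castAdd n l i
    rw [h1, ← hΦ.1 i]
    exact hdiff _
  · rw [← hJY, map_sub, hr, UFB.emb_natAdd, MvPolynomial.rename_X, UFB.emb_natAdd]
    have h1 := hdiff (Sum.inr (j : ℕ))
    rwa [hΦ.2] at h1

end Pool.AM
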