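import Pool.Agent.Work.MP_91aed7_un.Def2

set_option autoImplicit false

open Finset

namespace Pool.AM

/-- FC -/
theorem u_FC (hB : S_FB) (hE : S_EF) (h1 : S_FC1) : S_FC := by
  intro k _ _ n φ
  by_cases hφ : φ ∈ Tame k n
  · refine ⟨2, fun _ => rfl, fun l hl ψ hψ m => ?_⟩
    obtain ⟨Φ, e1, e2, -, -, e5⟩ := hE k n l φ
    refine h1 k n l hl φ Φ ψ (e5 hφ) ⟨?_, ?_⟩ hψ m
    · intro i
      rw [e1 i, sub_self]
      exact Ideal.zero_mem _
    · intro j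
      rw [e2 j, sub_self]
      exact Ideal.zero_mem _
  · obtain ⟨l₀, hl₀⟩ := hB k n φ
    refine ⟨max l₀ 2, fun h => absurd h hφ, fun l hl ψ hψ m => ?_⟩
    obtain ⟨σ, hσ, s1, s2⟩ := hl₀ l (le_trans (le_max_left _ _) hl) 2
    refine h1 k n l (le_trans (le_max_right _ _) hl) φ σ ψ hσ ⟨fun i => ?_, s2⟩ hψ m
    exact Ideal.pow_le_self two_ne_zero (s1 i)

end Pool.AM
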