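import Pool.Agent.Work.MP_91aed7_un.Def2
import Pool.Agent.Work.MP_91aed7_am_helper54.FIN

set_option autoImplicit false

open Finset

namespace Pool.AM

namespace UFC1

variable {k : Type} [Field k] {n l : ℕ}

theorem X_mem (j : Fin l) :
    (MvPolynomial.X (Fin.natAdd n j) : MvPolynomial (Fin (n + l)) k) ∈ IY k n l :=
  Ideal.subset_span ⟨j, rfl⟩

theorem pres (α : MvPolynomial (Fin (n + l)) k ≃ₐ[k] MvPolynomial (Fin (n + l)) k)
    (h : ∀ j : Fin l, α (MvPolynomial.X (Fin.natAdd n j)) ∈ IY k n l) {r : ℕ}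
    {f : MvPolynomial (Fin (n + l)) k} (hf : f ∈ IY k n l ^ r) : α f ∈ IY k n l ^ r := by
  have h1 : Ideal.map (α : MvPolynomial (Fin (n + l)) k →+* MvPolynomial (Fin (n + l)) k)
      (IY k n l) ≤ IY k n l := by
    unfold IY
    rw [Ideal.map_span, Ideal.span_le]
    rintro _ ⟨_, ⟨j, rfl⟩, rfl⟩
    exact h j
  have h2 := Ideal.mem_map_of_mem
    (α : MvPolynomial (Fin (n + l)) k →+* MvPolynomial (Fin (n + l)) k) hf
  rw [Ideal.map_pow] at h2
  exact Ideal.pow_right_mono h1 r h2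

theorem pres1 (α : MvPolynomial (Fin (n + l)) k ≃ₐ[k] MvPolynomial (Fin (n + l)) k)
    (h : ∀ j : Fin l, α (MvPolynomial.X (Fin.natAdd n j)) ∈ IY k n l)
    {f : MvPolynomial (Fin (n + l)) k} (hf : f ∈ IY k n l) : α f ∈ IY k n l := by
  have := pres α h (r := 1) (f := f) (by rwa [pow_one])
  rwa [pow_one] at this

end UFC1

/-- FC1 -/
theorem u_FC1 (_hJ : Stmt_J) (hLV : Stmt_LV) (hL : S_LFT) (hJY : S_JY) (hA : S_FA) (hE : S_EF) :
    S_FC1 := by
  intro k _ _ n l hl φ σ ψ hσ hAσ hAψ m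
  have LV := hLV k n
  obtain ⟨Φ, e1, e2, e3, e4, -⟩ := hE k n l φ
  have hΦi : ∀ j : Fin l, (Φ⁻¹ : MvPolynomial (Fin (n + l)) k ≃ₐ[k] MvPolynomial (Fin (n + l)) k)
      (MvPolynomial.X (Fin.natAdd n j)) = MvPolynomial.X (Fin.natAdd n j) := e4
  have hΦi' : ∀ j : Fin l, (Φ⁻¹ : MvPolynomial (Fin (n + l)) k ≃ₐ[k] MvPolynomial (Fin (n + l)) k)
      (MvPolynomial.X (Fin.natAdd n j)) ∈ IY k n l := by
    intro j
    rw [hΦi]
    exact UFC1.X_mem j
  -- the automorphism ξ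
  have hx1 : ∀ i : Fin n, (Φ⁻¹ * σ) (MvPolynomial.X (Fin.castAdd l i))
      - MvPolynomial.X (Fin.castAdd l i) ∈ IY k n l := by
    intro i
    have h1 : (Φ⁻¹ * σ) (MvPolynomial.X (Fin.castAdd l i)) - MvPolynomial.X (Fin.castAdd l i)
        = Φ⁻¹ (σ (MvPolynomial.X (Fin.castAdd l i)) - Φ (MvPolynomial.X (Fin.castAdd l i))) := by
      rw [map_sub, AlgEquiv.mul_apply]
      congr 1
      exact (Φ.symm_apply_apply _).symm
    rw [h1]
    apply UFC1.pres1 _ hΦi'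
    rw [e1]
    exact hAσ.1 i
  have hx2 : ∀ j : Fin l, (Φ⁻¹ * σ) (MvPolynomial.X (Fin.natAdd n j))
      - MvPolynomial.X (Fin.natAdd n j) ∈ IY k n l ^ 2 := by
    intro j
    have h1 : (Φ⁻¹ * σ) (MvPolynomial.X (Fin.natAdd n j)) - MvPolynomial.X (Fin.natAdd n j)
        = Φ⁻¹ (σ (MvPolynomial.X (Fin.natAdd n j)) - Φ (MvPolynomial.X (Fin.natAdd n j))) := by
      rw [map_sub, AlgEquiv.mul_apply]
      congr 1
      exact (Φ.symm_apply_apply _).symm
    rw [h1]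
    apply UFC1.pres _ hΦi'
    rw [e2]
    exact hAσ.2 j
  obtain ⟨θ, hθL, hθ⟩ := hL k n l (Φ⁻¹ * σ)
  have hlvl : Lvl 1 θ := by
    intro v
    rcases v with i | j
    · have h1 := hθ (Fin.castAdd l i)
      rw [FIN_.emb_castAdd] at h1
      have h2 : θ (MvPolynomial.X (Sum.inl i)) - MvPolynomial.X (Sum.inl i)
          = MvPolynomial.rename (emb n l) ((Φ⁻¹ * σ) (MvPolynomial.X (Fin.castAdd l i))
            - MvPolynomial.X (Fin.castAdd l i)) := by
        rw [map_sub, h1, MvPolynomial.rename_X, FIN_.emb_castAdd]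
      rw [h2]
      refine (hJY k n l _ _).2 ?_
      have h3 : (1 + wt (Sum.inl i : Vr n)) = 1 := rfl
      rw [h3, pow_one]
      exact hx1 i
    · by_cases hj : j < l
      · have h1 := hθ (Fin.natAdd n ⟨j, hj⟩)
        rw [FIN_.emb_natAdd] at h1
        have h2 : θ (MvPolynomial.X (Sum.inr j)) - MvPolynomial.X (Sum.inr j)
            = MvPolynomial.rename (emb n l) ((Φ⁻¹ * σ) (MvPolynomial.X (Fin.natAdd n ⟨j, hj⟩))
              - MvPolynomial.X (Fin.natAdd n ⟨j, hj⟩)) := by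
          rw [map_sub, h1, MvPolynomial.rename_X, FIN_.emb_natAdd]
        rw [h2]
        refine (hJY k n l _ _).2 ?_
        exact hx2 ⟨j, hj⟩
      · rw [hθL.2 (Sum.inr j) (fun h => hj (h j rfl)), sub_self]
        exact Submodule.zero_mem _
  have hinv := LV.inv (le_refl 1) hlvl
  have hcomm : ∀ p, MvPolynomial.rename (emb n l) ((Φ⁻¹ * σ) p)
      = θ (MvPolynomial.rename (emb n l) p) := by
    intro p
    have h1 : (MvPolynomial.rename (emb n l)).comp
        ((Φ⁻¹ * σ : MvPolynomial (Fin (n + l)) k ≃ₐ[k] MvPolynomial (Fin (n + l)) k) :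
          MvPolynomial (Fin (n + l)) k →ₐ[k] MvPolynomial (Fin (n + l)) k)
        = (θ : PS k n →ₐ[k] PS k n).comp (MvPolynomial.rename (emb n l)) := by
      apply MvPolynomial.algHom_ext
      intro a
      have h2 := hθ a
      simp only [AlgHom.comp_apply, MvPolynomial.rename_X]
      exact h2
    exact DFunLike.congr_fun h1 p
  have hσi : ∀ j : Fin l, (σ⁻¹ : MvPolynomial (Fin (n + l)) k ≃ₐ[k] MvPolynomial (Fin (n + l)) k)
      (MvPolynomial.X (Fin.natAdd n j)) ∈ IY k n l := by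
    intro j
    have h1 := (hJY k n l 1 (σ⁻¹ (MvPolynomial.X (Fin.natAdd n j)))).1
    rw [pow_one] at h1
    apply h1
    have h2 := hcomm (σ⁻¹ (MvPolynomial.X (Fin.natAdd n j)))
    have h3 : (Φ⁻¹ * σ) (σ⁻¹ (MvPolynomial.X (Fin.natAdd n j))) = MvPolynomial.X (Fin.natAdd n j) := by
      rw [AlgEquiv.mul_apply]
      have h4 : σ (σ⁻¹ (MvPolynomial.X (Fin.natAdd n j) : MvPolynomial (Fin (n + l)) k))
          = MvPolynomial.X (Fin.natAdd n j) := σ.apply_symm_apply _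
      rw [h4]
      exact hΦi j
    rw [h3, MvPolynomial.rename_X, FIN_.emb_natAdd] at h2
    have h5 : MvPolynomial.rename (emb n l) (σ⁻¹ (MvPolynomial.X (Fin.natAdd n j)))
        = θ⁻¹ (MvPolynomial.X (Sum.inr (j : ℕ))) := by
      rw [h2]
      exact (θ.symm_apply_apply _).symm
    rw [h5]
    have h6 := hinv (Sum.inr (j : ℕ))
    have h7 : θ⁻¹ (MvPolynomial.X (Sum.inr (j : ℕ)))
        = (θ⁻¹ (MvPolynomial.X (Sum.inr (j : ℕ))) - MvPolynomial.X (Sum.inr (j : ℕ)))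
          + MvPolynomial.X (Sum.inr (j : ℕ)) := by ring
    rw [h7]
    have JL := _hJ k n
    refine Submodule.add_mem _ (JL.mono (by omega) h6) ?_
    exact JL.X_mem (Sum.inr (j : ℕ))
  have hσσ : ∀ f : MvPolynomial (Fin (n + l)) k, σ⁻¹ (σ f) = f := fun f => σ.symm_apply_apply f
  have hσσ' : ∀ f : MvPolynomial (Fin (n + l)) k, σ (σ⁻¹ f) = f := fun f => σ.apply_symm_apply f
  have hσy : ∀ j : Fin l, σ (MvPolynomial.X (Fin.natAdd n j)) ∈ IY k n l := by
    intro j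
    have h1 := Ideal.pow_le_self two_ne_zero (hAσ.2 j)
    have h2 := Ideal.add_mem _ h1 (UFC1.X_mem (k := k) (n := n) j)
    rwa [sub_add_cancel] at h2
  -- the automorphism η
  obtain ⟨t, ht, htη⟩ := hA k n l hl (σ⁻¹ * ψ)
    (by
      intro i
      have h1 : (σ⁻¹ * ψ) (MvPolynomial.X (Fin.castAdd l i)) - MvPolynomial.X (Fin.castAdd l i)
          = σ⁻¹ (ψ (MvPolynomial.X (Fin.castAdd l i)) - σ (MvPolynomial.X (Fin.castAdd l i))) := by
        rw [map_sub, AlgEquiv.mul_apply, hσσ]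
      rw [h1]
      apply UFC1.pres1 _ hσi
      have h2 := Ideal.sub_mem _ (hAψ.1 i) (hAσ.1 i)
      rwa [sub_sub_sub_cancel_right] at h2)
    (by
      intro j
      have h1 : (σ⁻¹ * ψ) (MvPolynomial.X (Fin.natAdd n j)) - MvPolynomial.X (Fin.natAdd n j)
          = σ⁻¹ (ψ (MvPolynomial.X (Fin.natAdd n j)) - σ (MvPolynomial.X (Fin.natAdd n j))) := by
        rw [map_sub, AlgEquiv.mul_apply, hσσ]
      rw [h1]
      apply UFC1.pres _ hσi
      have h2 := Ideal.sub_mem _ (hAψ.2 j) (hAσ.2 j)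
      rwa [sub_sub_sub_cancel_right] at h2) m
  refine ⟨σ * t, Subgroup.mul_mem _ hσ ht, fun a => ?_⟩
  have h1 : (σ * t) (MvPolynomial.X a) - ψ (MvPolynomial.X a)
      = σ (t (MvPolynomial.X a) - (σ⁻¹ * ψ) (MvPolynomial.X a)) := by
    rw [map_sub, AlgEquiv.mul_apply, AlgEquiv.mul_apply, hσσ']
  rw [h1]
  exact UFC1.pres _ hσy (htη a)

end Pool.AM
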