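import Pool.Agent.Work.MP_91aed7_un.Def

/-!
# Block G0: the part without `y_0`
-/

set_option autoImplicit false

open Finset

namespace Pool.AM

noncomputable section

namespace UG0

/-- the degree in the `y`-variables is additive -/
theorem ydeg_add {n : ℕ} (a b : Vr n →₀ ℕ) : ydeg (a + b) = ydeg a + ydeg b := by
  unfold ydeg
  exact Finsupp.sum_add_index' (fun v => by simp) (fun v x y => by ring)

theorem ydeg_single {n : ℕ} (v : Vr n) (e : ℕ) : ydeg (Finsupp.single v e) = e * wt v := by
  unfold ydeg
  exact Finsupp.sum_single_index (by simp)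

end UG0

theorem u_G0 : S_G0 := by
  intro k _ _ n L w f hs hf hp
  classical
  set z : Vr n := Sum.inr 0 with hz
  let f0 : PS k n := ∑ m ∈ f.support.filter (fun m => m z = 0),
    MvPolynomial.monomial m (MvPolynomial.coeff m f)
  have hc : ∀ m, MvPolynomial.coeff m f0 = if m z = 0 then MvPolynomial.coeff m f else 0 := by
    intro m
    simp only [f0, MvPolynomial.coeff_sum, MvPolynomial.coeff_monomial]
    rw [Finset.sum_ite_eq']
    by_cases h1 : m z = 0
    · rw [if_pos h1]
      by_cases h2 : m ∈ f.support
      · rw [if_pos (Finset.mem_filter.2 ⟨h2, h1⟩)]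
      · rw [if_neg (fun h => h2 (Finset.mem_filter.1 h).1)]
        exact (MvPolynomial.notMem_support_iff.1 h2).symm
    · have h3 : m ∉ f.support.filter (fun m => m z = 0) := fun h => h1 (Finset.mem_filter.1 h).2
      rw [if_neg h1, if_neg h3]
  have hsub : ∀ m ∈ f0.support, m ∈ f.support ∧ m z = 0 := by
    intro m hm
    have h1 := MvPolynomial.mem_support_iff.1 hm
    rw [hc] at h1
    by_cases h2 : m z = 0
    · rw [if_pos h2] at h1
      exact ⟨MvPolynomial.mem_support_iff.2 h1, h2⟩
    · rw [if_neg h2] at h1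
      exact absurd rfl h1
  refine ⟨f0, ?_, ?_, ?_, ?_⟩
  · rw [MvPolynomial.mem_supported] at hs ⊢
    intro v hv
    apply hs
    rw [Finset.mem_coe, MvPolynomial.mem_vars_iff_mem_support] at hv ⊢
    obtain ⟨m, hm, hmv⟩ := hv
    exact ⟨m, (hsub m hm).1, hmv⟩
  · intro m hm
    exact hf m (hsub m hm).1
  · rw [MvPolynomial.mem_vars_iff_mem_support]
    rintro ⟨m, hm, hmv⟩
    exact (Finsupp.mem_support_iff.1 hmv) (hsub m hm).2
  · intro m hm
    have h1 := MvPolynomial.mem_support_iff.1 hm
    rw [MvPolynomial.coeff_sub, hc] at h1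
    by_cases h2 : m z = 0
    · rw [if_pos h2, sub_self] at h1
      exact absurd rfl h1
    · rw [if_neg h2, sub_zero] at h1
      have h3 : (m - Finsupp.single z 1) + Finsupp.single z 1 = m := by
        apply tsub_add_cancel_of_le
        rw [Finsupp.single_le_iff]
        omega
      have h4 : m - Finsupp.single z 1 ∈ (MvPolynomial.pderiv z f).support := by
        rw [MvPolynomial.mem_support_iff, MvPolynomial.coeff_pderiv, h3]
        exact mul_ne_zero h1 (Nat.cast_add_one_ne_zero _)
      have h5 := hp _ h4
      have h6 : ydeg m = ydeg (m - Finsupp.single z 1) + 1 := by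
        conv_lhs => rw [← h3]
        rw [UG0.ydeg_add, UG0.ydeg_single]
        simp [hz, wt]
      omega

end

end Pool.AM
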