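import Pool.Agent.Work.MP_91aed7_un.Def

/-!
# Block IT: all levels (typed by helper81)
-/

set_option autoImplicit false

open Finset

namespace Pool.AM

/-- IT. -/
theorem u_IT (hT : S_TLL) (hF : Stmt_FLL) (hS : S_STL) : S_IT := by
  intro k _ _ n L w θ hL hw hFL hLv
  induction w, hw using Nat.le_induction with
  | base =>
    refine ⟨1, one_mem _, ?_, ?_⟩
    · rw [inv_one, mul_one]
      exact hFL
    · rw [inv_one, mul_one]
      exact hLv
  | succ w hw ih =>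
    obtain ⟨τ, hτ, hf, hl⟩ := ih
    obtain ⟨τ2, hτ2, hl2⟩ := hS k n L w (θ * τ⁻¹) hL hw hf hl
    have e : θ * (τ2 * τ)⁻¹ = θ * τ⁻¹ * τ2⁻¹ := by
      rw [mul_inv_rev, mul_assoc]
    refine ⟨τ2 * τ, mul_mem hτ2 hτ, ?_, ?_⟩
    · rw [e]
      exact (hF k n).mul hf ((hF k n).inv ((hT k n).fl hτ2))
    · rw [e]
      exact hl2

end Pool.AM
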