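import Pool.Agent.Work.MP_91aed7_un.Def
import Pool.Agent.Work.MP_91aed7_am_helper54.FIN

/-! JY: the filtration `J` and the powers of the ideal generated by the last variables. -/

set_option autoImplicit false

open Finset

namespace Pool.AM

namespace UJY

variable {k : Type} [Field k] {n : ℕ}

lemma IY_le (hJ : JLaws k n) (l : ℕ) (f : MvPolynomial (Fin (n + l)) k) (hf : f ∈ IY k n l) :
    MvPolynomial.rename (emb n l) f ∈ J k n 1 := by
  unfold IY at hf
  induction hf using Submodule.span_induction with
  | mem x hx =>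
    obtain ⟨j, rfl⟩ := hx
    simp only [MvPolynomial.rename_X]
    rw [FIN_.emb_natAdd]
    exact hJ.X_mem (Sum.inr (j : ℕ))
  | zero => rw [map_zero]; exact zero_mem _
  | add x y _ _ hx hy => rw [map_add]; exact add_mem hx hy
  | smul a x _ hx =>
    rw [smul_eq_mul, map_mul]
    have h := hJ.mul (hJ.zero (MvPolynomial.rename (emb n l) a)) hx
    rwa [zero_add] at h

lemma IY_pow_le (hJ : JLaws k n) (l m : ℕ) : ∀ f : MvPolynomial (Fin (n + l)) k,
    f ∈ IY k n l ^ m → MvPolynomial.rename (emb n l) f ∈ J k n m := by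
  induction m with
  | zero => intro f _; exact hJ.zero _
  | succ m ih =>
    intro f hf
    rw [pow_succ] at hf
    refine Submodule.mul_induction_on hf (fun a ha b hb => ?_) (fun x y hx hy => ?_)
    · rw [map_mul]
      exact hJ.mul (ih a ha) (IY_le hJ l b hb)
    · rw [map_add]
      exact add_mem hx hy

end UJY

/-- JY -/
theorem u_JY (hJ : Stmt_J) : S_JY := by
  intro k _ n l m f
  exact ⟨fun h => FIN_.mem_pow_of l m m le_rfl f h, fun h => UJY.IY_pow_le (hJ k n) l m f h⟩

end Pool.AM
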