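import Pool.Agent.Work.MP_91aed7_un.Def

/-!
# Block LFT: automorphisms of `k[x_1, ..., x_(n+L)]` give automorphisms of `PS k n`
-/

set_option autoImplicit false

open MvPolynomial

namespace Pool.AM.ULFT

variable {k : Type} [Field k] {n L : ℕ}

theorem emb_castAdd (n l : ℕ) (i : Fin n) : emb n l (Fin.castAdd l i) = Sum.inl i := by
  unfold emb
  rw [Fin.addCases_left]

theorem emb_natAdd (n l : ℕ) (j : Fin l) : emb n l (Fin.natAdd n j) = Sum.inr (j : ℕ) := by
  unfold emb
  rw [Fin.addCases_right]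

theorem emb_low (a : Fin (n + L)) : emb n L a ∈ low n L := by
  refine Fin.addCases (fun i => ?_) (fun j => ?_) a
  · rw [emb_castAdd]
    intro j hj
    cases hj
  · rw [emb_natAdd]
    intro j' hj'
    have := Sum.inr.inj hj'
    have := j.isLt
    omega

theorem low_emb {v : Vr n} (hv : v ∈ low n L) : ∃ a : Fin (n + L), v = emb n L a := by
  rcases v with i | j
  · exact ⟨Fin.castAdd L i, (emb_castAdd n L i).symm⟩
  · exact ⟨Fin.natAdd n ⟨j, hv j rfl⟩, (emb_natAdd n L ⟨j, hv j rfl⟩).symm⟩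

theorem not_low {v : Vr n} (hv : v ∉ low n L) : ∃ j : ℕ, ¬ j < L ∧ v = Sum.inr j := by
  rcases v with i | j
  · exact absurd (fun j hj => by cases hj) hv
  · refine ⟨j, fun h => hv ?_, rfl⟩
    intro j' hj'
    have := Sum.inr.inj hj'
    omega

/-- the extension of an endomorphism -/
noncomputable def lf (φ : MvPolynomial (Fin (n + L)) k →ₐ[k] MvPolynomial (Fin (n + L)) k) :
    PS k n →ₐ[k] PS k n :=
  aeval (Sum.elim (fun i => rename (emb n L) (φ (X (Fin.castAdd L i))))
    (fun j => if h : j < L then rename (emb n L) (φ (X (Fin.natAdd n ⟨j, h⟩)))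
      else X (Sum.inr j)))

theorem lf_emb (φ : MvPolynomial (Fin (n + L)) k →ₐ[k] MvPolynomial (Fin (n + L)) k)
    (a : Fin (n + L)) : lf φ (X (emb n L a)) = rename (emb n L) (φ (X a)) := by
  refine Fin.addCases (fun i => ?_) (fun j => ?_) a
  · rw [emb_castAdd, lf, aeval_X]
    rfl
  · rw [emb_natAdd, lf, aeval_X]
    have h : (j : ℕ) < L := j.isLt
    simp only [Sum.elim_inr, h, dif_pos]

theorem lf_out (φ : MvPolynomial (Fin (n + L)) k →ₐ[k] MvPolynomial (Fin (n + L)) k)
    (j : ℕ) (h : ¬ j < L) : lf φ (X (Sum.inr j)) = X (Sum.inr j) := by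
  rw [lf, aeval_X]
  simp only [Sum.elim_inr, h, dif_neg, not_false_eq_true]

theorem lf_rename (φ : MvPolynomial (Fin (n + L)) k →ₐ[k] MvPolynomial (Fin (n + L)) k)
    (f : MvPolynomial (Fin (n + L)) k) :
    lf φ (rename (emb n L) f) = rename (emb n L) (φ f) := by
  have h : (lf φ).comp (rename (emb n L)) = (rename (emb n L)).comp φ := by
    apply MvPolynomial.algHom_ext
    intro i
    simp only [AlgHom.comp_apply, rename_X]
    exact lf_emb φ i
  exact congrArg (fun g => g f) h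

theorem lf_comp {φ ψ : MvPolynomial (Fin (n + L)) k →ₐ[k] MvPolynomial (Fin (n + L)) k}
    (h : φ.comp ψ = AlgHom.id k _) : (lf φ).comp (lf ψ) = AlgHom.id k _ := by
  apply MvPolynomial.algHom_ext
  intro v
  by_cases hv : v ∈ low n L
  · obtain ⟨a, rfl⟩ := low_emb hv
    have h' : φ (ψ (X a)) = X a := congrArg (fun g => g (X a)) h
    rw [AlgHom.comp_apply, lf_emb, lf_rename, h', rename_X]
    rfl
  · obtain ⟨j, hj, rfl⟩ := not_low hv
    rw [AlgHom.comp_apply, lf_out _ j hj, lf_out _ j hj]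
    rfl

/-- the extension of an automorphism -/
noncomputable def le (φ : MvPolynomial (Fin (n + L)) k ≃ₐ[k] MvPolynomial (Fin (n + L)) k) :
    PS k n ≃ₐ[k] PS k n :=
  AlgEquiv.ofAlgHom
    (lf (φ : MvPolynomial (Fin (n + L)) k →ₐ[k] MvPolynomial (Fin (n + L)) k))
    (lf (φ.symm : MvPolynomial (Fin (n + L)) k →ₐ[k] MvPolynomial (Fin (n + L)) k))
    (lf_comp (by ext i; simp)) (lf_comp (by ext i; simp))

theorem le_symm (φ : MvPolynomial (Fin (n + L)) k ≃ₐ[k] MvPolynomial (Fin (n + L)) k)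
    (f : PS k n) : (le φ).symm f
      = lf (φ.symm : MvPolynomial (Fin (n + L)) k →ₐ[k] MvPolynomial (Fin (n + L)) k) f := rfl

theorem le_apply (φ : MvPolynomial (Fin (n + L)) k ≃ₐ[k] MvPolynomial (Fin (n + L)) k)
    (f : PS k n) : le φ f
      = lf (φ : MvPolynomial (Fin (n + L)) k →ₐ[k] MvPolynomial (Fin (n + L)) k) f := rfl

theorem rename_mem (f : MvPolynomial (Fin (n + L)) k) :
    rename (emb n L) f ∈ supported k (low n L) := by
  classical
  rw [mem_supported]
  intro v hv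
  have h := vars_rename (emb n L) f hv
  rw [Finset.mem_image] at h
  obtain ⟨a, -, rfl⟩ := h
  exact emb_low a

end Pool.AM.ULFT

open Pool.AM.ULFT in
theorem Pool.AM.u_LFT : Pool.AM.S_LFT := by
  intro k _ n L φ
  refine ⟨le φ, ⟨?_, ?_⟩, fun a => ?_⟩
  · intro v hv
    obtain ⟨a, rfl⟩ := low_emb hv
    refine ⟨?_, ?_⟩
    · rw [le_apply, lf_emb]
      exact rename_mem _
    · rw [le_symm, lf_emb]
      exact rename_mem _
  · intro v hv
    obtain ⟨j, hj, rfl⟩ := not_low hv
    exact lf_out _ j hj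
  · rw [le_apply, lf_emb]
    rfl
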