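import Pool.Agent.Work.MP_91aed7_un.Def

/-!
# Block POL: polarization
-/

set_option autoImplicit false

open Finset

namespace Pool.AM

noncomputable section

theorem u_POL : S_POL := by
  intro k _ _ A _ _ S M U Z N h b hb c
  classical
  let v : ℕ → k := fun s => (s : k) + 1
  have hv : Set.InjOn v (range (N + 1) : Finset ℕ) := by
    intro x _ y _ hxy
    simpa [v] using hxy
  have hv0 : ∀ s, v s ≠ 0 := fun s => Nat.cast_add_one_ne_zero s
  let cs : ℕ → k := fun s => (Lagrange.basis (range (N + 1)) v s).coeff b
  have hcs : ∀ b' ≤ N, ∑ s ∈ range (N + 1), v s ^ b' * cs s = if b = b' then 1 else 0 := by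
    intro b' hb'
    have hdeg : ((Polynomial.X : Polynomial k) ^ b').degree < ((range (N + 1)).card : ℕ) := by
      rw [Polynomial.degree_X_pow, card_range]
      exact_mod_cast Nat.lt_succ_of_le hb'
    have e := Lagrange.eq_interpolate hv hdeg
    have e2 := congrArg (fun p => Polynomial.coeff p b) e
    simp only [Lagrange.interpolate_apply, Polynomial.finsetSum_coeff, Polynomial.coeff_C_mul,
      Polynomial.eval_pow, Polynomial.eval_X, Polynomial.coeff_X_pow] at e2
    exact e2.symm
  have expand : ∀ t : k, M * (U + t • Z) ^ N = ∑ b' ∈ range (N + 1),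
      (t ^ b' * (N.choose b' : k)) • (M * (U ^ (N - b') * Z ^ b')) := by
    intro t
    rw [add_comm U, add_pow, Finset.mul_sum]
    apply sum_congr rfl
    intro m _
    rw [smul_pow, Algebra.smul_def, Algebra.smul_def, map_mul, map_natCast]
    ring
  have hch : (N.choose b : k) ≠ 0 := by
    exact_mod_cast (Nat.choose_pos hb).ne'
  have key : c • (M * (U ^ (N - b) * Z ^ b)) =
      ∑ s ∈ range (N + 1), (c * cs s / (N.choose b : k)) • (M * (U + v s • Z) ^ N) := by
    have e1 : ∀ s ∈ range (N + 1), (c * cs s / (N.choose b : k)) • (M * (U + v s • Z) ^ N) =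
        ∑ b' ∈ range (N + 1), (c * cs s / (N.choose b : k) * (v s ^ b' * (N.choose b' : k))) •
          (M * (U ^ (N - b') * Z ^ b')) := by
      intro s _
      rw [expand, Finset.smul_sum]
      apply sum_congr rfl
      intro b' _
      rw [smul_smul]
    rw [sum_congr rfl e1, Finset.sum_comm]
    have e2 : ∀ b' ∈ range (N + 1), ∑ s ∈ range (N + 1),
        (c * cs s / (N.choose b : k) * (v s ^ b' * (N.choose b' : k))) •
          (M * (U ^ (N - b') * Z ^ b')) =
        if b' = b then c • (M * (U ^ (N - b) * Z ^ b)) else 0 := by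
      intro b' hb'
      rw [← Finset.sum_smul]
      have e3 : ∑ s ∈ range (N + 1),
          c * cs s / (N.choose b : k) * (v s ^ b' * (N.choose b' : k)) =
          c / (N.choose b : k) * (N.choose b' : k) * ∑ s ∈ range (N + 1), v s ^ b' * cs s := by
        rw [Finset.mul_sum]
        apply sum_congr rfl
        intro s _
        ring
      rw [e3, hcs b' (Nat.lt_succ_iff.1 (mem_range.1 hb'))]
      by_cases hbb : b' = b
      · subst hbb
        rw [if_pos rfl, if_pos rfl, mul_one, div_mul_cancel₀ _ hch]
      · rw [if_neg (fun h => hbb h.symm), if_neg hbb, mul_zero, zero_smul]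
    rw [sum_congr rfl e2, Finset.sum_ite_eq', if_pos (mem_range.2 (Nat.lt_succ_of_le hb))]
  rw [key]
  exact S.sum_mem fun s _ => h _ _ (hv0 s)

end

end Pool.AM
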