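import Pool.Agent.Work.MP_91aed7_un.Def

set_option autoImplicit false

open Finset

namespace Pool.AM

noncomputable section

/-- RD -/
theorem u_RD (hJ : Stmt_J) (hT : S_TLL) (hD : Stmt_DIV) : S_RD := by
  classical
  intro k _ n L w H hw h
  have JL := hJ k n
  obtain ⟨h1, hs, ho, τ, hτ, h2⟩ := h
  have hL : Lvl w τ := by
    intro v
    have h3 : τ (MvPolynomial.X v) - MvPolynomial.X v =
        (τ (MvPolynomial.X v) - MvPolynomial.X v - H v) + H v := by ring
    rw [h3]
    exact Submodule.add_mem _ (JL.mono (by omega) (h2 v)) (h1 v)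
  have h3 := hD k n L w τ hw ((hT k n).fl hτ) hL
  have h4 : ∑ v ∈ lowF n L, MvPolynomial.pderiv v (H v) =
      ∑ v ∈ lowF n L, MvPolynomial.pderiv v (τ (MvPolynomial.X v) - MvPolynomial.X v) -
      ∑ v ∈ lowF n L, MvPolynomial.pderiv v (τ (MvPolynomial.X v) - MvPolynomial.X v - H v) := by
    rw [← Finset.sum_sub_distrib]
    refine Finset.sum_congr rfl fun v _ => ?_
    rw [map_sub _ _ (H v)]
    ring
  rw [h4]
  refine Submodule.sub_mem _ h3 (Submodule.sum_mem _ fun v _ => ?_)
  apply JL.pd v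
  have h5 := h2 v
  rw [show w + 1 + wt v = w + wt v + 1 by ring]
  exact h5

end

end Pool.AM
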