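import Pool.Agent.Work.MP_91aed7_un.Def
import Pool.Agent.Work.MP_91aed7_am_helper53.RK

/-!
# Block RKL: commutators in `TL`
-/

set_option autoImplicit false

open Finset

namespace Pool.AM.URKL

variable {k : Type} [Field k] {n : ℕ}

theorem inl_mem_low (i : Fin n) (L : ℕ) : (Sum.inl i : Vr n) ∈ low n L := by
  intro j hj
  cases hj

theorem inr_mem_low {j L : ℕ} (h : j < L) : (Sum.inr j : Vr n) ∈ low n L := by
  intro j' hj'
  have := Sum.inr.inj hj'
  omega

theorem supp_pderiv {L : ℕ} {f : PS k n} (i : Vr n)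
    (hf : f ∈ MvPolynomial.supported k (low n L)) :
    MvPolynomial.pderiv i f ∈ MvPolynomial.supported k (low n L) := by
  rw [MvPolynomial.mem_supported] at hf ⊢
  intro v hv
  by_contra hcon
  exact RK_.notMem_vars_pderiv (fun h => hcon (hf h)) hv

theorem supp_X {L : ℕ} {v : Vr n} (hv : v ∈ low n L) :
    (MvPolynomial.X v : PS k n) ∈ MvPolynomial.supported k (low n L) := by
  rw [MvPolynomial.X_mem_supported]
  exact hv

end Pool.AM.URKL

namespace Pool.AM

open RK_ URKL

theorem u_RKL (hJ : Stmt_J) (hLV : Stmt_LV) (hTL : S_TLL) (_hR : S_RL) : S_RKL := by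
  intro k _ n L w i0 h hL hw hsup hNh hh
  have J0 := hJ k n
  have L0 := hLV k n
  have T0 := hTL k n
  obtain ⟨i, hi⟩ : ∃ i : Vr n, i = Sum.inl i0 := ⟨_, rfl⟩
  obtain ⟨z, hz⟩ : ∃ z : Vr n, z = Sum.inr 0 := ⟨_, rfl⟩
  rw [← hi, ← hz]
  rw [← hz] at hNh
  have hwz : wt z = 1 := by rw [hz]; rfl
  have hwi : wt i = 0 := by rw [hi]; rfl
  have hNi : z ≠ i := by
    rw [hz, hi]
    exact Sum.inr_ne_inl
  have hil : i ∈ low n L := by rw [hi]; exact inl_mem_low i0 L
  have hzl : z ∈ low n L := by rw [hz]; exact inr_mem_low (by omega)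
  have hXz : (MvPolynomial.X z : PS k n) ∈ J k n 1 := by
    have := J0.X_mem z
    rwa [hwz] at this
  -- the automorphisms
  obtain ⟨nu, hnuT, nu1, nu2, nu3, nu4, nu5, nu6⟩ := T0.el (L := L) (i := z) (f := h) hzl hsup hNh
  have hzg : i ∉ (MvPolynomial.X z : PS k n).vars := by
    rw [MvPolynomial.vars_X]
    simpa using hNi.symm
  obtain ⟨om, homT, om1, om2, om3, om4, om5, om6⟩ := T0.el (L := L) hil (supp_X hzl) hzg
  have hpsup := supp_pderiv i hsup
  have hrv : z ∉ (h * MvPolynomial.pderiv i h : PS k n).vars :=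
    notMem_vars_mul hNh (notMem_vars_pderiv hNh)
  obtain ⟨ro, hroT, ro1, ro2, ro3, ro4, ro5, ro6⟩ :=
    T0.el (L := L) hzl (Subalgebra.mul_mem _ hsup hpsup) hrv
  obtain ⟨Dl, hDl⟩ : ∃ Dl : PS k n, Dl = nu (om h) - h := ⟨_, rfl⟩
  have hD' : nu (om h) = h + Dl := by rw [hDl]; ring
  obtain ⟨κ, hκ⟩ : ∃ κ : PS k n ≃ₐ[k] PS k n, κ = nu * om * nu⁻¹ * om⁻¹ := ⟨_, rfl⟩
  have hκa : ∀ x, κ x = nu (om (nu⁻¹ (om⁻¹ x))) := fun x => by rw [hκ]; rfl
  have κi : κ (MvPolynomial.X i) = MvPolynomial.X i + h + Dl := by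
    have e1 : nu⁻¹ (om⁻¹ (MvPolynomial.X i)) = MvPolynomial.X i - (MvPolynomial.X z - h) := by
      rw [om2, map_sub, nu4 i hNi.symm, nu2]
    have e2 : om (MvPolynomial.X i - (MvPolynomial.X z - h)) = MvPolynomial.X i + om h := by
      rw [map_sub, map_sub, om1, om3 z hNi]
      ring
    rw [hκa, e1, e2, map_add, nu3 i hNi.symm, hD']
    ring
  have κz : κ (MvPolynomial.X z) = MvPolynomial.X z - Dl := by
    rw [hκa, om4 z hNi, nu2, map_sub, om3 z hNi, map_sub, nu1, hD']
    ring
  have κo : ∀ v, v ≠ i → v ≠ z → κ (MvPolynomial.X v) = MvPolynomial.X v := by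
    intro v h1 h2
    rw [hκa, om4 v h1, nu4 v h2, om3 v h1, nu3 v h2]
  -- Taylor
  have hδ : (MvPolynomial.X z + h : PS k n) ∈ J k n 1 :=
    Submodule.add_mem _ hXz (J0.mono hw hh)
  have hβ : nu (om h) = elh i (MvPolynomial.X z + h) h := by
    have := congr_of_vars ((nu : PS k n →ₐ[k] PS k n).comp (om : PS k n →ₐ[k] PS k n))
      (elh i (MvPolynomial.X z + h)) h (by
        intro v hv
        have hvz : v ≠ z := by rintro rfl; exact hNh hv
        rw [AlgHom.comp_apply]
        change nu (om _) = _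
        by_cases hvi : v = i
        · subst hvi
          rw [om1, map_add, nu3 _ hNi.symm, nu1, elh_same]
        · rw [om3 v hvi, nu3 v hvz, elh_other _ hvi])
    exact this
  have hT := J0.taylor (elh i (MvPolynomial.X z + h))
    (Pi.single i (MvPolynomial.X z + h)) 1
    (by
      intro v
      by_cases hvi : v = i
      · subst hvi
        rw [elh_same, Pi.single_eq_same]
      · rw [elh_other _ hvi, Pi.single_eq_of_ne hvi, add_zero])
    (by
      intro v
      by_cases hvi : v = i
      · subst hvi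
        rw [Pi.single_eq_same, hwi]
        exact hδ
      · rw [Pi.single_eq_of_ne hvi]
        exact Submodule.zero_mem _) hh
  rw [mkDer_single, ← hβ, ← hDl] at hT
  have hph : MvPolynomial.pderiv i h ∈ J k n w := by
    have := J0.pd' i hh
    rwa [hwi, Nat.sub_zero] at this
  have hDd : (MvPolynomial.X z + h) * MvPolynomial.pderiv i h ∈ J k n (w + 1) :=
    J0.mono (by omega) (J0.mul hδ hph)
  have hDT : Dl - (MvPolynomial.X z + h) * MvPolynomial.pderiv i h ∈ J k n (w + 2) :=
    J0.mono (by omega) hT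
  have hDl1 : Dl ∈ J k n (w + 1) := by
    have : Dl = (Dl - (MvPolynomial.X z + h) * MvPolynomial.pderiv i h) +
      (MvPolynomial.X z + h) * MvPolynomial.pderiv i h := by ring
    rw [this]
    exact Submodule.add_mem _ (J0.mono (by omega) hDT) hDd
  have hlev : Lvl w κ := by
    intro v
    by_cases hvi : v = i
    · subst hvi
      rw [κi, hwi]
      have : (MvPolynomial.X v + h + Dl - MvPolynomial.X v : PS k n) = h + Dl := by ring
      rw [this]
      exact Submodule.add_mem _ hh (J0.mono (by omega) hDl1)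
    · by_cases hvz : v = z
      · rw [hvz, κz]
        have : (MvPolynomial.X z - Dl - MvPolynomial.X z : PS k n) = -Dl := by ring
        rw [this, hwz]
        exact Submodule.neg_mem _ hDl1
      · rw [κo v hvi hvz, sub_self]
        exact Submodule.zero_mem _
  have KKi : KK i z h i = h := by
    unfold KK
    rw [Pi.sub_apply, Pi.single_eq_same, Pi.single_eq_of_ne hNi.symm, sub_zero]
  have KKz : KK i z h z = -(MvPolynomial.pderiv i h * MvPolynomial.X z) := by
    unfold KK
    rw [Pi.sub_apply, Pi.single_eq_same, Pi.single_eq_of_ne hNi, zero_sub]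
  have KKo : ∀ v, v ≠ i → v ≠ z → KK i z h v = 0 := by
    intro v h1 h2
    unfold KK
    rw [Pi.sub_apply, Pi.single_eq_of_ne h1, Pi.single_eq_of_ne h2, sub_zero]
  refine ⟨?_, ?_, ?_, κ * ro, ?_, ?_⟩
  · intro v
    by_cases hvi : v = i
    · subst hvi
      rw [KKi, hwi]
      exact hh
    · by_cases hvz : v = z
      · rw [hvz, KKz, hwz]
        exact Submodule.neg_mem _ (J0.mul hph hXz)
      · rw [KKo v hvi hvz]
        exact Submodule.zero_mem _
  · intro v
    by_cases hvi : v = i
    · rw [hvi, KKi]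
      exact hsup
    · by_cases hvz : v = z
      · rw [hvz, KKz]
        exact Subalgebra.neg_mem _ (Subalgebra.mul_mem _ hpsup (supp_X hzl))
      · rw [KKo v hvi hvz]
        exact Subalgebra.zero_mem _
  · intro v hv
    exact KKo v (fun e => hv (e ▸ hil)) (fun e => hv (e ▸ hzl))
  · rw [hκ]
    exact Subgroup.mul_mem _ (Subgroup.mul_mem _ (Subgroup.mul_mem _ (Subgroup.mul_mem _ hnuT homT)
      (Subgroup.inv_mem _ hnuT)) (Subgroup.inv_mem _ homT)) hroT
  · intro v
    rw [AlgEquiv.mul_apply]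
    by_cases hvi : v = i
    · subst hvi
      rw [ro3 _ hNi.symm, κi, KKi, hwi]
      have : (MvPolynomial.X v + h + Dl - MvPolynomial.X v - h : PS k n) = Dl := by ring
      rw [this]
      exact hDl1
    · by_cases hvz : v = z
      · rw [hvz, ro1, map_add, κz, KKz, hwz]
        have hp := (L0.pres hlev (r := w + w) (J0.mul hh hph :
            h * MvPolynomial.pderiv i h ∈ J k n (w + w))).2
        have : (MvPolynomial.X z - Dl + κ (h * MvPolynomial.pderiv i h) - MvPolynomial.X z
            - -(MvPolynomial.pderiv i h * MvPolynomial.X z) : PS k n)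
          = -(Dl - (MvPolynomial.X z + h) * MvPolynomial.pderiv i h) +
            (κ (h * MvPolynomial.pderiv i h) - h * MvPolynomial.pderiv i h) := by ring
        rw [this]
        exact Submodule.add_mem _ (Submodule.neg_mem _ hDT) (J0.mono (by omega) hp)
      · rw [ro3 v hvz, κo v hvi hvz, KKo v hvi hvz, sub_self, sub_zero]
        exact Submodule.zero_mem _

end Pool.AM
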