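import Pool.Agent.Work.MP_91aed7_un.Def

set_option autoImplicit false

open Finset

namespace Pool.AM

noncomputable section

/-- RL -/
theorem u_RL (hJ : Stmt_J) (hLV : Stmt_LV) (hT : S_TLL) : S_RL := by
  classical
  intro k _ n
  have JL := hJ k n
  have LV := hLV k n
  have T := hT k n
  have hlvl : ∀ {w : ℕ} {H : VF k n} {τ : PS k n ≃ₐ[k] PS k n}, (∀ v, H v ∈ J k n (w + wt v)) →
      (∀ v, τ (MvPolynomial.X v) - MvPolynomial.X v - H v ∈ J k n (w + wt v + 1)) → Lvl w τ := by
    intro w H τ h1 h2 v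
    have h3 : τ (MvPolynomial.X v) - MvPolynomial.X v =
        (τ (MvPolynomial.X v) - MvPolynomial.X v - H v) + H v := by ring
    rw [h3]
    exact Submodule.add_mem _ (JL.mono (by omega) (h2 v)) (h1 v)
  have hadd : ∀ {L w : ℕ} {H H' : VF k n}, 1 ≤ w → RealL L w H → RealL L w H' →
      RealL L w (H + H') := by
    intro L w H H' hw h h'
    obtain ⟨h1, hs, ho, τ, hτ, h2⟩ := h
    obtain ⟨h1', hs', ho', τ', hτ', h2'⟩ := h'
    refine ⟨fun v => Submodule.add_mem _ (h1 v) (h1' v),
      fun v => Subalgebra.add_mem _ (hs v) (hs' v),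
      fun v hv => by rw [Pi.add_apply, ho v hv, ho' v hv, add_zero], τ * τ',
      Subgroup.mul_mem _ hτ hτ', ?_⟩
    intro v
    have hL := hlvl h1 h2
    have hL' := hlvl h1' h2'
    have h3 := (LV.pres hL (hL' v)).2
    have h4 : (τ * τ') (MvPolynomial.X v) - MvPolynomial.X v - (H + H') v =
        (τ (τ' (MvPolynomial.X v) - MvPolynomial.X v) -
          (τ' (MvPolynomial.X v) - MvPolynomial.X v)) +
        (τ (MvPolynomial.X v) - MvPolynomial.X v - H v) +
        (τ' (MvPolynomial.X v) - MvPolynomial.X v - H' v) := by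
      rw [AlgEquiv.mul_apply, Pi.add_apply, map_sub]
      ring
    rw [h4]
    exact Submodule.add_mem _ (Submodule.add_mem _ (JL.mono (by omega) h3) (h2 v)) (h2' v)
  have hzero : ∀ L w : ℕ, RealL L w (0 : VF k n) := by
    intro L w
    refine ⟨fun v => Submodule.zero_mem _, fun v => Subalgebra.zero_mem _, fun v _ => rfl, 1,
      Subgroup.one_mem _, fun v => ?_⟩
    have h1 : (1 : PS k n ≃ₐ[k] PS k n) (MvPolynomial.X v) - MvPolynomial.X v - (0 : VF k n) v =
        0 := by
      rw [AlgEquiv.one_apply, Pi.zero_apply]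
      ring
    rw [h1]
    exact Submodule.zero_mem _
  refine ⟨hadd, ?_, hzero, ?_, ?_, ?_⟩
  · -- negatives
    intro L w H hw h
    obtain ⟨h1, hs, ho, τ, hτ, h2⟩ := h
    have hL := hlvl h1 h2
    refine ⟨fun v => Submodule.neg_mem _ (h1 v), fun v => Subalgebra.neg_mem _ (hs v),
      fun v hv => by rw [Pi.neg_apply, ho v hv, neg_zero], τ⁻¹, Subgroup.inv_mem _ hτ, ?_⟩
    intro v
    have hLi := LV.inv hw hL
    have h3 : τ (τ⁻¹ (MvPolynomial.X v)) = MvPolynomial.X v := τ.apply_symm_apply _
    have h4 := (LV.pres hL (hLi v)).2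
    have h5 : τ⁻¹ (MvPolynomial.X v) - MvPolynomial.X v - (-H) v =
        -((τ (τ⁻¹ (MvPolynomial.X v) - MvPolynomial.X v) -
          (τ⁻¹ (MvPolynomial.X v) - MvPolynomial.X v)) +
        (τ (MvPolynomial.X v) - MvPolynomial.X v - H v)) := by
      rw [map_sub, h3, Pi.neg_apply]
      ring
    rw [h5]
    exact Submodule.neg_mem _ (Submodule.add_mem _ (JL.mono (by omega) h4) (h2 v))
  · -- sums
    intro L w ι s F hw h
    induction s using Finset.induction_on with
    | empty => rw [Finset.sum_empty]; exact hzero L w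
    | insert a s ha ih =>
      rw [Finset.sum_insert ha]
      exact hadd hw (h a (Finset.mem_insert_self a s))
        (ih fun b hb => h b (Finset.mem_insert_of_mem hb))
  · -- congruence
    intro L w H H' h hs' ho' hc
    obtain ⟨h1, hs, ho, τ, hτ, h2⟩ := h
    refine ⟨fun v => ?_, hs', ho', τ, hτ, fun v => ?_⟩
    · have h3 : H' v = (H' v - H v) + H v := by ring
      rw [h3]
      exact Submodule.add_mem _ (JL.mono (by omega) (hc v)) (h1 v)
    · have h3 : τ (MvPolynomial.X v) - MvPolynomial.X v - H' v =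
          (τ (MvPolynomial.X v) - MvPolynomial.X v - H v) - (H' v - H v) := by ring
      rw [h3]
      exact Submodule.sub_mem _ (h2 v) (hc v)
  · -- elementary fields
    intro L w i f hi hfs hf hfJ
    obtain ⟨τ, hτ, h2, -, h3, -⟩ := T.el hi hfs hf
    refine ⟨fun v => ?_, fun v => ?_, fun v hv => ?_, τ, hτ, fun v => ?_⟩
    · by_cases hv : v = i
      · rw [hv, Pi.single_eq_same]; exact hfJ
      · rw [Pi.single_eq_of_ne hv]; exact Submodule.zero_mem _
    · by_cases hv : v = i
      · rw [hv, Pi.single_eq_same]; exact hfs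
      · rw [Pi.single_eq_of_ne hv]; exact Subalgebra.zero_mem _
    · have : v ≠ i := by rintro rfl; exact hv hi
      rw [Pi.single_eq_of_ne this]
    · by_cases hv : v = i
      · rw [hv, Pi.single_eq_same, h2]
        have : (MvPolynomial.X i : PS k n) + f - MvPolynomial.X i - f = 0 := by ring
        rw [this]; exact Submodule.zero_mem _
      · rw [Pi.single_eq_of_ne hv, h3 v hv]
        have : (MvPolynomial.X v : PS k n) - MvPolynomial.X v - 0 = 0 := by ring
        rw [this]; exact Submodule.zero_mem _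

end

end Pool.AM
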