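import Pool.Agent.Work.MP_91aed7_un.Def

/-!
# Block STL: the induction step
-/

set_option autoImplicit false

open Finset

namespace Pool.AM

noncomputable section

namespace USTL

variable {k : Type} [Field k] {n : ℕ}

theorem mem_low_iff {L : ℕ} (v : Vr n) : v ∈ low n L ↔ v ∈ lowF n L := by
  unfold low lowF
  rcases v with i | j
  · simp
  · simp

/-- the field `R`: all components except the last one -/
theorem exists_R [CharZero k] (hR : S_RL) (hX : S_CX) (hY : S_CY) {L w : ℕ} (hL : 2 ≤ L)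
    (hw : 1 ≤ w) (H : VF k n) (hJ : ∀ v, H v ∈ J k n (w + wt v))
    (hs : ∀ v, H v ∈ MvPolynomial.supported k (low n L)) (h0 : ∀ v ∉ low n L, H v = 0) :
    ∃ R : VF k n, RealL L w R ∧ ∀ v, v ≠ Sum.inr 0 → H v - R v = 0 := by
  classical
  have RL := hR k n
  have hA : ∀ i : Fin n, ∃ A : VF k n, RealL L w A ∧ A (Sum.inl i) = H (Sum.inl i) ∧
      ∀ i' : Fin n, i' ≠ i → A (Sum.inl i') = 0 :=
    fun i => hX k n L w i (H (Sum.inl i)) hL hw (hs _) (hJ (Sum.inl i))
  choose A hA1 hA2 hA3 using hA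
  have hAr : RealL L w (∑ i, A i) := RL.sum univ A hw fun i _ => hA1 i
  have hAi : ∀ i : Fin n, (∑ i, A i) (Sum.inl i) = H (Sum.inl i) := by
    intro i
    rw [Finset.sum_apply, Finset.sum_eq_single i, hA2]
    · intro b _ hb
      exact hA3 b i hb.symm
    · intro h
      exact absurd (mem_univ i) h
  have hB : ∀ j : ℕ, ∃ B : VF k n, RealL L w B ∧ (1 ≤ j → j < L →
      B (Sum.inr j) = H (Sum.inr j) - (∑ i, A i) (Sum.inr j)) ∧
      ∀ v : Vr n, v ≠ Sum.inr j → v ≠ Sum.inr 0 → B v = 0 := by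
    intro j
    by_cases h : 1 ≤ j ∧ j < L
    · obtain ⟨B, h1, h2, h3⟩ := hY k n L w j (H (Sum.inr j) - (∑ i, A i) (Sum.inr j)) h.1 h.2 hw
        (Subalgebra.sub_mem _ (hs _) (hAr.2.1 _))
        (Submodule.sub_mem _ (hJ (Sum.inr j)) (hAr.1 (Sum.inr j)))
      exact ⟨B, h1, fun _ _ => h2, h3⟩
    · refine ⟨0, RL.zero L w, fun h1 h2 => absurd ⟨h1, h2⟩ h, fun _ _ _ => rfl⟩
  choose B hB1 hB2 hB3 using hB
  have hBr : RealL L w (∑ j ∈ Ico 1 L, B j) := RL.sum _ B hw fun j _ => hB1 j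
  refine ⟨∑ i, A i + ∑ j ∈ Ico 1 L, B j, RL.add hw hAr hBr, ?_⟩
  intro v hv
  rw [Pi.add_apply]
  rcases v with i | j
  · have h1 : (∑ j ∈ Ico 1 L, B j) (Sum.inl i) = 0 := by
      rw [Finset.sum_apply]
      exact Finset.sum_eq_zero fun j _ => hB3 j _ (by simp) (by simp)
    rw [h1, hAi, add_zero, sub_self]
  · have hj : j ≠ 0 := fun h => hv (by rw [h])
    by_cases hjL : j < L
    · have h1 : (∑ j ∈ Ico 1 L, B j) (Sum.inr j) = H (Sum.inr j) - (∑ i, A i) (Sum.inr j) := by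
        rw [Finset.sum_apply, Finset.sum_eq_single j, hB2 j (by omega) hjL]
        · intro b _ hb
          exact hB3 b _ (fun h => hb (Sum.inr.inj h).symm) hv
        · intro h
          exact absurd (mem_Ico.2 ⟨by omega, hjL⟩) h
      rw [h1]
      ring
    · have h1 : (Sum.inr j : Vr n) ∉ low n L := fun h => hjL (h j rfl)
      rw [h0 _ h1, hAr.2.2.1 _ h1, hBr.2.2.1 _ h1]
      ring

end USTL

/-- **Block STL.** -/
theorem u_STL (hJ : Stmt_J) (hLV : Stmt_LV) (_hT : S_TLL) (hR : S_RL) (hRD : S_RD) (hD : Stmt_DIV)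
    (hX : S_CX) (hY : S_CY) (hG : S_G0) : S_STL := by
  classical
  intro k _ _ n L w θ hL hw hFL hLvl
  have JL := hJ k n
  have LV := hLV k n
  have RL := hR k n
  obtain ⟨H, hH⟩ : ∃ H : VF k n, ∀ v, H v = θ (MvPolynomial.X v) - MvPolynomial.X v :=
    ⟨fun v => θ (MvPolynomial.X v) - MvPolynomial.X v, fun _ => rfl⟩
  have hHJ : ∀ v, H v ∈ J k n (w + wt v) := fun v => by rw [hH]; exact hLvl v
  have hH0 : ∀ v ∉ low n L, H v = 0 := by
    intro v hv
    rw [hH, hFL.2 v hv, sub_self]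
  have hHs : ∀ v, H v ∈ MvPolynomial.supported k (low n L) := by
    intro v
    by_cases hv : v ∈ low n L
    · rw [hH]
      refine Subalgebra.sub_mem _ (hFL.1 v hv).1 ?_
      exact (MvPolynomial.X_mem_supported).2 hv
    · rw [hH0 v hv]
      exact Subalgebra.zero_mem _
  obtain ⟨R, hRr, hR0⟩ := USTL.exists_R hR hX hY hL hw H hHJ hHs hH0
  have hz : (Sum.inr 0 : Vr n) ∈ low n L := by
    intro j hj
    have := Sum.inr.inj hj
    omega
  have hzF : (Sum.inr 0 : Vr n) ∈ lowF n L := (USTL.mem_low_iff _).1 hz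
  -- the divergence
  have hdivH : ∑ v ∈ lowF n L, MvPolynomial.pderiv v (H v) ∈ J k n (w + 1) := by
    simp only [hH]
    exact hD k n L w θ hw hFL hLvl
  have hdivR := hRD k n L w R hw hRr
  have hder : MvPolynomial.pderiv (Sum.inr 0) (H (Sum.inr 0) - R (Sum.inr 0)) ∈ J k n (w + 1) := by
    have h1 : MvPolynomial.pderiv (Sum.inr 0) (H (Sum.inr 0) - R (Sum.inr 0)) =
        ∑ v ∈ lowF n L, MvPolynomial.pderiv v (H v) -
          ∑ v ∈ lowF n L, MvPolynomial.pderiv v (R v) := by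
      rw [← Finset.sum_sub_distrib, Finset.sum_eq_single (Sum.inr 0 : Vr n)]
      · rw [map_sub]
      · intro v _ hv
        rw [← map_sub, hR0 v hv, map_zero]
      · intro h
        exact absurd hzF h
    rw [h1]
    exact Submodule.sub_mem _ hdivH hdivR
  obtain ⟨f0, hf1, hf2, hf3, hf4⟩ := hG k n L w (H (Sum.inr 0) - R (Sum.inr 0))
    (Subalgebra.sub_mem _ (hHs _) (hRr.2.1 _))
    (Submodule.sub_mem _ (hHJ (Sum.inr 0)) (hRr.1 (Sum.inr 0))) hder
  have hE : RealL L w (Pi.single (Sum.inr 0) f0 : VF k n) := RL.el hz hf1 hf3 hf2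
  have hrealH : RealL L w H := by
    refine RL.congr (RL.add hw hRr hE) hHs hH0 fun v => ?_
    rw [Pi.add_apply, ← sub_sub]
    by_cases hv : v = Sum.inr 0
    · rw [hv, Pi.single_eq_same]
      exact hf4
    · rw [hR0 v hv, Pi.single_eq_of_ne hv, sub_zero]
      exact Submodule.zero_mem _
  obtain ⟨-, -, -, τ, hτ, hτH⟩ := hrealH
  have hdiff : ∀ v, θ (MvPolynomial.X v) - τ (MvPolynomial.X v) ∈ J k n (w + 1 + wt v) := by
    intro v
    have h1 := hτH v
    rw [hH] at h1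
    have h2 : θ (MvPolynomial.X v) - τ (MvPolynomial.X v) =
        -(τ (MvPolynomial.X v) - MvPolynomial.X v -
          (θ (MvPolynomial.X v) - MvPolynomial.X v)) := by ring
    rw [h2]
    have h3 : w + 1 + wt v = w + wt v + 1 := by omega
    rw [h3]
    exact Submodule.neg_mem _ h1
  have hτL : Lvl w τ := by
    intro v
    have h1 := JL.mono (show w + wt v ≤ w + 1 + wt v by omega) (hdiff v)
    have h2 : τ (MvPolynomial.X v) - MvPolynomial.X v = (θ (MvPolynomial.X v) - MvPolynomial.X v) -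
        (θ (MvPolynomial.X v) - τ (MvPolynomial.X v)) := by ring
    rw [h2]
    exact Submodule.sub_mem _ (hLvl v) h1
  refine ⟨τ, hτ, fun v => ?_⟩
  have h1 : τ⁻¹ (MvPolynomial.X v) ∈ J k n (wt v) := LV.presi hw hτL (JL.X_mem v)
  have h2 := JL.diff (θ : PS k n →ₐ[k] PS k n) (τ : PS k n →ₐ[k] PS k n) (w + 1)
    (fun u => (LV.pres hLvl (JL.X_mem u)).1) (fun u => (LV.pres hτL (JL.X_mem u)).1)
    (fun u => hdiff u) h1
  have h3 : τ (τ⁻¹ (MvPolynomial.X v)) = MvPolynomial.X v := τ.apply_symm_apply _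
  have h4 : (θ * τ⁻¹) (MvPolynomial.X v) - MvPolynomial.X v =
      (θ : PS k n →ₐ[k] PS k n) (τ⁻¹ (MvPolynomial.X v)) -
        (τ : PS k n →ₐ[k] PS k n) (τ⁻¹ (MvPolynomial.X v)) := by
    rw [AlgEquiv.mul_apply]
    have : (τ : PS k n →ₐ[k] PS k n) (τ⁻¹ (MvPolynomial.X v)) = MvPolynomial.X v := h3
    rw [this]
    rfl
  rw [h4]
  have h5 : w + 1 + wt v = wt v + (w + 1) := by omega
  rw [h5]
  exact h2

end

end Pool.AM
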