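import Pool.Agent.Work.MP_91aed7_un.Def
import Pool.Agent.Work.MP_91aed7_am_helper53.RK
import Pool.Agent.Work.MP_91aed7_am_helper60.FLL

/-!
# Block TLL: laws for the group `TL` (typed by helper53)
-/

set_option autoImplicit false

open Finset

namespace Pool.AM

namespace UTLL

variable {k : Type} [Field k] {n : ℕ}

theorem fl_one (L : ℕ) : FL L (1 : PS k n ≃ₐ[k] PS k n) :=
  ⟨fun _ hv => ⟨FLL_.X_mem hv, FLL_.X_mem hv⟩, fun _ _ => rfl⟩

theorem fl (F : FLLaws k n) {L : ℕ} {τ : PS k n ≃ₐ[k] PS k n} (hτ : τ ∈ TL k n L) : FL L τ := by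
  unfold TL at hτ
  induction hτ using Subgroup.closure_induction with
  | mem x hx => exact hx.2
  | one => exact fl_one L
  | mul x y hx hy h1 h2 => exact F.mul h1 h2
  | inv x hx h => exact F.inv h

theorem mono (F : FLLaws k n) {L L' : ℕ} (h : L ≤ L') : TL k n L ≤ TL k n L' :=
  Subgroup.closure_mono fun _ hτ => ⟨hτ.1, F.mono h hτ.2⟩

theorem tame (F : FLLaws k n) (τ : PS k n ≃ₐ[k] PS k n) (hτ : τ ∈ Tm k (Vr n)) :
    ∃ L, τ ∈ TL k n L := by
  unfold Tm at hτ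
  induction hτ using Subgroup.closure_induction with
  | mem x hx =>
    obtain ⟨L, hL⟩ := F.tame x (Subgroup.subset_closure hx)
    exact ⟨L, Subgroup.subset_closure ⟨hx, hL⟩⟩
  | one => exact ⟨0, one_mem _⟩
  | mul x y hx hy h1 h2 =>
    obtain ⟨L1, h1⟩ := h1
    obtain ⟨L2, h2⟩ := h2
    exact ⟨max L1 L2, mul_mem (mono F (le_max_left _ _) h1) (mono F (le_max_right _ _) h2)⟩
  | inv x hx h =>
    obtain ⟨L, hL⟩ := h
    exact ⟨L, inv_mem hL⟩

theorem el {L : ℕ} {i : Vr n} {f : PS k n} (hi : i ∈ low n L)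
    (hs : f ∈ MvPolynomial.supported k (low n L)) (hf : i ∉ f.vars) :
    ∃ τ ∈ TL k n L, τ (MvPolynomial.X i) = MvPolynomial.X i + f ∧
      τ⁻¹ (MvPolynomial.X i) = MvPolynomial.X i - f ∧
      (∀ v, v ≠ i → τ (MvPolynomial.X v) = MvPolynomial.X v) ∧
      (∀ v, v ≠ i → τ⁻¹ (MvPolynomial.X v) = MvPolynomial.X v) ∧
      (∀ g : PS k n, i ∉ g.vars → τ g = g) ∧ (∀ g : PS k n, i ∉ g.vars → τ⁻¹ g = g) := by
  obtain ⟨τ, _, h1, h2, h3, h4, h5, h6⟩ := RK_.exists_el (k := k) (n := n) hf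
  refine ⟨τ, Subgroup.subset_closure ⟨Or.inl ⟨i, f, hf, h1, h3⟩, ?_, ?_⟩, h1, h2, h3, h4, h5, h6⟩
  · intro v hv
    by_cases hvi : v = i
    · subst hvi
      refine ⟨?_, ?_⟩
      · rw [h1]
        exact add_mem (FLL_.X_mem hv) hs
      · have h7 : τ.symm (MvPolynomial.X v) = MvPolynomial.X v - f := h2
        rw [h7]
        exact sub_mem (FLL_.X_mem hv) hs
    · refine ⟨?_, ?_⟩
      · rw [h3 v hvi]
        exact FLL_.X_mem hv
      · have h7 : τ.symm (MvPolynomial.X v) = MvPolynomial.X v := h4 v hvi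
        rw [h7]
        exact FLL_.X_mem hv
  · intro v hv
    refine h3 v ?_
    rintro rfl
    exact hv hi

end UTLL

theorem u_TLL (hF : Stmt_FLL) : S_TLL := fun k _ n =>
  { fl := fun h => UTLL.fl (hF k n) h
    mono := fun h => UTLL.mono (hF k n) h
    tame := fun τ h => UTLL.tame (hF k n) τ h
    el := fun hi hs hf => UTLL.el hi hs hf }

end Pool.AM
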