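import Pool.Agent.Work.MP_91aed7_un.Def3

/-!
# Block Z1: scalings
-/

set_option autoImplicit false

open Finset

namespace Pool.AM

noncomputable section

namespace BZ1

variable {k : Type} [Field k] {n : ℕ}

theorem sc_X (j : ℕ) (c : k) (v : Vr n) : sc j c (MvPolynomial.X v : PS k n) =
    (if v = Sum.inr j then MvPolynomial.C c * MvPolynomial.X (Sum.inr j) else MvPolynomial.X v) := by
  classical
  unfold sc
  rw [MvPolynomial.aeval_X]

theorem sc_Xj (j : ℕ) (c : k) : sc j c (MvPolynomial.X (Sum.inr j) : PS k n) =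
    MvPolynomial.C c * MvPolynomial.X (Sum.inr j) := by
  rw [sc_X, if_pos rfl]

theorem sc_Xne (j : ℕ) (c : k) (v : Vr n) (h : v ≠ Sum.inr j) :
    sc j c (MvPolynomial.X v : PS k n) = MvPolynomial.X v := by
  rw [sc_X, if_neg h]

theorem sc_C (j : ℕ) (c a : k) : sc j c (MvPolynomial.C a : PS k n) = MvPolynomial.C a :=
  (sc j c).commutes a

theorem sc_sc (j : ℕ) (c d : k) (h : c * d = 1) :
    (sc j c : PS k n →ₐ[k] PS k n).comp (sc j d) = AlgHom.id k (PS k n) := by
  apply MvPolynomial.algHom_ext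
  intro v
  rw [AlgHom.comp_apply, AlgHom.id_apply]
  by_cases hv : v = Sum.inr j
  · rw [hv, sc_Xj, map_mul, sc_C, sc_Xj, ← mul_assoc, ← map_mul, mul_comm d c, h, map_one, one_mul]
  · rw [sc_Xne j d v hv, sc_Xne j c v hv]

/-- the scaling as an automorphism -/
def scE (j : ℕ) (c : k) (hc : c ≠ 0) : PS k n ≃ₐ[k] PS k n :=
  AlgEquiv.ofAlgHom (sc j c) (sc j c⁻¹) (sc_sc j c c⁻¹ (mul_inv_cancel₀ hc))
    (sc_sc j c⁻¹ c (inv_mul_cancel₀ hc))

theorem scE_apply (j : ℕ) (c : k) (hc : c ≠ 0) (f : PS k n) : scE j c hc f = sc j c f := rfl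

theorem scE_symm (j : ℕ) (c : k) (hc : c ≠ 0) (f : PS k n) : (scE j c hc).symm f = sc j c⁻¹ f := rfl

theorem X_supp {L : ℕ} {v : Vr n} (hv : v ∈ low n L) :
    (MvPolynomial.X v : PS k n) ∈ MvPolynomial.supported k (low n L) :=
  Algebra.subset_adjoin ⟨v, hv, rfl⟩

theorem scX_supp {L : ℕ} (j : ℕ) (c : k) {v : Vr n} (hv : v ∈ low n L) :
    sc j c (MvPolynomial.X v : PS k n) ∈ MvPolynomial.supported k (low n L) := by
  by_cases h : v = Sum.inr j
  · subst h
    rw [sc_Xj]
    exact mul_mem ((MvPolynomial.supported k (low n L)).algebraMap_mem c) (X_supp hv)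
  · rw [sc_Xne j c v h]
    exact X_supp hv

theorem sc_supp {L : ℕ} (j : ℕ) (c : k) (f : PS k n) (hf : f ∈ MvPolynomial.supported k (low n L)) :
    sc j c f ∈ MvPolynomial.supported k (low n L) := by
  have h : MvPolynomial.supported k (low n L) ≤
      (MvPolynomial.supported k (low n L)).comap (sc j c) := by
    refine Algebra.adjoin_le ?_
    rintro _ ⟨v, hv, rfl⟩
    exact scX_supp j c hv
  exact h hf

theorem sc_fix (j : ℕ) (c : k) (f : PS k n) (hf : (Sum.inr j : Vr n) ∉ f.vars) : sc j c f = f := by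
  have h1 : f ∈ MvPolynomial.supported k {v : Vr n | v ≠ Sum.inr j} := by
    rw [MvPolynomial.mem_supported]
    intro v hv h2
    exact hf (h2 ▸ hv)
  have h2 : MvPolynomial.supported k {v : Vr n | v ≠ Sum.inr j} ≤
      AlgHom.equalizer (sc j c) (AlgHom.id k (PS k n)) := by
    refine Algebra.adjoin_le ?_
    rintro _ ⟨v, hv, rfl⟩
    exact sc_Xne j c v hv
  exact h2 h1

theorem sc_mono (j : ℕ) (c : k) (m : Vr n →₀ ℕ) (a : k) :
    sc j c (MvPolynomial.monomial m a) = MvPolynomial.monomial m (c ^ m (Sum.inr j) * a) := by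
  classical
  unfold sc
  rw [MvPolynomial.aeval_monomial, MvPolynomial.monomial_eq, map_mul]
  have h1 : (m.prod fun i e => (if i = Sum.inr j then
      MvPolynomial.C c * MvPolynomial.X (Sum.inr j) else MvPolynomial.X i : PS k n) ^ e) =
      MvPolynomial.C (c ^ m (Sum.inr j)) * m.prod fun i e => (MvPolynomial.X i : PS k n) ^ e := by
    have h2 : ∀ i ∈ m.support, (if i = Sum.inr j then
        MvPolynomial.C c * MvPolynomial.X (Sum.inr j) else MvPolynomial.X i : PS k n) ^ m i =
        (if i = Sum.inr j then (MvPolynomial.C c : PS k n) ^ m i else 1) *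
          (MvPolynomial.X i : PS k n) ^ m i := by
      intro i _
      by_cases h : i = Sum.inr j
      · rw [if_pos h, if_pos h, mul_pow, h]
      · rw [if_neg h, if_neg h, one_mul]
    unfold Finsupp.prod
    rw [Finset.prod_congr rfl h2, Finset.prod_mul_distrib]
    congr 1
    rw [Finset.prod_ite_eq']
    by_cases h : (Sum.inr j : Vr n) ∈ m.support
    · rw [if_pos h, map_pow]
    · rw [if_neg h, Finsupp.notMem_support_iff.1 h, pow_zero, map_one]
  rw [h1]
  have h3 : algebraMap k (PS k n) a = MvPolynomial.C a := rfl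
  rw [h3]
  ring

theorem sc_coeff (j : ℕ) (c : k) (f : PS k n) (m : Vr n →₀ ℕ) :
    MvPolynomial.coeff m (sc j c f) = c ^ m (Sum.inr j) * MvPolynomial.coeff m f := by
  classical
  induction f using MvPolynomial.induction_on' with
  | monomial u a =>
    rw [sc_mono, MvPolynomial.coeff_monomial, MvPolynomial.coeff_monomial]
    by_cases h : u = m
    · rw [if_pos h, if_pos h, h]
    · rw [if_neg h, if_neg h, mul_zero]
  | add p q hp hq =>
    rw [map_add, MvPolynomial.coeff_add, MvPolynomial.coeff_add, hp, hq, mul_add]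

theorem sc_J (j : ℕ) (c : k) (r : ℕ) (f : PS k n) (hf : f ∈ J k n r) : sc j c f ∈ J k n r := by
  intro m hm
  apply hf m
  rw [MvPolynomial.mem_support_iff] at hm ⊢
  intro h
  rw [sc_coeff, h, mul_zero] at hm
  exact hm rfl

end BZ1

open BZ1 in
theorem u_Z1 : S_Z1 := by
  intro k _ n L j c hj hc
  have hlow : (Sum.inr j : Vr n) ∈ low n L := by
    intro i hi
    rw [← Sum.inr.inj hi]
    exact hj
  refine ⟨⟨scE j c hc, ?_, fun f => rfl, fun f => rfl⟩, sc_J j c, sc_supp j c, sc_fix j c⟩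
  refine Subgroup.subset_closure ⟨Or.inr ⟨Sum.inr j, c, hc, ?_, ?_⟩, ?_, ?_⟩
  · rw [scE_apply, sc_Xj]
  · intro v hv
    rw [scE_apply, sc_Xne j c v hv]
  · intro v hv
    exact ⟨scX_supp j c hv, scX_supp j c⁻¹ hv⟩
  · intro v hv
    rw [scE_apply]
    exact sc_Xne j c v (fun h => hv (h ▸ hlow))

end

end Pool.AM
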