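import Pool.Agent.Work.MP_91aed7_un.Def3
import Pool.Agent.Work.MP_91aed7_am_helper51.STEP

/-!
# Block Z10: invariant fields of divergence zero are realizable
-/

set_option autoImplicit false

open Finset

namespace Pool.AM

noncomputable section

namespace Z10_

variable {k : Type} [Field k] {n : ℕ}

theorem prt_mem {j e : ℕ} {f : PS k n} (h : prt j e f = f) :
    ∀ m ∈ f.support, m (Sum.inr j) = e := by
  classical
  intro m hm
  by_contra hne
  have h1 : MvPolynomial.coeff m (prt j e f) = 0 := by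
    unfold prt
    rw [MvPolynomial.coeff_sum]
    refine Finset.sum_eq_zero fun m' hm' => ?_
    rw [MvPolynomial.coeff_monomial, if_neg]
    rintro rfl
    exact hne (Finset.mem_filter.1 hm').2
  rw [h] at h1
  exact (MvPolynomial.mem_support_iff.1 hm) h1

theorem vars_low {l : ℕ} {f : PS k n} (hf : ∀ m ∈ f.support, ∀ u ∈ m.support, u ∈ low n (l + 3))
    (h0 : ∀ m ∈ f.support, m (Sum.inr l) = 0) (h1 : ∀ m ∈ f.support, m (Sum.inr (l + 1)) = 0)
    (h2 : ∀ m ∈ f.support, m (Sum.inr (l + 2)) = 0) : ∀ u ∈ f.vars, u ∈ low n l := by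
  intro u hu
  obtain ⟨m, hm, hum⟩ := MvPolynomial.mem_vars _ |>.1 hu
  rintro j rfl
  have h3 := hf m hm _ hum j rfl
  have h4 : m (Sum.inr j) ≠ 0 := Finsupp.mem_support_iff.1 hum
  have h5 : j ≠ l := by rintro rfl; exact h4 (h0 m hm)
  have h6 : j ≠ l + 1 := by rintro rfl; exact h4 (h1 m hm)
  have h7 : j ≠ l + 2 := by rintro rfl; exact h4 (h2 m hm)
  omega

theorem supp_low {L : ℕ} {f : PS k n} (hf : f ∈ MvPolynomial.supported k (low n L)) :
    ∀ m ∈ f.support, ∀ u ∈ m.support, u ∈ low n L := by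
  intro m hm u hu
  exact MvPolynomial.mem_supported.1 hf (Finset.mem_coe.2 (MvPolynomial.mem_vars _ |>.2 ⟨m, hm, hu⟩))

/-- the components along the three new variables -/
theorem comp {f : PS k n} {z : Vr n} (hz : ∀ m ∈ f.support, m z = 1) :
    ∃ c : PS k n, f = c * MvPolynomial.X z ∧ ∀ m ∈ c.support, m + Finsupp.single z 1 ∈ f.support := by
  classical
  have hmod : f.modMonomial (Finsupp.single z 1) = 0 := by
    ext m
    rw [MvPolynomial.coeff_zero]
    by_cases hle : Finsupp.single z 1 ≤ m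
    · exact MvPolynomial.coeff_modMonomial_of_le f hle
    · rw [MvPolynomial.coeff_modMonomial_of_not_le f hle]
      by_contra hne
      have hm := hz m (MvPolynomial.mem_support_iff.2 hne)
      apply hle
      rw [Finsupp.single_le_iff, hm]
  refine ⟨f.divMonomial (Finsupp.single z 1), ?_, ?_⟩
  · have h1 := MvPolynomial.divMonomial_add_modMonomial_single f z
    rw [hmod, add_zero] at h1
    rw [mul_comm]
    exact h1.symm
  · intro m hm
    rw [MvPolynomial.mem_support_iff, MvPolynomial.coeff_divMonomial] at hm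
    rw [MvPolynomial.mem_support_iff, add_comm]
    exact hm

/-- `E (inr j) = c_j X_j`, `c_j` free of the three new variables -/
theorem comp_low {l j : ℕ} {f : PS k n} (hj : j = l ∨ j = l + 1 ∨ j = l + 2)
    (hf : f ∈ MvPolynomial.supported k (low n (l + 3)))
    (hz : ∀ i, (i = l ∨ i = l + 1 ∨ i = l + 2) → ∀ m ∈ f.support,
      m (Sum.inr i) = if i = j then 1 else 0) :
    ∃ c : PS k n, (∀ v ∈ c.vars, v ∈ low n l) ∧ f = c * MvPolynomial.X (Sum.inr j) := by
  classical
  obtain ⟨c, hc, hcm⟩ := comp (z := Sum.inr j) (f := f) (fun m hm => by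
    rw [hz j hj m hm, if_pos rfl])
  have hex : ∀ i, (i = l ∨ i = l + 1 ∨ i = l + 2) → ∀ m ∈ c.support, m (Sum.inr i) = 0 := by
    intro i hi m hm
    have h1 := hz i hi _ (hcm m hm)
    rw [Finsupp.add_apply, Finsupp.single_apply] at h1
    by_cases hij : i = j
    · subst hij
      simp only [if_true] at h1
      omega
    · have h2 : ¬ (Sum.inr j : Vr n) = Sum.inr i := fun h => hij (Sum.inr.inj h).symm
      rw [if_neg h2, if_neg hij] at h1
      omega
  refine ⟨c, vars_low ?_ (hex l (Or.inl rfl)) (hex (l + 1) (Or.inr (Or.inl rfl)))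
    (hex (l + 2) (Or.inr (Or.inr rfl))), hc⟩
  intro m hm u hu
  refine supp_low hf _ (hcm m hm) u ?_
  rw [Finsupp.mem_support_iff, Finsupp.add_apply]
  have := Finsupp.mem_support_iff.1 hu
  omega

end Z10_

/-- Block Z10. -/
theorem u_Z10 (hJ : Stmt_J) (hR : S_RL) (h9 : S_Z9) : S_Z10 := by
  classical
  intro k _ n l w E hw hE hp0 hp1 hp2 hdiv
  have JL := hJ k n
  have RL := hR k n
  obtain ⟨hEJ, hEs, hE0⟩ := hE
  have hexp : ∀ i, (i = l ∨ i = l + 1 ∨ i = l + 2) → ∀ v, ∀ m ∈ (E v).support,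
      m (Sum.inr i) = if v = Sum.inr i then 1 else 0 := by
    intro i hi v
    have hp : pj i E = E := by
      rcases hi with rfl | rfl | rfl
      · exact hp0
      · exact hp1
      · exact hp2
    exact Z10_.prt_mem (congrFun hp v)
  -- the components
  have hnew : ∀ j, (j = l ∨ j = l + 1 ∨ j = l + 2) →
      ∃ c : PS k n, (∀ v ∈ c.vars, v ∈ low n l) ∧
        E (Sum.inr j) = c * MvPolynomial.X (Sum.inr j) := by
    intro j hj
    refine Z10_.comp_low hj (hEs _) ?_
    intro i hi m hm
    rw [hexp i hi _ m hm]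
    by_cases hij : i = j
    · rw [if_pos hij, if_pos (by rw [hij])]
    · rw [if_neg hij, if_neg (fun h => hij (Sum.inr.inj h).symm)]
  have hold : ∀ v ∈ low n l, ∀ u ∈ (E v).vars, u ∈ low n l := by
    intro v hv
    have hne : ∀ i, l ≤ i → v ≠ Sum.inr i := by
      rintro i hi rfl
      have := hv i rfl
      omega
    refine Z10_.vars_low (Z10_.supp_low (hEs v)) ?_ ?_ ?_
    · intro m hm
      rw [hexp l (Or.inl rfl) v m hm, if_neg (hne l le_rfl)]
    · intro m hm
      rw [hexp (l + 1) (Or.inr (Or.inl rfl)) v m hm, if_neg (hne (l + 1) (by omega))]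
    · intro m hm
      rw [hexp (l + 2) (Or.inr (Or.inr rfl)) v m hm, if_neg (hne (l + 2) (by omega))]
  have hlow : ∀ v : Vr n, v ∈ low n (l + 3) → v ∈ low n l ∨ ∃ j, (j = l ∨ j = l + 1 ∨ j = l + 2) ∧
      v = Sum.inr j := by
    intro v hv
    by_cases h : v ∈ low n l
    · exact Or.inl h
    · right
      unfold low at h
      simp only [Set.mem_setOf_eq, not_forall] at h
      obtain ⟨j, hj, hjl⟩ := h
      have := hv j hj
      exact ⟨j, by omega, hj⟩
  have hreal : ∀ v ∈ lowF n (l + 3), RealL (l + 3) w (KK v (Sum.inr l) (E v)) := by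
    intro v hv
    have hvl : v ∈ low n (l + 3) := (STEP_.mem_low_iff v).2 hv
    by_cases hvz : v = Sum.inr l
    · obtain ⟨c, hc, hcE⟩ := hnew l (Or.inl rfl)
      have h1 : KK v (Sum.inr l) (E v) = 0 := by
        have h2 : (Sum.inr l : Vr n) ∉ c.vars := by
          intro h3
          exact lt_irrefl l (hc _ h3 l rfl)
        have h4 : MvPolynomial.pderiv (Sum.inr l : Vr n) c = 0 :=
          MvPolynomial.pderiv_eq_zero_of_notMem_vars h2
        rw [hvz]
        unfold KK
        rw [hcE, Derivation.leibniz, h4, MvPolynomial.pderiv_X_self]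
        simp
      rw [h1]
      exact RL.zero _ _
    · refine h9 k n l w v (E v) hw hvl hvz ?_ (hEJ v)
      rcases hlow v hvl with h | ⟨j, hj, rfl⟩
      · exact Or.inl ⟨hold v h, h⟩
      · obtain ⟨c, hc, hcE⟩ := hnew j hj
        refine Or.inr ⟨c, hc, hcE, ?_⟩
        intro h
        have := h j rfl
        omega
  have hsum : RealL (l + 3) w (∑ v ∈ lowF n (l + 3), KK v (Sum.inr l) (E v)) :=
    RL.sum _ _ hw hreal
  refine RL.congr hsum hEs hE0 fun u => ?_
  rw [STEP_.sum_KK E (lowF n (l + 3)) (Sum.inr l)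
    (fun v hv => hE0 v (fun h => hv ((STEP_.mem_low_iff v).1 h))) u]
  by_cases hu : u = Sum.inr l
  · rw [if_pos hu, hu]
    have h2 := JL.mul hdiv (JL.X_mem (Sum.inr l : Vr n))
    have h3 : w + wt (Sum.inr l : Vr n) + 1 = w + 1 + wt (Sum.inr l : Vr n) := by omega
    rw [h3]
    exact h2
  · rw [if_neg hu]
    exact Submodule.zero_mem _

end

end Pool.AM
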