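import Pool.Agent.Work.MP_91aed7_un.Def3

/-!
# Block Z11: the step over infinite fields
-/

set_option autoImplicit false

open Finset

namespace Pool.AM

noncomputable section

namespace UZ11

variable {k : Type} [Field k] {n : ℕ}

/-- the property which survives the averages -/
def Q (L l w : ℕ) (E E' : VF k n) : Prop :=
  EV L w E' ∧ RealL L w (E - E') ∧
    ∀ j, l ≤ j → j < L → ∀ c : k, c ≠ 0 → RealL L w (E' - dl j c E')

theorem Q_pj [Infinite k] (hR : S_RL) (h2 : S_Z2) (h6 : S_Z6) (hP : S_ZP) {L l w i : ℕ}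
    (hw : 1 ≤ w) (hl : l ≤ i) (hi : i < L) {E E' : VF k n} (h : Q L l w E E') :
    Q L l w E (pj i E') := by
  have RL := hR k n
  obtain ⟨-, -, hP3, hP4⟩ := hP k n
  obtain ⟨hv, hr, hd⟩ := h
  have hA : RealL L w (E' - pj i E') := h6 k n L w i E' hw hi hv (hd i hl hi)
  refine ⟨hP3 L w i E' hv, ?_, ?_⟩
  · have h1 : E - pj i E' = (E - E') + (E' - pj i E') := by abel
    rw [h1]
    exact RL.add hw hr hA
  · intro j hlj hj c hc
    have hB : RealL L w (dl j c (E' - pj i E')) := h2 k n L w j c _ hw hj hc hA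
    have h1 : pj i E' - dl j c (pj i E') =
        (E' - dl j c E') + (-(E' - pj i E') + dl j c (E' - pj i E')) := by
      rw [hP4]
      abel
    rw [h1]
    exact RL.add hw (hd j hlj hj c hc) (RL.add hw (RL.neg hw hA) hB)

/-- from a realization of the error field to the next level -/
theorem last (hJ : Stmt_J) (hLV : Stmt_LV) {L w : ℕ} (hw : 1 ≤ w) {θ : PS k n ≃ₐ[k] PS k n}
    (hLvl : Lvl w θ)
    (hrealH : RealL L w (fun v => θ (MvPolynomial.X v) - MvPolynomial.X v)) :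
    ∃ τ ∈ TL k n L, Lvl (w + 1) (θ * τ⁻¹) := by
  have JL := hJ k n
  have LV := hLV k n
  obtain ⟨-, -, -, τ, hτ, hτH⟩ := hrealH
  have hdiff : ∀ v, θ (MvPolynomial.X v) - τ (MvPolynomial.X v) ∈ J k n (w + 1 + wt v) := by
    intro v
    have h1 := hτH v
    have h2 : θ (MvPolynomial.X v) - τ (MvPolynomial.X v) =
        -(τ (MvPolynomial.X v) - MvPolynomial.X v -
          (θ (MvPolynomial.X v) - MvPolynomial.X v)) := by ring
    rw [h2]
    have h3 : w + 1 + wt v = w + wt v + 1 := by omega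
    rw [h3]
    exact Submodule.neg_mem _ h1
  have hτL : Lvl w τ := by
    intro v
    have h1 := JL.mono (show w + wt v ≤ w + 1 + wt v by omega) (hdiff v)
    have h2 : τ (MvPolynomial.X v) - MvPolynomial.X v = (θ (MvPolynomial.X v) - MvPolynomial.X v) -
        (θ (MvPolynomial.X v) - τ (MvPolynomial.X v)) := by ring
    rw [h2]
    exact Submodule.sub_mem _ (hLvl v) h1
  refine ⟨τ, hτ, fun v => ?_⟩
  have h1 : τ⁻¹ (MvPolynomial.X v) ∈ J k n (wt v) := LV.presi hw hτL (JL.X_mem v)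
  have h2 := JL.diff (θ : PS k n →ₐ[k] PS k n) (τ : PS k n →ₐ[k] PS k n) (w + 1)
    (fun u => (LV.pres hLvl (JL.X_mem u)).1) (fun u => (LV.pres hτL (JL.X_mem u)).1)
    (fun u => hdiff u) h1
  have h3 : τ (τ⁻¹ (MvPolynomial.X v)) = MvPolynomial.X v := τ.apply_symm_apply _
  have h4 : (θ * τ⁻¹) (MvPolynomial.X v) - MvPolynomial.X v =
      (θ : PS k n →ₐ[k] PS k n) (τ⁻¹ (MvPolynomial.X v)) -
        (τ : PS k n →ₐ[k] PS k n) (τ⁻¹ (MvPolynomial.X v)) := by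
    rw [AlgEquiv.mul_apply]
    have : (τ : PS k n →ₐ[k] PS k n) (τ⁻¹ (MvPolynomial.X v)) = MvPolynomial.X v := h3
    rw [this]
    rfl
  rw [h4]
  have h5 : w + 1 + wt v = wt v + (w + 1) := by omega
  rw [h5]
  exact h2

end UZ11

/-- **Block Z11.** -/
theorem u_Z11 (hJ : Stmt_J) (hLV : Stmt_LV) (hF : Stmt_FLL) (hT : S_TLL) (hR : S_RL)
    (hRD : S_RD) (hD : Stmt_DIV) (h2 : S_Z2) (h3 : S_Z3) (h6 : S_Z6) (h10 : S_Z10)
    (hP : S_ZP) : S_Z11 := by
  intro k _ _ n l w θ τ hw hθ hτ hLvl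
  have RL := hR k n
  have FLk := hF k n
  have TLk := hT k n
  obtain ⟨hP1, hP2, hP3, -⟩ := hP k n
  have hΘ : FL (l + 3) (θ * τ⁻¹) :=
    FLk.mul (FLk.mono (by omega) hθ) (FLk.inv (TLk.fl hτ))
  obtain ⟨E, hE⟩ : ∃ E : VF k n,
      E = fun v => (θ * τ⁻¹) (MvPolynomial.X v) - MvPolynomial.X v := ⟨_, rfl⟩
  have hE0 : ∀ v ∉ low n (l + 3), E v = 0 := by
    intro v hv
    rw [hE]
    show (θ * τ⁻¹) (MvPolynomial.X v) - MvPolynomial.X v = 0
    rw [hΘ.2 v hv, sub_self]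
  have hEV : EV (l + 3) w E := by
    refine ⟨fun v => ?_, fun v => ?_, hE0⟩
    · rw [hE]
      exact hLvl v
    · by_cases hv : v ∈ low n (l + 3)
      · rw [hE]
        refine Subalgebra.sub_mem _ (hΘ.1 v hv).1 ?_
        exact (MvPolynomial.X_mem_supported).2 hv
      · rw [hE0 v hv]
        exact Subalgebra.zero_mem _
  have hQ0 : UZ11.Q (l + 3) l w E E := by
    refine ⟨hEV, ?_, ?_⟩
    · rw [sub_self]
      exact RL.zero _ _
    · intro j hlj hj c hc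
      rw [hE]
      exact h3 k n l (l + 3) w j c θ τ hw hlj hj hc hθ hτ hLvl
  have hQ1 := UZ11.Q_pj hR h2 h6 hP hw (le_refl l) (show l < l + 3 by omega) hQ0
  have hQ2 := UZ11.Q_pj hR h2 h6 hP hw (show l ≤ l + 1 by omega) (show l + 1 < l + 3 by omega) hQ1
  have hQ3 := UZ11.Q_pj hR h2 h6 hP hw (show l ≤ l + 2 by omega) (show l + 2 < l + 3 by omega) hQ2
  obtain ⟨E3, hE3⟩ : ∃ E3 : VF k n, E3 = pj (l + 2) (pj (l + 1) (pj l E)) := ⟨_, rfl⟩
  rw [← hE3] at hQ3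
  have i0 : pj l E3 = E3 := by
    rw [hE3, hP2 l (l + 2), hP2 l (l + 1), hP1]
  have i1 : pj (l + 1) E3 = E3 := by
    rw [hE3, hP2 (l + 1) (l + 2), hP1]
  have i2 : pj (l + 2) E3 = E3 := by
    rw [hE3, hP1]
  have hdivE : ∑ v ∈ lowF n (l + 3), MvPolynomial.pderiv v (E v) ∈ J k n (w + 1) := by
    rw [hE]
    exact hD k n (l + 3) w (θ * τ⁻¹) hw hΘ hLvl
  have hdivR := hRD k n (l + 3) w (E - E3) hw hQ3.2.1
  have hdiv3 : ∑ v ∈ lowF n (l + 3), MvPolynomial.pderiv v (E3 v) ∈ J k n (w + 1) := by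
    have h1 : ∑ v ∈ lowF n (l + 3), MvPolynomial.pderiv v (E3 v) =
        ∑ v ∈ lowF n (l + 3), MvPolynomial.pderiv v (E v) -
          ∑ v ∈ lowF n (l + 3), MvPolynomial.pderiv v ((E - E3) v) := by
      rw [← Finset.sum_sub_distrib]
      refine Finset.sum_congr rfl fun v _ => ?_
      rw [Pi.sub_apply, map_sub]
      ring
    rw [h1]
    exact Submodule.sub_mem _ hdivE hdivR
  have hreal3 : RealL (l + 3) w E3 := h10 k n l w E3 hw hQ3.1 i0 i1 i2 hdiv3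
  have hreal : RealL (l + 3) w E := by
    have h1 : E = (E - E3) + E3 := by abel
    rw [h1]
    exact RL.add hw hQ3.2.1 hreal3
  rw [hE] at hreal
  obtain ⟨σ, hσ, hσL⟩ := UZ11.last hJ hLV hw hLvl hreal
  refine ⟨σ * τ, Subgroup.mul_mem _ hσ hτ, ?_⟩
  have h1 : θ * (σ * τ)⁻¹ = θ * τ⁻¹ * σ⁻¹ := by
    rw [mul_inv_rev, mul_assoc]
  rw [h1]
  exact hσL

end

end Pool.AM
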