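import Pool.Agent.Work.MP_91aed7_un.Def3

set_option autoImplicit false

namespace Pool.AM

theorem u_Z12 (h11 : S_Z11) : S_Z12 := by
  intro k _ _ n l w θ hw hF h1
  induction w, hw using Nat.le_induction with
  | base =>
    refine ⟨1, Subgroup.one_mem _, ?_⟩
    rw [inv_one, mul_one]
    exact h1
  | succ w hw ih =>
    obtain ⟨τ, h2, h3⟩ := ih
    exact h11 k n l w θ τ hw hF h2 h3

end Pool.AM
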