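import Pool.Agent.Work.MP_91aed7_un.Def3

/-!
# Block Z2: conjugation with scalings (helper63)
-/

set_option autoImplicit false

open Finset

namespace Pool.AM

noncomputable section

namespace UZ2

variable {k : Type} [Field k] {n : ℕ}

theorem sc_self (j : ℕ) (c : k) : sc (n := n) j c (MvPolynomial.X (Sum.inr j)) =
    MvPolynomial.C c * MvPolynomial.X (Sum.inr j) := by
  simp [sc]

theorem sc_of_ne (j : ℕ) (c : k) {v : Vr n} (h : v ≠ Sum.inr j) :
    sc (n := n) j c (MvPolynomial.X v) = MvPolynomial.X v := by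
  simp [sc, h]

end UZ2

open Classical in
theorem u_Z2 (_hJ : Stmt_J) (_hT : S_TLL) (h1 : S_Z1) : S_Z2 := by
  intro k _ n L w j c H hw hjL hc hH
  obtain ⟨hH1, hH2, hH3, τ, hτ, hτ2⟩ := hH
  obtain ⟨⟨δ, hδ, hδ1, hδ2⟩, hZJ, hZS, -⟩ := h1 k n L j c hjL hc
  have hjl : (Sum.inr j : Vr n) ∈ low n L := by
    intro j' hj'
    have : j = j' := Sum.inr.inj hj'
    omega
  refine ⟨?_, ?_, ?_, δ * τ * δ⁻¹, ?_, ?_⟩
  · intro v
    by_cases h : v = Sum.inr j
    · subst h
      simp only [dl, if_true]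
      rw [← MvPolynomial.smul_eq_C_mul]
      exact Submodule.smul_mem _ _ (hZJ _ _ (hH1 _))
    · simp only [dl, if_neg h]
      exact hZJ _ _ (hH1 v)
  · intro v
    by_cases h : v = Sum.inr j
    · subst h
      simp only [dl, if_true]
      rw [← MvPolynomial.smul_eq_C_mul]
      exact Subalgebra.smul_mem _ (hZS _ (hH2 _)) _
    · simp only [dl, if_neg h]
      exact hZS _ (hH2 v)
  · intro v hv
    have h : v ≠ Sum.inr j := by
      rintro rfl
      exact hv hjl
    simp only [dl, if_neg h]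
    rw [hH3 v hv, map_zero]
  · exact Subgroup.mul_mem _ (Subgroup.mul_mem _ hδ hτ) (Subgroup.inv_mem _ hδ)
  · intro v
    change δ (τ (δ⁻¹ (MvPolynomial.X v))) - MvPolynomial.X v - _ ∈ _
    have h2 : ∀ c : k, τ (MvPolynomial.C c) = MvPolynomial.C c := fun c => τ.commutes c
    have h3 : ∀ d : k, sc (n := n) j c (MvPolynomial.C d) = MvPolynomial.C d := fun d =>
      (sc (n := n) j c).commutes d
    by_cases h : v = Sum.inr j
    · subst h
      simp only [dl, if_true]
      have h4 : (MvPolynomial.C c⁻¹ * MvPolynomial.C c : PS k n) = 1 := by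
        rw [← MvPolynomial.C_mul, inv_mul_cancel₀ hc, MvPolynomial.C_1]
      have h5 : δ (τ (δ⁻¹ (MvPolynomial.X (Sum.inr j)))) - MvPolynomial.X (Sum.inr j)
          - MvPolynomial.C c⁻¹ * sc j c (H (Sum.inr j))
          = MvPolynomial.C c⁻¹ * sc j c (τ (MvPolynomial.X (Sum.inr j))
            - MvPolynomial.X (Sum.inr j) - H (Sum.inr j)) := by
        rw [hδ2, hδ1, UZ2.sc_self]
        simp only [map_sub, map_mul, h2, h3, UZ2.sc_self]
        linear_combination (MvPolynomial.X (Sum.inr j) : PS k n) * h4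
      rw [h5, ← MvPolynomial.smul_eq_C_mul]
      exact Submodule.smul_mem _ _ (hZJ _ _ (hτ2 _))
    · simp only [dl, if_neg h]
      have h5 : δ (τ (δ⁻¹ (MvPolynomial.X v))) - MvPolynomial.X v - sc j c (H v)
          = sc j c (τ (MvPolynomial.X v) - MvPolynomial.X v - H v) := by
        rw [hδ2, hδ1, UZ2.sc_of_ne j c⁻¹ h]
        simp only [map_sub, UZ2.sc_of_ne j c h]
      rw [h5]
      exact hZJ _ _ (hτ2 v)

end

end Pool.AM
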