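import Pool.Agent.Work.MP_91aed7_un.Def3

/-!
# Block Z3: the error field of an approximation is invariant up to realizable fields
-/

set_option autoImplicit false

open Finset

namespace Pool.AM

noncomputable section

namespace UZ3

variable {k : Type} [Field k] {n : ℕ}

theorem sc_self (j : ℕ) (c : k) : sc (n := n) j c (MvPolynomial.X (Sum.inr j)) =
    MvPolynomial.C c * MvPolynomial.X (Sum.inr j) := by
  simp [sc]

theorem sc_of_ne (j : ℕ) (c : k) {v : Vr n} (h : v ≠ Sum.inr j) :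
    sc (n := n) j c (MvPolynomial.X v) = MvPolynomial.X v := by
  simp [sc, h]

end UZ3

theorem u_Z3 (hJ : Stmt_J) (hLV : Stmt_LV) (hF : Stmt_FLL) (hT : S_TLL) (h1 : S_Z1) : S_Z3 := by
  intro k _ n l L w j c θ τ hw hlj hjL hc hθ hτ hK
  have J0 := hJ k n
  have V0 := hLV k n
  have F0 := hF k n
  obtain ⟨⟨δ, hδ, hδ1, hδ2⟩, hscJ, hscS, hscV⟩ := h1 k n L j c hjL hc
  have hci : c⁻¹ ≠ 0 := inv_ne_zero hc
  obtain ⟨-, -, -, hscV'⟩ := h1 k n L j c⁻¹ hjL hci
  set K : PS k n ≃ₐ[k] PS k n := θ * τ⁻¹ with hKdef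
  set E : VF k n := fun v => K (MvPolynomial.X v) - MvPolynomial.X v with hE
  have hjl : (Sum.inr j : Vr n) ∉ low n l := by
    intro h
    have := h j rfl
    omega
  have hjlow : (Sum.inr j : Vr n) ∈ low n L := by
    intro j' hj'
    have : j = j' := Sum.inr.inj hj'
    omega
  -- `θ` commutes with `δ`
  have hcomm : ∀ f : PS k n, δ (θ f) = θ (δ f) := by
    have h2 : ((δ * θ : PS k n ≃ₐ[k] PS k n) : PS k n →ₐ[k] PS k n)
        = ((θ * δ : PS k n ≃ₐ[k] PS k n) : PS k n →ₐ[k] PS k n) := by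
      refine MvPolynomial.algHom_ext fun v => ?_
      change δ (θ (MvPolynomial.X v)) = θ (δ (MvPolynomial.X v))
      by_cases hv : v ∈ low n l
      · have hvj : v ≠ Sum.inr j := by
          rintro rfl
          exact hjl hv
        have h3 := (hθ.1 v hv).1
        have h4 : (Sum.inr j : Vr n) ∉ (θ (MvPolynomial.X v)).vars := by
          intro h5
          exact hjl (MvPolynomial.mem_supported.1 h3 (Finset.mem_coe.2 h5))
        rw [hδ1, hscV _ h4, hδ1, UZ3.sc_of_ne j c hvj]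
      · rw [hθ.2 v hv]
        by_cases hvj : v = Sum.inr j
        · subst hvj
          rw [hδ1, UZ3.sc_self, map_mul, hθ.2 _ hv]
          congr 1
          exact (θ.commutes c).symm
        · rw [hδ1, UZ3.sc_of_ne j c hvj, hθ.2 v hv]
    intro f
    exact DFunLike.congr_fun h2 f
  set Kc : PS k n ≃ₐ[k] PS k n := δ * K * δ⁻¹ with hKc
  -- the field of `Kc`
  have hKcE : ∀ v, Kc (MvPolynomial.X v) - MvPolynomial.X v = dl j c E v := by
    intro v
    change δ (K (δ⁻¹ (MvPolynomial.X v))) - MvPolynomial.X v = dl j c E v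
    unfold dl
    by_cases hvj : v = Sum.inr j
    · subst hvj
      rw [if_pos rfl, hδ2, UZ3.sc_self, map_mul]
      have h3 : ∀ a : k, K (MvPolynomial.C a) = MvPolynomial.C a := fun a => K.commutes a
      have h4 : ∀ a : k, δ (MvPolynomial.C a) = MvPolynomial.C a := fun a => δ.commutes a
      have h5 : δ (MvPolynomial.X (Sum.inr j)) = MvPolynomial.C c * MvPolynomial.X (Sum.inr j) := by
        rw [hδ1, UZ3.sc_self]
      rw [h3, map_mul, h4, ← hδ1, hE]
      simp only [map_sub]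
      rw [h5, mul_sub, ← mul_assoc (MvPolynomial.C c⁻¹) (MvPolynomial.C c), ← map_mul,
        inv_mul_cancel₀ hc, map_one, one_mul]
    · rw [if_neg hvj, hδ2, UZ3.sc_of_ne j c⁻¹ hvj, ← hδ1, hE]
      simp only [map_sub]
      have h5 : δ (MvPolynomial.X v) = MvPolynomial.X v := by
        rw [hδ1, UZ3.sc_of_ne j c hvj]
      rw [h5]
  have hEJ : ∀ v, E v ∈ J k n (w + wt v) := hK
  have hdlJ : ∀ v, dl j c E v ∈ J k n (w + wt v) := by
    intro v
    unfold dl
    by_cases hvj : v = Sum.inr j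
    · rw [if_pos hvj, ← MvPolynomial.smul_eq_C_mul]
      exact Submodule.smul_mem _ _ (hscJ _ _ (hEJ v))
    · rw [if_neg hvj]
      exact hscJ _ _ (hEJ v)
  have hKcL : Lvl w Kc := by
    intro v
    rw [hKcE v]
    exact hdlJ v
  have hFK : FL L K := F0.mul (F0.mono (hlj.trans hjL.le) hθ) (F0.inv ((hT k n).fl hτ))
  have hE0 : ∀ v ∉ low n L, E v = 0 := by
    intro v hv
    rw [hE]
    simp only
    rw [hFK.2 v hv, sub_self]
  have hES : ∀ v, E v ∈ MvPolynomial.supported k (low n L) := by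
    intro v
    by_cases hv : v ∈ low n L
    · exact Subalgebra.sub_mem _ (hFK.1 v hv).1 (MvPolynomial.X_mem_supported.2 hv)
    · rw [hE0 v hv]
      exact Subalgebra.zero_mem _
  have hρ : Kc⁻¹ * K = δ * τ * δ⁻¹ * τ⁻¹ := by
    have h2 : δ * θ = θ * δ := AlgEquiv.ext hcomm
    have h3 : Kc = θ * (δ * τ⁻¹ * δ⁻¹) := by
      rw [hKc, hKdef, ← mul_assoc δ θ τ⁻¹, h2]
      simp only [mul_assoc]
    rw [h3, hKdef]
    group
  refine ⟨?_, ?_, ?_, Kc⁻¹ * K, ?_, ?_⟩
  · intro v
    exact Submodule.sub_mem _ (hEJ v) (hdlJ v)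
  · intro v
    refine Subalgebra.sub_mem _ (hES v) ?_
    unfold dl
    by_cases hvj : v = Sum.inr j
    · rw [if_pos hvj, ← MvPolynomial.smul_eq_C_mul]
      exact Subalgebra.smul_mem _ (hscS _ (hES v)) _
    · rw [if_neg hvj]
      exact hscS _ (hES v)
  · intro v hv
    have hvj : v ≠ Sum.inr j := by
      rintro rfl
      exact hv hjlow
    change E v - dl j c E v = 0
    unfold dl
    rw [if_neg hvj, hE0 v hv, map_zero, sub_zero]
  · rw [hρ]
    exact Subgroup.mul_mem _ (Subgroup.mul_mem _ (Subgroup.mul_mem _ hδ hτ)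
      (Subgroup.inv_mem _ hδ)) (Subgroup.inv_mem _ hτ)
  · intro v
    have hρL : Lvl w (Kc⁻¹ * K) := V0.mul (V0.inv hw hKcL) hK
    have h2 := (V0.pres hKcL (hρL v)).2
    have h3 : Kc ((Kc⁻¹ * K) (MvPolynomial.X v)) = K (MvPolynomial.X v) := by
      change (Kc * (Kc⁻¹ * K)) (MvPolynomial.X v) = K (MvPolynomial.X v)
      rw [mul_inv_cancel_left]
    rw [map_sub, h3] at h2
    have h4 : (Kc⁻¹ * K) (MvPolynomial.X v) - MvPolynomial.X v
        - (E - dl j c E) v = -(K (MvPolynomial.X v) - Kc (MvPolynomial.X v)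
          - ((Kc⁻¹ * K) (MvPolynomial.X v) - MvPolynomial.X v)) := by
      rw [Pi.sub_apply, ← hKcE v, hE]
      simp only
      ring
    have h5 : w + wt v + 1 ≤ w + wt v + w := by omega
    change (Kc⁻¹ * K) (MvPolynomial.X v) - MvPolynomial.X v - (E - dl j c E) v ∈ _
    rw [h4]
    exact Submodule.neg_mem _ (J0.mono h5 h2)

end

end Pool.AM
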