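import Pool.Agent.Work.MP_91aed7_un.Def3

/-!
# Z4: elements with non-zero subset sums
-/

set_option autoImplicit false

open Finset

namespace Pool.AM

theorem u_Z4 : S_Z4 := by
  intro k _ _ M
  classical
  induction M with
  | zero =>
    refine ⟨fun i => i.elim0, fun S hS => ?_⟩
    obtain ⟨i, -⟩ := hS
    exact i.elim0
  | succ M ih =>
    obtain ⟨u, hu⟩ := ih
    obtain ⟨x, hx⟩ := Infinite.exists_notMem_finset
      (Finset.univ.image fun S : Finset (Fin M) => -∑ i ∈ S, u i)
    have hx' : ∀ S : Finset (Fin M), x + ∑ i ∈ S, u i ≠ 0 := by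
      intro S h
      apply hx
      rw [Finset.mem_image]
      exact ⟨S, Finset.mem_univ _, by linear_combination -h⟩
    refine ⟨Fin.cons x u, fun S hS => ?_⟩
    set T : Finset (Fin M) := Finset.univ.filter fun i => i.succ ∈ S with hT
    have hsum : ∑ i ∈ S, (Fin.cons x u : Fin (M + 1) → k) i =
        (if (0 : Fin (M + 1)) ∈ S then x else 0) + ∑ i ∈ T, u i := by
      have h1 : ∑ i ∈ S, (Fin.cons x u : Fin (M + 1) → k) i =
          ∑ i : Fin (M + 1), if i ∈ S then (Fin.cons x u : Fin (M + 1) → k) i else 0 := by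
        rw [Finset.sum_ite_mem, Finset.univ_inter]
      rw [h1, Fin.sum_univ_succ, Fin.cons_zero, hT, Finset.sum_filter]
      simp only [Fin.cons_succ]
    rw [hsum]
    by_cases h0 : (0 : Fin (M + 1)) ∈ S
    · rw [if_pos h0]
      exact hx' T
    · rw [if_neg h0, zero_add]
      apply hu
      obtain ⟨i, hi⟩ := hS
      have hi0 : i ≠ 0 := fun h => h0 (h ▸ hi)
      obtain ⟨j, rfl⟩ := Fin.exists_succ_eq.2 hi0
      exact ⟨j, by rw [hT, Finset.mem_filter]; exact ⟨Finset.mem_univ _, hi⟩⟩

end Pool.AM
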