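import Pool.Agent.Work.MP_91aed7_un.Def3

/-!
# Z5: finite differences of powers
-/

set_option autoImplicit false

open Finset

namespace Pool.AM

theorem UZ5.aux {A ι : Type} [CommRing A] [DecidableEq ι] (u : ι → A) (s : Finset ι) :
    ∀ e : ℕ, e < s.card → ∀ b : A,
      ∑ S ∈ s.powerset, (-1 : A) ^ S.card * (b + ∑ i ∈ S, u i) ^ e = 0 := by
  induction s using Finset.induction_on with
  | empty =>
    intro e he
    simp at he
  | insert a s ha ih =>
    intro e he b
    rw [Finset.card_insert_of_notMem ha] at he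
    rw [Finset.sum_powerset_insert ha, ← Finset.sum_add_distrib]
    have h1 : ∀ S ∈ s.powerset, (-1 : A) ^ S.card * (b + ∑ i ∈ S, u i) ^ e +
        (-1 : A) ^ (insert a S).card * (b + ∑ i ∈ insert a S, u i) ^ e =
        ∑ m ∈ range e, (-(u a ^ (e - m) * (e.choose m : A))) *
          ((-1 : A) ^ S.card * (b + ∑ i ∈ S, u i) ^ m) := by
      intro S hS
      have haS : a ∉ S := fun h => ha (Finset.mem_powerset.1 hS h)
      rw [Finset.card_insert_of_notMem haS, Finset.sum_insert haS, pow_succ]
      have h2 : b + (u a + ∑ i ∈ S, u i) = (b + ∑ i ∈ S, u i) + u a := by ring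
      rw [h2, add_pow (b + ∑ i ∈ S, u i) (u a) e, Finset.sum_range_succ, Nat.sub_self, pow_zero, Nat.choose_self,
        Nat.cast_one, mul_one, mul_one]
      have h3 : (∑ m ∈ range e, (-(u a ^ (e - m) * (e.choose m : A))) *
          ((-1 : A) ^ S.card * (b + ∑ i ∈ S, u i) ^ m)) =
          -((-1 : A) ^ S.card * ∑ m ∈ range e, (b + ∑ i ∈ S, u i) ^ m * u a ^ (e - m) *
            (e.choose m : A)) := by
        rw [Finset.mul_sum, ← Finset.sum_neg_distrib]
        refine Finset.sum_congr rfl fun m _ => ?_
        ring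
      rw [h3]
      ring
    rw [Finset.sum_congr rfl h1, Finset.sum_comm]
    refine Finset.sum_eq_zero fun m hm => ?_
    rw [← Finset.mul_sum, ih m (by have := Finset.mem_range.1 hm; omega) b, mul_zero]

theorem u_Z5 : S_Z5 := by
  intro A _ M e u he
  have h := UZ5.aux u (Finset.univ : Finset (Fin M)) e (by simpa using he) 0
  rw [Finset.powerset_univ] at h
  simpa only [zero_add] using h


end Pool.AM
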