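import Pool.Agent.Work.MP_91aed7_un.Def3

/-!
# Block Z6: averaging over scalings
-/

set_option autoImplicit false

open Finset

namespace Pool.AM

noncomputable section

namespace UZ6

variable {k : Type} [Field k] {n : ℕ}

theorem coeff_sc (j : ℕ) (c : k) (f : PS k n) : ∀ m : Vr n →₀ ℕ,
    MvPolynomial.coeff m (sc j c f) = c ^ (m (Sum.inr j)) * MvPolynomial.coeff m f := by
  classical
  induction f using MvPolynomial.induction_on with
  | C a =>
    intro m
    have h : sc (n := n) j c (MvPolynomial.C a) = MvPolynomial.C a := (sc (n := n) j c).commutes a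
    rw [h, MvPolynomial.coeff_C]
    by_cases h0 : 0 = m
    · subst h0
      simp
    · simp [h0]
  | add p q hp hq =>
    intro m
    rw [map_add, MvPolynomial.coeff_add, MvPolynomial.coeff_add, hp, hq]
    ring
  | mul_X p v hp =>
    intro m
    rw [map_mul, MvPolynomial.coeff_mul_X']
    by_cases hv : v = Sum.inr j
    · subst hv
      have h : sc (n := n) j c (MvPolynomial.X (Sum.inr j)) =
          MvPolynomial.C c * MvPolynomial.X (Sum.inr j) := by
        simp [sc]
      have h2 : sc j c p * (MvPolynomial.C c * MvPolynomial.X (Sum.inr j))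
          = MvPolynomial.C c * (sc j c p * MvPolynomial.X (Sum.inr j)) := by ring
      rw [h, h2, MvPolynomial.coeff_C_mul, MvPolynomial.coeff_mul_X', hp]
      by_cases hm : (Sum.inr j : Vr n) ∈ m.support
      · rw [if_pos hm, if_pos hm]
        have h3 : m (Sum.inr j) ≠ 0 := Finsupp.mem_support_iff.1 hm
        have h4 : (m - Finsupp.single (Sum.inr j : Vr n) 1 : Vr n →₀ ℕ) (Sum.inr j) + 1 = m (Sum.inr j) := by
          rw [Finsupp.tsub_apply, Finsupp.single_eq_same]
          omega
        rw [← h4, pow_succ]
        ring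
      · rw [if_neg hm, if_neg hm, mul_zero, mul_zero]
    · have h : sc (n := n) j c (MvPolynomial.X v) = MvPolynomial.X v := by
        simp [sc, hv]
      rw [h, MvPolynomial.coeff_mul_X', hp]
      by_cases hm : v ∈ m.support
      · rw [if_pos hm, if_pos hm]
        have h4 : (m - Finsupp.single v 1 : Vr n →₀ ℕ) (Sum.inr j) = m (Sum.inr j) := by
          rw [Finsupp.tsub_apply, Finsupp.single_apply, if_neg hv, Nat.sub_zero]
        rw [h4]
      · rw [if_neg hm, if_neg hm, mul_zero]

theorem coeff_prt (j e : ℕ) (f : PS k n) (m : Vr n →₀ ℕ) :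
    MvPolynomial.coeff m (prt j e f) = if m (Sum.inr j) = e then MvPolynomial.coeff m f else 0 := by
  classical
  unfold prt
  rw [MvPolynomial.coeff_sum]
  simp only [MvPolynomial.coeff_monomial]
  rw [Finset.sum_ite_eq']
  simp only [Finset.mem_filter, MvPolynomial.mem_support_iff]
  by_cases h1 : m (Sum.inr j) = e
  · by_cases h2 : MvPolynomial.coeff m f = 0
    · simp [h1, h2]
    · simp [h1, h2]
  · simp [h1]

theorem support_prt (j e : ℕ) (f : PS k n) : (prt j e f).support ⊆ f.support := by
  intro m hm
  rw [MvPolynomial.mem_support_iff, coeff_prt] at hm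
  rw [MvPolynomial.mem_support_iff]
  intro h
  rw [h] at hm
  simp at hm

theorem prt_J (j e r : ℕ) (f : PS k n) (hf : f ∈ J k n r) : prt j e f ∈ J k n r :=
  fun m hm => hf m (support_prt j e f hm)

theorem prt_supported (j e L : ℕ) (f : PS k n) (hf : f ∈ MvPolynomial.supported k (low n L)) :
    prt j e f ∈ MvPolynomial.supported k (low n L) := by
  classical
  rw [MvPolynomial.mem_supported] at hf ⊢
  intro v hv
  apply hf
  rw [Finset.mem_coe, MvPolynomial.mem_vars_iff_mem_support] at hv ⊢
  obtain ⟨d, hd, hv⟩ := hv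
  exact ⟨d, support_prt j e f hd, hv⟩

theorem prt_vars (j : ℕ) (f : PS k n) : (Sum.inr j : Vr n) ∉ (prt j 0 f).vars := by
  classical
  rw [MvPolynomial.mem_vars_iff_mem_support]
  rintro ⟨d, hd, hv⟩
  rw [MvPolynomial.mem_support_iff, coeff_prt] at hd
  have h1 : d (Sum.inr j) ≠ 0 := Finsupp.mem_support_iff.1 hv
  rw [if_neg h1] at hd
  exact hd rfl

theorem mem_lowF {L : ℕ} {v : Vr n} (hv : v ∈ low n L) : v ∈ lowF n L := by
  unfold lowF
  rw [Finset.mem_disjSum]
  rcases v with i | j
  · exact Or.inl ⟨i, Finset.mem_univ _, rfl⟩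
  · exact Or.inr ⟨j, Finset.mem_range.2 (hv j rfl), rfl⟩

/-- the sum of the elements `u i`, `i ∈ S` -/
def su {M : ℕ} (u : Fin M → k) (S : Finset (Fin M)) : k := ∑ i ∈ S, u i

open Classical in
/-- the sign -/
def sg {M : ℕ} (S : Finset (Fin M)) (G : VF k n) : VF k n := if Even S.card then G else -G

theorem coeff_sg {M : ℕ} (S : Finset (Fin M)) (G : VF k n) (v : Vr n) (m : Vr n →₀ ℕ) :
    MvPolynomial.coeff m (sg S G v) = (-1) ^ S.card * MvPolynomial.coeff m (G v) := by
  classical
  unfold sg
  by_cases h : Even S.card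
  · rw [if_pos h, h.neg_one_pow, one_mul]
  · rw [if_neg h, (Nat.not_even_iff_odd.1 h).neg_one_pow, Pi.neg_apply, MvPolynomial.coeff_neg]
    ring

open Classical in
theorem alt (h5 : S_Z5) {M : ℕ} (u : Fin M → k) (e : ℕ) (he : e < M) :
    ∑ S ∈ (Finset.univ : Finset (Finset (Fin M))).filter (fun S => S.Nonempty),
      (-1 : k) ^ S.card * su u S ^ e = -(if e = 0 then 1 else 0) := by
  have h := h5 k M e u he
  rw [← Finset.sum_filter_add_sum_filter_not Finset.univ (fun S : Finset (Fin M) => S.Nonempty)] at h
  have h2 : (Finset.univ : Finset (Finset (Fin M))).filter (fun S => ¬ S.Nonempty) = {∅} := by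
    ext S
    simp [Finset.not_nonempty_iff_eq_empty]
  rw [h2, Finset.sum_singleton, Finset.card_empty, Finset.sum_empty, pow_zero, one_mul] at h
  have h3 : (0 : k) ^ e = if e = 0 then 1 else 0 := by
    by_cases h0 : e = 0
    · simp [h0]
    · rw [if_neg h0, zero_pow h0]
  rw [h3] at h
  unfold su
  linear_combination h

end UZ6

open UZ6 in
open Classical in
theorem u_Z6 (hR : S_RL) (h4 : S_Z4) (h5 : S_Z5) : S_Z6 := by
  intro k _ _ n L w j E hw hjL hE hreal
  obtain ⟨hEJ, hES, hE0⟩ := hE
  have R0 := hR k n
  have hjlow : (Sum.inr j : Vr n) ∈ low n L := by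
    intro j' hj'
    have : j = j' := Sum.inr.inj hj'
    omega
  -- a bound for the exponents
  obtain ⟨M, hM1, hM⟩ : ∃ M : ℕ, 1 ≤ M ∧ ∀ v, ∀ m : Vr n →₀ ℕ,
      MvPolynomial.coeff m (E v) ≠ 0 → m (Sum.inr j) < M := by
    refine ⟨((lowF n L).sup fun v => (E v).support.sup fun m => m (Sum.inr j)) + 1, by omega, ?_⟩
    intro v m hm
    have hv : v ∈ low n L := by
      by_contra hv
      rw [hE0 v hv, MvPolynomial.coeff_zero] at hm
      exact hm rfl
    have h1 : (E v).support.sup (fun m => m (Sum.inr j))
        ≤ (lowF n L).sup fun v => (E v).support.sup fun m => m (Sum.inr j) :=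
      Finset.le_sup (f := fun v => (E v).support.sup fun m => m (Sum.inr j)) (mem_lowF hv)
    have h2 : m (Sum.inr j) ≤ (E v).support.sup (fun m => m (Sum.inr j)) :=
      Finset.le_sup (f := fun m : Vr n →₀ ℕ => m (Sum.inr j)) (MvPolynomial.mem_support_iff.2 hm)
    omega
  obtain ⟨u, hu⟩ := h4 k M
  set T : Finset (Finset (Fin M)) :=
    (Finset.univ : Finset (Finset (Fin M))).filter (fun S => S.Nonempty) with hTdef
  have hu' : ∀ S ∈ T, su u S ≠ 0 := by
    intro S hS
    exact hu S (Finset.mem_filter.1 hS).2
  set s : k := ∑ S ∈ T, (-1 : k) ^ S.card * (su u S)⁻¹ with hs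
  set R : VF k n := ∑ S ∈ T, sg S (E - dl j (su u S) E) with hRdef
  have hRr : RealL L w R := by
    refine R0.sum T _ hw ?_
    intro S hS
    unfold sg
    by_cases he : Even S.card
    · rw [if_pos he]
      exact hreal _ (hu' S hS)
    · rw [if_neg he]
      exact R0.neg hw (hreal _ (hu' S hS))
  set g : PS k n := MvPolynomial.C s * prt j 0 (E (Sum.inr j)) with hg
  have hgr : RealL L w (Pi.single (Sum.inr j) g : VF k n) := by
    refine R0.el hjlow ?_ ?_ ?_
    · rw [hg, ← MvPolynomial.smul_eq_C_mul]
      exact Subalgebra.smul_mem _ (prt_supported j 0 L _ (hES _)) _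
    · intro h
      have h1 := MvPolynomial.vars_mul _ _ h
      rw [MvPolynomial.vars_C, Finset.empty_union] at h1
      exact prt_vars j _ h1
    · rw [hg, ← MvPolynomial.smul_eq_C_mul]
      exact Submodule.smul_mem _ _ (prt_J j 0 _ _ (hEJ _))
  have key : E - pj j E = -R + -(Pi.single (Sum.inr j) g : VF k n) := by
    funext v
    refine MvPolynomial.ext _ _ fun m => ?_
    have hRc : MvPolynomial.coeff m (R v) = ∑ S ∈ T, (-1 : k) ^ S.card *
        (MvPolynomial.coeff m (E v) - MvPolynomial.coeff m (dl j (su u S) E v)) := by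
      rw [hRdef, Finset.sum_apply, MvPolynomial.coeff_sum]
      refine Finset.sum_congr rfl fun S _ => ?_
      rw [coeff_sg, Pi.sub_apply, MvPolynomial.coeff_sub]
    rw [Pi.sub_apply, Pi.add_apply, Pi.neg_apply, Pi.neg_apply, MvPolynomial.coeff_sub,
      MvPolynomial.coeff_add, MvPolynomial.coeff_neg, MvPolynomial.coeff_neg, hRc]
    unfold pj
    rw [coeff_prt]
    set a : k := MvPolynomial.coeff m (E v) with ha
    by_cases h0 : a = 0
    · have h1 : ∀ c : k, MvPolynomial.coeff m (dl j c E v) = 0 := by
        intro c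
        unfold dl
        by_cases hv : v = Sum.inr j
        · rw [if_pos hv, MvPolynomial.coeff_C_mul, coeff_sc, ← ha, h0]
          ring
        · rw [if_neg hv, coeff_sc, ← ha, h0]
          ring
      have h2 : MvPolynomial.coeff m ((Pi.single (Sum.inr j) g : VF k n) v) = 0 := by
        by_cases hv : v = Sum.inr j
        · subst hv
          rw [Pi.single_eq_same, hg, MvPolynomial.coeff_C_mul, coeff_prt, ← ha, h0]
          simp
        · rw [Pi.single_eq_of_ne hv, MvPolynomial.coeff_zero]
      rw [h2, h0]
      simp only [h1, sub_zero, mul_zero, Finset.sum_const_zero, ite_self, neg_zero, add_zero]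
    · have hlt : m (Sum.inr j) < M := hM v m h0
      have hA0 := alt h5 u 0 hM1
      have hAe := alt h5 u _ hlt
      rw [← hTdef] at hA0 hAe
      simp only [pow_zero, mul_one, if_true] at hA0
      by_cases hv : v = Sum.inr j
      · subst hv
        rw [Pi.single_eq_same, hg, MvPolynomial.coeff_C_mul, coeff_prt, ← ha]
        simp only [if_true]
        have h1 : ∀ S ∈ T, MvPolynomial.coeff m (dl j (su u S) E (Sum.inr j))
            = (su u S)⁻¹ * (su u S ^ (m (Sum.inr j)) * a) := by
          intro S _
          unfold dl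
          rw [if_pos rfl, MvPolynomial.coeff_C_mul, coeff_sc]
        by_cases he : m (Sum.inr j) = 0
        · have h2 : ∑ S ∈ T, (-1 : k) ^ S.card *
              (a - MvPolynomial.coeff m (dl j (su u S) E (Sum.inr j)))
              = a * (∑ S ∈ T, (-1 : k) ^ S.card) - a * s := by
            rw [hs, Finset.mul_sum, Finset.mul_sum, ← Finset.sum_sub_distrib]
            refine Finset.sum_congr rfl fun S hS => ?_
            rw [h1 S hS, he, pow_zero]
            ring
          rw [h2, hA0, he]
          simp only [zero_ne_one, if_false, if_true, sub_zero]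
          ring
        · have hlt' : m (Sum.inr j) - 1 < M := by omega
          have hA1 := alt h5 u _ hlt'
          rw [← hTdef] at hA1
          have h2 : ∑ S ∈ T, (-1 : k) ^ S.card *
              (a - MvPolynomial.coeff m (dl j (su u S) E (Sum.inr j)))
              = a * (∑ S ∈ T, (-1 : k) ^ S.card)
                - a * ∑ S ∈ T, (-1 : k) ^ S.card * su u S ^ (m (Sum.inr j) - 1) := by
            rw [Finset.mul_sum, Finset.mul_sum, ← Finset.sum_sub_distrib]
            refine Finset.sum_congr rfl fun S hS => ?_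
            have h3 : (su u S) ^ (m (Sum.inr j)) = su u S * su u S ^ (m (Sum.inr j) - 1) := by
              rw [← pow_succ']
              congr 1
              omega
            rw [h1 S hS, h3, ← mul_assoc (su u S)⁻¹, ← mul_assoc (su u S)⁻¹,
              inv_mul_cancel₀ (hu' S hS)]
            ring
          rw [h2, hA0, hA1]
          by_cases he1 : m (Sum.inr j) = 1
          · rw [he1]
            simp
          · have h6 : ¬ (m (Sum.inr j) - 1 = 0) := by omega
            rw [if_neg he1, if_neg h6, if_neg he]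
            ring
      · rw [Pi.single_eq_of_ne hv, MvPolynomial.coeff_zero, if_neg hv]
        have h2 : ∑ S ∈ T, (-1 : k) ^ S.card *
            (a - MvPolynomial.coeff m (dl j (su u S) E v))
            = a * (∑ S ∈ T, (-1 : k) ^ S.card)
              - a * ∑ S ∈ T, (-1 : k) ^ S.card * su u S ^ (m (Sum.inr j)) := by
          rw [Finset.mul_sum, Finset.mul_sum, ← Finset.sum_sub_distrib]
          refine Finset.sum_congr rfl fun S hS => ?_
          unfold dl
          rw [if_neg hv, coeff_sc]
          ring
        rw [h2, hA0, hAe]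
        by_cases he : m (Sum.inr j) = 0
        · rw [if_pos he, if_pos he]
          ring
        · rw [if_neg he, if_neg he]
          ring
  rw [key]
  exact R0.add hw (R0.neg hw hRr) (R0.neg hw hgr)

end

end Pool.AM
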