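import Pool.Agent.Work.MP_91aed7_un.Def3
import Pool.Agent.Work.MP_91aed7_am_helper70.RP

set_option autoImplicit false

open MvPolynomial

namespace Pool.AM

open RP_

theorem u_Z8 (hJ : Stmt_J) (_hLV : Stmt_LV) (hT : S_TLL) (hR : S_RL) (h7 : S_Z7) : S_Z8 := by
  intro k _ n L w j N a b c hw hjL hNL haL hbL hNj haj hbj haN hbN hab hcS hjc hNc hac hbc
  classical
  have J := hJ k n
  have RA := hR k n
  have TL := hT k n
  obtain ⟨i, hi⟩ : ∃ i : Vr n, i = Sum.inr j := ⟨_, rfl⟩
  obtain ⟨z, hz⟩ : ∃ i : Vr n, i = Sum.inr N := ⟨_, rfl⟩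
  obtain ⟨u, hu⟩ : ∃ i : Vr n, i = Sum.inr a := ⟨_, rfl⟩
  obtain ⟨v, hv⟩ : ∃ i : Vr n, i = Sum.inr b := ⟨_, rfl⟩
  have hlow : ∀ m : ℕ, m < L → (Sum.inr m : Vr n) ∈ low n L := by
    intro m hm m' hm'
    rw [← Sum.inr_injective hm']
    exact hm
  have li : i ∈ low n L := by rw [hi]; exact hlow _ hjL
  have lz : z ∈ low n L := by rw [hz]; exact hlow _ hNL
  have lu : u ∈ low n L := by rw [hu]; exact hlow _ haL
  have lv : v ∈ low n L := by rw [hv]; exact hlow _ hbL
  have Si : (X i : PS k n) ∈ supported k (low n L) := X_mem_supported.2 li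
  have Su : (X u : PS k n) ∈ supported k (low n L) := X_mem_supported.2 lu
  have Sv : (X v : PS k n) ∈ supported k (low n L) := X_mem_supported.2 lv
  rw [← hi, ← hz]
  rw [← hi] at hjc
  rw [← hz] at hNc
  rw [← hu] at hac
  rw [← hv] at hbc
  have wi : wt i = 1 := by rw [hi]; rfl
  have wu : wt u = 1 := by rw [hu]; rfl
  have wv : wt v = 1 := by rw [hv]; rfl
  have wz : wt z = 1 := by rw [hz]; rfl
  have ziN : z ≠ i := by
    rw [hz, hi]
    intro h
    exact hNj (Sum.inr_injective h)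
  have ui : u ≠ i := by
    rw [hu, hi]
    intro h
    exact haj (Sum.inr_injective h)
  have uz : u ≠ z := by
    rw [hu, hz]
    intro h
    exact haN (Sum.inr_injective h)
  have vi : v ≠ i := by
    rw [hv, hi]
    intro h
    exact hbj (Sum.inr_injective h)
  have vz : v ≠ z := by
    rw [hv, hz]
    intro h
    exact hbN (Sum.inr_injective h)
  have vu : v ≠ u := by
    rw [hv, hu]
    intro h
    exact hab (Sum.inr_injective h).symm
  -- memberships
  have Jc : c ∈ Pool.AM.J k n 0 := J.zero c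
  have Ji : (X i : PS k n) ∈ Pool.AM.J k n 1 := by
    have := J.X_mem i
    rwa [wi] at this
  have Ju : (X u : PS k n) ∈ Pool.AM.J k n 1 := by
    have := J.X_mem u
    rwa [wu] at this
  have Jv : (X v : PS k n) ∈ Pool.AM.J k n 1 := by
    have := J.X_mem v
    rwa [wv] at this
  have Jpow : ∀ (f : PS k n), f ∈ Pool.AM.J k n 1 → ∀ m : ℕ, f ^ m ∈ Pool.AM.J k n m := by
    intro f hf m
    induction m with
    | zero => exact J.zero _
    | succ m ih =>
      rw [pow_succ]
      exact J.mul ih hf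
  have Jl1 : (X u + X i : PS k n) ∈ Pool.AM.J k n 1 := add_mem Ju Ji
  have Jl2 : (X v + X i : PS k n) ∈ Pool.AM.J k n 1 := add_mem Jv Ji
  have cz : c ∈ supported k ({z}ᶜ : Set (Vr n)) := notMem_vars_iff.1 hNc
  have iz : (X i : PS k n) ∈ supported k ({z}ᶜ : Set (Vr n)) := X_supp (Ne.symm ziN)
  have uz' : (X u : PS k n) ∈ supported k ({z}ᶜ : Set (Vr n)) := X_supp uz
  have vz' : (X v : PS k n) ∈ supported k ({z}ᶜ : Set (Vr n)) := X_supp vz
  have l1z : (X u + X i : PS k n) ∈ supported k ({z}ᶜ : Set (Vr n)) := add_mem uz' iz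
  have l2z : (X v + X i : PS k n) ∈ supported k ({z}ᶜ : Set (Vr n)) := add_mem vz' iz
  obtain ⟨w', rfl⟩ : ∃ w', w = w' + 1 := ⟨w - 1, by omega⟩
  -- q
  have Sl1 : (X u + X i : PS k n) ∈ supported k (low n L) := add_mem Su Si
  have Sl2 : (X v + X i : PS k n) ∈ supported k (low n L) := add_mem Sv Si
  obtain ⟨q, hq, Jq, qz, qS⟩ : ∃ q : PS k n, (X u + X i) ^ (w' + 1) = X i ^ (w' + 1) + X u * q ∧
      q ∈ Pool.AM.J k n w' ∧ q ∈ supported k ({z}ᶜ : Set (Vr n)) ∧
      q ∈ supported k (low n L) := by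
    refine ⟨∑ t ∈ Finset.range (w' + 1), (X u + X i) ^ t * X i ^ (w' + 1 - 1 - t), ?_, ?_, ?_, ?_⟩
    · have h := (Commute.all (X u + X i : PS k n) (X i)).mul_geom_sum₂ (w' + 1)
      rw [add_sub_cancel_right] at h
      rw [h]
      ring
    · refine sum_mem fun t ht => ?_
      rw [Finset.mem_range] at ht
      have h1 := J.mul (Jpow _ Jl1 t) (Jpow _ Ji (w' + 1 - 1 - t))
      exact J.mono (by omega) h1
    · refine sum_mem fun t _ => ?_
      exact mul_mem (pow_mem l1z _) (pow_mem iz _)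
    · refine sum_mem fun t _ => ?_
      exact mul_mem (pow_mem Sl1 _) (pow_mem Si _)
  -- the polynomial f
  obtain ⟨f, hf⟩ : ∃ f : PS k n, f = c * (X u + X i) ^ (w' + 1) * (X v + X i) := ⟨_, rfl⟩
  have Jf : f ∈ Pool.AM.J k n (w' + 1 + 1) := by
    have h1 := J.mul (J.mul Jc (Jpow _ Jl1 (w' + 1))) Jl2
    rw [zero_add] at h1
    rw [hf]
    exact h1
  have Sf : f ∈ supported k (low n L) := by
    rw [hf]
    exact mul_mem (mul_mem hcS (pow_mem Sl1 _)) Sl2
  -- the automorphisms
  obtain ⟨t2, t2m, t2u, t2u', t2f, t2f', t2g, -⟩ := TL.el lu Si (by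
    rw [vars_X, Finset.mem_singleton]; exact ui)
  obtain ⟨t3, t3m, t3v, t3v', t3f, t3f', t3g, -⟩ := TL.el lv Si (by
    rw [vars_X, Finset.mem_singleton]; exact vi)
  have omv : i ∉ (c * (X u : PS k n) ^ (w' + 1) * X v).vars := by
    rw [notMem_vars_iff]
    exact mul_mem (mul_mem (notMem_vars_iff.1 hjc) (pow_mem (X_supp ui) _)) (X_supp vi)
  obtain ⟨om, omm, omi, -, omf, -, -, -⟩ := TL.el li
    (mul_mem (mul_mem hcS (pow_mem Su (w' + 1))) Sv) omv
  have t2c : t2 c = c := t2g c hac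
  have t3c : t3 c = c := t3g c hbc
  obtain ⟨H, hH⟩ : ∃ H : VF k n, H = Pi.single i f - Pi.single u f - Pi.single v f := ⟨_, rfl⟩
  have Hi : H i = f := by
    rw [hH]
    simp [ui.symm, vi.symm]
  have Hu : H u = -f := by
    rw [hH]
    simp [ui, vu.symm]
  have Hv : H v = -f := by
    rw [hH]
    simp [vi, vu]
  have Ho : ∀ x, x ≠ i → x ≠ u → x ≠ v → H x = 0 := by
    intro x h1 h2 h3
    rw [hH]
    simp [h1, h2, h3]
  have RH : RealL L (w' + 1) H := by
    refine ⟨?_, ?_, ?_, t2 * t3 * om * (t2 * t3)⁻¹, mul_mem (mul_mem (mul_mem t2m t3m) omm)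
      (inv_mem (mul_mem t2m t3m)), ?_⟩
    · intro x
      by_cases h1 : x = i
      · rw [h1, Hi, wi]
        exact Jf
      by_cases h2 : x = u
      · rw [h2, Hu, wu]
        exact neg_mem Jf
      by_cases h3 : x = v
      · rw [h3, Hv, wv]
        exact neg_mem Jf
      rw [Ho x h1 h2 h3]
      exact zero_mem _
    · intro x
      by_cases h1 : x = i
      · rw [h1, Hi]
        exact Sf
      by_cases h2 : x = u
      · rw [h2, Hu]
        exact neg_mem Sf
      by_cases h3 : x = v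
      · rw [h3, Hv]
        exact neg_mem Sf
      rw [Ho x h1 h2 h3]
      exact zero_mem _
    · intro x hx
      exact Ho x (by rintro rfl; exact hx li) (by rintro rfl; exact hx lu)
        (by rintro rfl; exact hx lv)
    · intro x
      have key : (t2 * t3 * om * (t2 * t3)⁻¹) (X x) - X x - H x = 0 := by
        rw [mul_inv_rev]
        simp only [AlgEquiv.mul_apply]
        by_cases h1 : x = i
        · rw [h1, Hi, t2f' i ui.symm, t3f' i vi.symm, omi]
          simp only [map_add, map_mul, map_pow, t3f i vi.symm, t3c, t2c, t2f i ui.symm,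
            t3f u vu.symm, t2u, t3v, t2f v vu]
          rw [hf]
          ring
        by_cases h2 : x = u
        · rw [h2, Hu, t2u', map_sub, t3f' u vu.symm, t3f' i vi.symm, map_sub, omi,
            omf u ui]
          simp only [map_add, map_sub, map_mul, map_pow, t3f i vi.symm, t3c, t2c,
            t2f i ui.symm, t3f u vu.symm, t2u, t3v, t2f v vu]
          rw [hf]
          ring
        by_cases h3 : x = v
        · rw [h3, Hv, t2f' v vu, t3v', map_sub, omi, omf v vi]
          simp only [map_add, map_sub, map_mul, map_pow, t3f i vi.symm, t3c, t2c,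
            t2f i ui.symm, t3f u vu.symm, t2u, t3v, t2f v vu]
          rw [hf]
          ring
        rw [Ho x h1 h2 h3, t2f' x h2, t3f' x h3, omf x h1, t3f x h3, t2f x h2]
        ring
      rw [key]
      exact zero_mem _
  -- derivatives of f
  have dci : pderiv i c = 0 := pderiv_eq_zero_of_notMem_vars hjc
  have dcu : pderiv u c = 0 := pderiv_eq_zero_of_notMem_vars hac
  have dcv : pderiv v c = 0 := pderiv_eq_zero_of_notMem_vars hbc
  have dd : pderiv i f = pderiv u f + pderiv v f := by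
    rw [hf]
    simp only [pderiv_mul, pderiv_pow, map_add, dci, dcu, dcv, pderiv_X_self,
      pderiv_X_of_ne ui, pderiv_X_of_ne ui.symm, pderiv_X_of_ne vi, pderiv_X_of_ne vi.symm,
      pderiv_X_of_ne vu, pderiv_X_of_ne vu.symm]
    ring
  have HK : H = KK i z f - KK u z f - KK v z f := by
    rw [hH]
    unfold KK
    rw [dd, add_mul, Pi.single_add]
    abel
  -- KK u z f
  have Kgen : ∀ (x y : Vr n) (h : PS k n), wt x = 1 → wt y = 1 → x ≠ y → z ≠ x → z ≠ y →
      h ∈ Pool.AM.J k n (w' + 1) → h ∈ supported k ({z}ᶜ : Set (Vr n)) → x ∈ low n L →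
      y ∈ low n L → h ∈ supported k (low n L) →
      RealL L (w' + 1) (KK x z (X y * h)) := by
    intro x y h hx hy hxy hzx hzy hh hhz hxl hyl hhS
    have := h7 k n L (w' + 1) 1 (w' + 1) x N (X y) h (by omega) (by omega) hNL hxl
      (X_mem_supported.2 hyl) hhS (by omega) (by omega)
      (by rw [← hz]; exact hzx) (by
        rw [← hz, vars_X, Finset.mem_singleton]; exact hzy) (by
        rw [← hz]; exact notMem_vars_iff.2 hhz) (by
        rw [vars_X, Finset.mem_singleton]; exact hxy) (by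
        have := J.X_mem y
        rwa [hy] at this) hh
    rw [← hz] at this
    exact this
  have Jh1 : c * (X u + X i : PS k n) ^ (w' + 1) ∈ Pool.AM.J k n (w' + 1) := by
    have := J.mul Jc (Jpow _ Jl1 (w' + 1))
    rwa [zero_add] at this
  have zh1 : c * (X u + X i : PS k n) ^ (w' + 1) ∈ supported k ({z}ᶜ : Set (Vr n)) :=
    mul_mem cz (pow_mem l1z _)
  have Jh2 : c * (X u + X i : PS k n) ^ w' * (X v + X i) ∈ Pool.AM.J k n (w' + 1) := by
    have := J.mul (J.mul Jc (Jpow _ Jl1 w')) Jl2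
    rwa [zero_add] at this
  have zh2 : c * (X u + X i : PS k n) ^ w' * (X v + X i) ∈ supported k ({z}ᶜ : Set (Vr n)) :=
    mul_mem (mul_mem cz (pow_mem l1z _)) l2z
  have Jh3 : c * (X i : PS k n) * q ∈ Pool.AM.J k n (w' + 1) := by
    have := J.mul (J.mul Jc Ji) Jq
    exact J.mono (by omega) this
  have zh3 : c * (X i : PS k n) * q ∈ supported k ({z}ᶜ : Set (Vr n)) :=
    mul_mem (mul_mem cz iz) qz
  have sh1 : c * (X u + X i : PS k n) ^ (w' + 1) ∈ supported k (low n L) :=
    mul_mem hcS (pow_mem Sl1 _)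
  have sh2 : c * (X u + X i : PS k n) ^ w' * (X v + X i) ∈ supported k (low n L) :=
    mul_mem (mul_mem hcS (pow_mem Sl1 _)) Sl2
  have sh3 : c * (X i : PS k n) * q ∈ supported k (low n L) := mul_mem (mul_mem hcS Si) qS
  have Ku : RealL L (w' + 1) (KK u z f) := by
    have e : f = X v * (c * (X u + X i : PS k n) ^ (w' + 1))
        + X i * (c * (X u + X i : PS k n) ^ (w' + 1)) := by
      rw [hf]
      ring
    rw [e, KK_add]
    exact RA.add (by omega) (Kgen u v _ wu wv vu.symm uz.symm vz.symm Jh1 zh1 lu lv sh1)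
      (Kgen u i _ wu wi ui uz.symm ziN Jh1 zh1 lu li sh1)
  have Kv : RealL L (w' + 1) (KK v z f) := by
    have e : f = X u * (c * (X u + X i : PS k n) ^ w' * (X v + X i))
        + X i * (c * (X u + X i : PS k n) ^ w' * (X v + X i)) := by
      rw [hf, pow_succ]
      ring
    rw [e, KK_add]
    exact RA.add (by omega) (Kgen v u _ wv wu vu vz.symm uz.symm Jh2 zh2 lv lu sh2)
      (Kgen v i _ wv wi vi vz.symm ziN Jh2 zh2 lv li sh2)
  have Ki : RealL L (w' + 1) (KK i z f) := by
    have e : KK i z f = H + KK u z f + KK v z f := by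
      rw [HK]
      abel
    rw [e]
    exact RA.add (by omega) (RA.add (by omega) RH Ku) Kv
  have K1 : RealL L (w' + 1) (KK i z (X v * (c * (X u + X i : PS k n) ^ (w' + 1)))) :=
    Kgen i v _ wi wv vi.symm ziN vz.symm Jh1 zh1 li lv sh1
  have K2 : RealL L (w' + 1) (KK i z (X u * (c * (X i : PS k n) * q))) :=
    Kgen i u _ wi wu ui.symm ziN uz.symm Jh3 zh3 li lu sh3
  have e : f = c * X i ^ (w' + 1 + 1) + X v * (c * (X u + X i : PS k n) ^ (w' + 1))
      + X u * (c * (X i : PS k n) * q) := by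
    rw [hf, hq]
    ring
  have e2 : KK i z (c * X i ^ (w' + 1 + 1))
      = KK i z f + -(KK i z (X v * (c * (X u + X i : PS k n) ^ (w' + 1))))
        + -(KK i z (X u * (c * (X i : PS k n) * q))) := by
    have e3 := congrArg (KK i z) e
    rw [KK_add, KK_add] at e3
    rw [e3]
    abel
  rw [e2]
  exact RA.add (by omega) (RA.add (by omega) Ki (RA.neg (by omega) K1)) (RA.neg (by omega) K2)

end Pool.AM
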