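import Pool.Agent.Work.MP_91aed7_un.Def3

/-!
# Block Z9: all `KK i z f`, `z = y_l`, in the variables of `low n (l + 3)`
-/

set_option autoImplicit false

open Finset

namespace Pool.AM.UZ9

noncomputable section

variable {k : Type} [Field k] {n : ℕ}

theorem KK_add (i z : Vr n) (f g : PS k n) : KK i z (f + g) = KK i z f + KK i z g := by
  unfold KK
  rw [Pi.single_add, map_add, add_mul, Pi.single_add]
  abel

theorem KK_zero (i z : Vr n) : KK i z (0 : PS k n) = 0 := by
  unfold KK
  rw [Pi.single_zero, map_zero, zero_mul, Pi.single_zero, sub_zero]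

theorem real_sum (R0 : RLLaws k n) {L w : ℕ} (hw : 1 ≤ w) (i z : Vr n) {α : Type} (s : Finset α)
    (f : α → PS k n) (h : ∀ a ∈ s, RealL L w (KK i z (f a))) :
    RealL L w (KK i z (∑ a ∈ s, f a)) := by
  classical
  induction s using Finset.induction_on with
  | empty =>
    rw [Finset.sum_empty, KK_zero]
    exact R0.zero L w
  | insert a s ha ih =>
    rw [Finset.sum_insert ha, KK_add]
    exact R0.add hw (h a (Finset.mem_insert_self _ _))
      (ih fun b hb => h b (Finset.mem_insert_of_mem hb))

theorem real_deep (J0 : JLaws k n) (R0 : RLLaws k n) {L w : ℕ} {i : Vr n} {N : ℕ} (f : PS k n)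
    (hN : (Sum.inr N : Vr n) ≠ i) (hNL : N < L) (hi : i ∈ low n L)
    (hs : f ∈ MvPolynomial.supported k (low n L))
    (hs' : MvPolynomial.pderiv i f ∈ MvPolynomial.supported k (low n L))
    (hf : f ∈ J k n (w + wt i + 1)) :
    RealL L w (KK i (Sum.inr N) f) := by
  have hzl : (Sum.inr N : Vr n) ∈ low n L := by
    intro j hj
    rw [← Sum.inr.inj hj]
    exact hNL
  have hXs : (MvPolynomial.X (Sum.inr N) : PS k n) ∈ MvPolynomial.supported k (low n L) :=
    MvPolynomial.X_mem_supported.2 hzl
  apply R0.congr (R0.zero L w)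
  · intro v
    unfold KK
    rw [Pi.sub_apply]
    apply Subalgebra.sub_mem
    · by_cases h1 : v = i
      · subst h1
        rw [Pi.single_eq_same]
        exact hs
      · rw [Pi.single_eq_of_ne h1]
        exact Subalgebra.zero_mem _
    · by_cases h2 : v = Sum.inr N
      · subst h2
        rw [Pi.single_eq_same]
        exact Subalgebra.mul_mem _ hs' hXs
      · rw [Pi.single_eq_of_ne h2]
        exact Subalgebra.zero_mem _
  · intro v hv
    have h1 : v ≠ i := by
      rintro rfl
      exact hv hi
    have h2 : v ≠ Sum.inr N := by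
      rintro rfl
      exact hv hzl
    unfold KK
    rw [Pi.sub_apply, Pi.single_eq_of_ne h1, Pi.single_eq_of_ne h2, sub_zero]
  · intro v
    rw [Pi.zero_apply, sub_zero]
    have hp : MvPolynomial.pderiv i f * MvPolynomial.X (Sum.inr N) ∈ J k n (w + 1 + 1) := by
      apply J0.mul (J0.pd i (r := w + 1) ?_) (J0.X_mem (Sum.inr N))
      rw [show w + 1 + wt i = w + wt i + 1 by ring]
      exact hf
    unfold KK
    rw [Pi.sub_apply]
    by_cases h1 : v = i
    · subst h1
      rw [Pi.single_eq_same, Pi.single_eq_of_ne hN.symm, sub_zero]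
      exact hf
    · rw [Pi.single_eq_of_ne h1, zero_sub]
      apply Submodule.neg_mem
      by_cases h2 : v = Sum.inr N
      · subst h2
        rw [Pi.single_eq_same]
        exact hp
      · rw [Pi.single_eq_of_ne h2]
        exact Submodule.zero_mem _

theorem mono_mem {m : Vr n →₀ ℕ} {c : k} {r : ℕ} (h : r ≤ ydeg m) :
    (MvPolynomial.monomial m c : PS k n) ∈ J k n r := by
  intro m' hm'
  have := MvPolynomial.support_monomial_subset hm'
  rw [Finset.mem_singleton] at this
  rw [this]
  exact h

theorem ydeg_add (m m' : Vr n →₀ ℕ) : ydeg (m + m') = ydeg m + ydeg m' := by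
  unfold ydeg
  exact Finsupp.sum_add_index' (fun _ => zero_mul _) (fun _ _ _ => add_mul _ _ _)

theorem ydeg_single (v : Vr n) (e : ℕ) : ydeg (Finsupp.single v e) = e * wt v := by
  unfold ydeg
  rw [Finsupp.sum_single_index (zero_mul _)]

theorem notMem_vars_monomial {v : Vr n} {m : Vr n →₀ ℕ} {c : k} (h : m v = 0) :
    v ∉ (MvPolynomial.monomial m c : PS k n).vars := by
  intro hv
  rw [MvPolynomial.mem_vars_iff_mem_support] at hv
  obtain ⟨m', hm', hv⟩ := hv
  have := MvPolynomial.support_monomial_subset hm'
  rw [Finset.mem_singleton] at this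
  rw [this, Finsupp.mem_support_iff] at hv
  exact hv h

theorem coeff_of_notMem_vars {v : Vr n} {f : PS k n} (h : v ∉ f.vars) {m : Vr n →₀ ℕ}
    (hm : m ∈ f.support) : m v = 0 := by
  by_contra hne
  apply h
  rw [MvPolynomial.mem_vars_iff_mem_support]
  exact ⟨m, hm, Finsupp.mem_support_iff.2 hne⟩

theorem mono_supp {S : Set (Vr n)} {m : Vr n →₀ ℕ} (c : k) (h : ∀ v, m v ≠ 0 → v ∈ S) :
    (MvPolynomial.monomial m c : PS k n) ∈ MvPolynomial.supported k S := by
  rw [MvPolynomial.mem_supported]
  intro v hv
  by_contra hvS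
  apply notMem_vars_monomial (c := c) (m := m) (v := v) ?_ hv
  by_contra hne
  exact hvS (h v hne)

theorem low_mono {L L' : ℕ} (h : L ≤ L') {v : Vr n} (hv : v ∈ low n L) : v ∈ low n L' :=
  fun j hj => (hv j hj).trans_le h

theorem inr_low {L j : ℕ} : (Sum.inr j : Vr n) ∈ low n L ↔ j < L := by
  constructor
  · intro h
    exact h j rfl
  · intro h j' hj'
    rw [← Sum.inr.inj hj']
    exact h

/-- one monomial -/
theorem mono_case (J0 : JLaws k n) (R0 : RLLaws k n) (h7 : S_Z7) (h8 : S_Z8) {l w j : ℕ}
    (hw : 1 ≤ w) (hj : j < l + 3) (hjl : j ≠ l) (m : Vr n →₀ ℕ) (c : k)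
    (hmv : ∀ v, m v ≠ 0 → v ∈ low n l ∨ v = Sum.inr j) (hmw : w + 1 ≤ ydeg m)
    (hpure : l ≤ j → ∃ t, t ≠ j ∧ m (Sum.inr t) ≠ 0) :
    RealL (l + 3) w (KK (Sum.inr j) (Sum.inr l) (MvPolynomial.monomial m c)) := by
  have hNi : (Sum.inr l : Vr n) ≠ Sum.inr j := fun h => hjl (Sum.inr.inj h).symm
  have hmN : m (Sum.inr l) = 0 := by
    by_contra hne
    rcases hmv _ hne with h | h
    · exact lt_irrefl _ (inr_low.1 h)
    · exact hNi h
  have hmL : ∀ v, m v ≠ 0 → v ∈ low n (l + 3) := by
    intro v hv
    rcases hmv v hv with h | h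
    · exact low_mono (by omega) h
    · rw [h]
      exact inr_low.2 hj
  by_cases hl : ∃ t, t ≠ j ∧ m (Sum.inr t) ≠ 0
  · obtain ⟨t, htj, hmt⟩ := hl
    have htl : t < l := by
      rcases hmv _ hmt with h | h
      · exact inr_low.1 h
      · exact absurd (Sum.inr.inj h) htj
    obtain ⟨m', hm'⟩ : ∃ m', m = Finsupp.single (Sum.inr t : Vr n) 1 + m' := by
      refine ⟨m - Finsupp.single (Sum.inr t : Vr n) 1, ?_⟩
      rw [add_tsub_cancel_of_le]
      rw [Finsupp.single_le_iff]
      omega
    have hy : w ≤ ydeg m' := by
      rw [hm', ydeg_add, ydeg_single] at hmw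
      have : wt (Sum.inr t : Vr n) = 1 := rfl
      rw [this] at hmw
      omega
    have hm'v : ∀ v, m' v ≠ 0 → m v ≠ 0 := by
      intro v hv
      rw [hm', Finsupp.add_apply]
      omega
    have hm'N : m' (Sum.inr l) = 0 := by
      by_contra hne
      exact hm'v _ hne hmN
    have h1 := h7 k n (l + 3) w 1 w (Sum.inr j) l (MvPolynomial.X (Sum.inr t))
      (MvPolynomial.monomial m' c) hw hw (by omega) (inr_low.2 hj)
      (MvPolynomial.X_mem_supported.2 (inr_low.2 (by omega)))
      (mono_supp c fun v hv => hmL v (hm'v v hv))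
      le_rfl (by
        change 1 + w = w + 1
        omega) hNi
      (by rw [MvPolynomial.vars_X, Finset.mem_singleton]; intro h; have := Sum.inr.inj h; omega)
      (notMem_vars_monomial hm'N)
      (by rw [MvPolynomial.vars_X, Finset.mem_singleton]; intro h; exact htj (Sum.inr.inj h).symm)
      (J0.X_mem (Sum.inr t)) (mono_mem hy)
    have he : (MvPolynomial.X (Sum.inr t) * MvPolynomial.monomial m' c : PS k n)
        = MvPolynomial.monomial m c := by
      rw [MvPolynomial.X, MvPolynomial.monomial_mul, one_mul, ← hm']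
    rwa [he] at h1
  · have hjl' : j < l := by
      by_contra hge
      exact hl (hpure (not_lt.1 hge))
    push Not at hl
    by_cases hdeep : w + 2 ≤ ydeg m
    · refine real_deep J0 R0 _ hNi (by omega) (inr_low.2 hj) (mono_supp c hmL) ?_ (mono_mem hdeep)
      rw [MvPolynomial.pderiv_monomial]
      apply mono_supp
      intro v hv
      apply hmL
      intro h0
      apply hv
      rw [Finsupp.tsub_apply, h0]
      omega
    have hmw' : ydeg m = w + 1 := by omega
    have hsplit : m.erase (Sum.inr j) + Finsupp.single (Sum.inr j : Vr n) (m (Sum.inr j)) = m :=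
      Finsupp.erase_add_single _ _
    have h0 : ydeg (m.erase (Sum.inr j)) = 0 := by
      unfold ydeg
      apply Finset.sum_eq_zero
      intro v hv
      rcases v with v | v
      · exact mul_zero _
      · by_cases hvj : v = j
        · subst hvj
          simp at hv
        · rw [Finsupp.erase_ne (by intro h; exact hvj (Sum.inr.inj h)), hl v hvj]
          exact zero_mul _
    have h2 : m (Sum.inr j) = w + 1 := by
      have := hmw'
      rw [← hsplit, ydeg_add, h0, ydeg_single] at this
      have h3 : wt (Sum.inr j : Vr n) = 1 := rfl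
      rw [h3] at this
      omega
    obtain ⟨m', hm', hm'j⟩ : ∃ m', m = m' + Finsupp.single (Sum.inr j : Vr n) (w + 1) ∧
        m' (Sum.inr j) = 0 := by
      refine ⟨m.erase (Sum.inr j), ?_, Finsupp.erase_same⟩
      rw [← h2]
      exact hsplit.symm
    have hm'v : ∀ v, m' v ≠ 0 → m v ≠ 0 := by
      intro v hv
      rw [hm', Finsupp.add_apply]
      omega
    have hz : ∀ u, l ≤ u → m' (Sum.inr u) = 0 := by
      intro u hu
      by_contra hne
      rcases hmv _ (hm'v _ hne) with h | h
      · exact absurd (inr_low.1 h) (by omega)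
      · have := Sum.inr.inj h
        omega
    have h1 := h8 k n (l + 3) w j l (l + 1) (l + 2) (MvPolynomial.monomial m' c) hw hj
      (by omega) (by omega) (by omega) (by omega) (by omega) (by omega) (by omega) (by omega)
      (by omega) (mono_supp c fun v hv => hmL v (hm'v v hv))
      (notMem_vars_monomial hm'j) (notMem_vars_monomial (hz l le_rfl))
      (notMem_vars_monomial (hz (l + 1) (by omega))) (notMem_vars_monomial (hz (l + 2) (by omega)))
    have he : (MvPolynomial.monomial m' c * MvPolynomial.X (Sum.inr j) ^ (w + 1) : PS k n)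
        = MvPolynomial.monomial m c := by
      rw [MvPolynomial.X_pow_eq_monomial, MvPolynomial.monomial_mul, mul_one, ← hm']
    rwa [he] at h1

end

end Pool.AM.UZ9

namespace Pool.AM

open UZ9

theorem u_Z9 (hJ : Stmt_J) (hR : S_RL) (h7 : S_Z7) (h8 : S_Z8) : S_Z9 := by
  intro k _ n l w i f hw hi hil hcase hf
  have J0 := hJ k n
  have R0 := hR k n
  rcases i with i | j
  · -- a variable `x_i`
    have hlow : (Sum.inl i : Vr n) ∈ low n l := by
      intro j hj
      cases hj
    have hfv : ∀ v ∈ f.vars, v ∈ low n l := by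
      rcases hcase with h | ⟨c, -, -, h⟩
      · exact h.1
      · exact absurd hlow h
    have hfN : (Sum.inr l : Vr n) ∉ f.vars := fun h => lt_irrefl _ (inr_low.1 (hfv _ h))
    have h1 := h7 k n (l + 3) w 0 w (Sum.inl i) l 1 f hw hw (by omega) hi (Subalgebra.one_mem _)
      (by
        rw [MvPolynomial.mem_supported]
        intro v hv
        exact low_mono (by omega) (hfv v hv))
      (Nat.zero_le _) (by
        change 0 + w = w + 0
        omega) hil.symm (by rw [MvPolynomial.vars_one]; exact Finset.notMem_empty _) hfN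
      (by rw [MvPolynomial.vars_one]; exact Finset.notMem_empty _) (J0.zero 1)
      (by
        have : w + wt (Sum.inl i : Vr n) = w := rfl
        rwa [this] at hf)
    rwa [one_mul] at h1
  · have hj : j < l + 3 := inr_low.1 hi
    have hjl : j ≠ l := fun h => hil (by rw [h])
    rw [f.as_sum]
    apply real_sum R0 hw
    intro m hm
    have hmw : w + 1 ≤ ydeg m := hf m hm
    apply mono_case J0 R0 h7 h8 hw hj hjl m _ ?_ hmw ?_
    · intro v hv
      have hvf : v ∈ f.vars := by
        rw [MvPolynomial.mem_vars_iff_mem_support]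
        exact ⟨m, hm, Finsupp.mem_support_iff.2 hv⟩
      rcases hcase with h | ⟨c, hc, hfc, -⟩
      · exact Or.inl (h.1 v hvf)
      · rw [hfc] at hvf
        rcases Finset.mem_union.1 (MvPolynomial.vars_mul _ _ hvf) with h | h
        · exact Or.inl (hc v h)
        · rw [MvPolynomial.vars_X, Finset.mem_singleton] at h
          exact Or.inr h
    · intro hlj
      rcases hcase with h | ⟨c, hc, hfc, -⟩
      · exact absurd (inr_low.1 h.2) (by omega)
      · -- the monomial is `m' + e_j` with `m'` in the variables of `low n l`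
        have hm1 : m (Sum.inr j) = 1 := by
          have hcm : MvPolynomial.coeff m f ≠ 0 := MvPolynomial.mem_support_iff.1 hm
          rw [hfc, MvPolynomial.coeff_mul_X'] at hcm
          split_ifs at hcm with h1
          · have h2 : ((m - Finsupp.single (Sum.inr j : Vr n) 1 : Vr n →₀ ℕ)) (Sum.inr j) = 0 := by
              apply coeff_of_notMem_vars (f := c) ?_ (MvPolynomial.mem_support_iff.2 hcm)
              intro h
              exact absurd (inr_low.1 (hc _ h)) (by omega)
            rw [Finsupp.tsub_apply, Finsupp.single_eq_same] at h2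
            rw [Finsupp.mem_support_iff] at h1
            omega
          · exact absurd rfl hcm
        by_contra hno
        push Not at hno
        have h3 : ydeg m = 1 := by
          have hsplit : m.erase (Sum.inr j) + Finsupp.single (Sum.inr j : Vr n) (m (Sum.inr j)) = m :=
            Finsupp.erase_add_single _ _
          have h0 : ydeg (m.erase (Sum.inr j)) = 0 := by
            unfold ydeg
            apply Finset.sum_eq_zero
            intro v hv
            rcases v with v | v
            · exact mul_zero _
            · by_cases hvj : v = j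
              · subst hvj
                simp at hv
              · rw [Finsupp.erase_ne (by intro h; exact hvj (Sum.inr.inj h)), hno v hvj]
                exact zero_mul _
          rw [← hsplit, ydeg_add, h0, ydeg_single, hm1]
          rfl
        omega

end Pool.AM
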