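import Pool.Agent.Work.MP_91aed7_un.Def3

/-!
# Block ZP (helper45): laws for `pj` and `dl`
-/

set_option autoImplicit false

open Finset

namespace Pool.AM

noncomputable section

namespace ZP

theorem coeff_prt {k : Type} [Field k] {n : ℕ} (j e : ℕ) (f : PS k n) (m : Vr n →₀ ℕ) :
    MvPolynomial.coeff m (prt j e f) =
      if m (Sum.inr j) = e then MvPolynomial.coeff m f else 0 := by
  classical
  unfold prt
  rw [MvPolynomial.coeff_sum]
  simp only [MvPolynomial.coeff_monomial]
  rw [Finset.sum_ite_eq']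
  by_cases h1 : m (Sum.inr j) = e
  · rw [if_pos h1]
    by_cases h2 : m ∈ f.support
    · rw [if_pos (Finset.mem_filter.mpr ⟨h2, h1⟩)]
    · rw [if_neg (fun h => h2 (Finset.mem_filter.mp h).1)]
      exact (MvPolynomial.notMem_support_iff.mp h2).symm
  · rw [if_neg h1]
    refine if_neg ?_
    intro h
    exact h1 (Finset.mem_filter.mp h).2

theorem support_prt {k : Type} [Field k] {n : ℕ} (j e : ℕ) (f : PS k n) {m : Vr n →₀ ℕ}
    (h : m ∈ (prt j e f).support) : m ∈ f.support := by
  rw [MvPolynomial.mem_support_iff, coeff_prt] at h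
  rw [MvPolynomial.mem_support_iff]
  split_ifs at h with h1
  · exact h
  · exact absurd rfl h

theorem vars_prt {k : Type} [Field k] {n : ℕ} (j e : ℕ) (f : PS k n) {v : Vr n}
    (h : v ∈ (prt j e f).vars) : v ∈ f.vars := by
  rw [MvPolynomial.mem_vars_iff_mem_support] at h ⊢
  obtain ⟨d, hd, hv⟩ := h
  exact ⟨d, support_prt j e f hd, hv⟩

theorem prt_zero {k : Type} [Field k] {n : ℕ} (j e : ℕ) : prt j e (0 : PS k n) = 0 := by
  ext m
  rw [coeff_prt, MvPolynomial.coeff_zero]
  split_ifs <;> rfl

theorem prt_prt {k : Type} [Field k] {n : ℕ} (j e : ℕ) (f : PS k n) :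
    prt j e (prt j e f) = prt j e f := by
  ext m
  rw [coeff_prt, coeff_prt]
  split_ifs <;> rfl

theorem prt_comm {k : Type} [Field k] {n : ℕ} (i a j b : ℕ) (f : PS k n) :
    prt i a (prt j b f) = prt j b (prt i a f) := by
  ext m
  rw [coeff_prt, coeff_prt, coeff_prt, coeff_prt]
  split_ifs <;> rfl

end ZP

open ZP in
theorem u_ZP : S_ZP := by
  intro k _ n
  refine ⟨?_, ?_, ?_, ?_⟩
  · intro j E
    funext v
    exact prt_prt _ _ _
  · intro i j E
    funext v
    exact prt_comm _ _ _ _ _
  · rintro L w j E ⟨h1, h2, h3⟩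
    refine ⟨?_, ?_, ?_⟩
    · intro v m hm
      exact h1 v m (support_prt _ _ _ hm)
    · intro v
      have h4 := h2 v
      rw [MvPolynomial.mem_supported] at h4 ⊢
      intro x hx
      exact h4 (vars_prt _ _ _ hx)
    · intro v hv
      show prt j _ (E v) = 0
      rw [h3 v hv]
      exact prt_zero _ _
  · intro j c E E'
    funext v
    unfold dl
    simp only [Pi.sub_apply, map_sub]
    split_ifs
    · rw [mul_sub]
    · rfl

end

end Pool.AM
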