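import Pool.Agent.Work.MP_91aed7_am.Interface

/-!
# Tame automorphisms are dense along a linear subspace (characteristic 0): statements of the blocks

Everything lives in the ring `PS k n` of `Pool/Agent/Work/MP_91aed7_am/Defs.lean` (variables
`x_i = Sum.inl i`, `y_j = Sum.inr j`), but only the variables of `low n L` (`x_i` and `y_j`,
`j < L`) are moved, with a fixed `L`.
-/

set_option autoImplicit false

open Finset

namespace Pool.AM

noncomputable section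

/-- products of elementary automorphisms and scalings in the variables of `low n L` -/
def TL (k : Type) [Field k] (n L : ℕ) : Subgroup (PS k n ≃ₐ[k] PS k n) :=
  Subgroup.closure {τ | (IsEl τ ∨ IsSc τ) ∧ FL L τ}

/-- `H` is a vector field in the variables of `low n L`, of weight at least `w`, and it is the part
of weight `w` of an element of `TL k n L` which is the identity in weights `< w` -/
def RealL {k : Type} [Field k] {n : ℕ} (L w : ℕ) (H : VF k n) : Prop :=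
  (∀ v, H v ∈ J k n (w + wt v)) ∧
  (∀ v, H v ∈ MvPolynomial.supported k (low n L)) ∧
  (∀ v ∉ low n L, H v = 0) ∧
  ∃ τ ∈ TL k n L, ∀ v, τ (MvPolynomial.X v) - MvPolynomial.X v - H v ∈ J k n (w + wt v + 1)

open Classical in
/-- the endomorphism `y_j ↦ y_j + t y_0` -/
def mu {k : Type} [Field k] {n : ℕ} (j : ℕ) (t : k) : PS k n →ₐ[k] PS k n :=
  MvPolynomial.aeval (fun v => if v = Sum.inr j then
    MvPolynomial.X (Sum.inr j) + MvPolynomial.C t * MvPolynomial.X (Sum.inr 0)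
    else MvPolynomial.X v)

/-- the ideal generated by the last `l` variables -/
def IY (k : Type) [Field k] (n l : ℕ) : Ideal (MvPolynomial (Fin (n + l)) k) :=
  Ideal.span (Set.range fun j : Fin l => (MvPolynomial.X (Fin.natAdd n j) :
    MvPolynomial (Fin (n + l)) k))

/-- TLL: laws for the group `TL` -/
structure TLLaws (k : Type) [Field k] (n : ℕ) : Prop where
  fl : ∀ {L : ℕ} {τ : PS k n ≃ₐ[k] PS k n}, τ ∈ TL k n L → FL L τ
  mono : ∀ {L L' : ℕ}, L ≤ L' → TL k n L ≤ TL k n L'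
  tame : ∀ τ ∈ Tm k (Vr n), ∃ L, τ ∈ TL k n L
  el : ∀ {L : ℕ} {i : Vr n} {f : PS k n}, i ∈ low n L →
    f ∈ MvPolynomial.supported k (low n L) → i ∉ f.vars →
    ∃ τ ∈ TL k n L, τ (MvPolynomial.X i) = MvPolynomial.X i + f ∧
      τ⁻¹ (MvPolynomial.X i) = MvPolynomial.X i - f ∧
      (∀ v, v ≠ i → τ (MvPolynomial.X v) = MvPolynomial.X v) ∧
      (∀ v, v ≠ i → τ⁻¹ (MvPolynomial.X v) = MvPolynomial.X v) ∧
      (∀ g : PS k n, i ∉ g.vars → τ g = g) ∧ (∀ g : PS k n, i ∉ g.vars → τ⁻¹ g = g)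

def S_TLL : Prop := ∀ (k : Type) [Field k] (n : ℕ), TLLaws k n

/-- RL: laws for `RealL` -/
structure RLLaws (k : Type) [Field k] (n : ℕ) : Prop where
  add : ∀ {L w : ℕ} {H H' : VF k n}, 1 ≤ w → RealL L w H → RealL L w H' → RealL L w (H + H')
  neg : ∀ {L w : ℕ} {H : VF k n}, 1 ≤ w → RealL L w H → RealL L w (-H)
  zero : ∀ L w : ℕ, RealL L w (0 : VF k n)
  sum : ∀ {L w : ℕ} {ι : Type} (s : Finset ι) (F : ι → VF k n), 1 ≤ w →
    (∀ a ∈ s, RealL L w (F a)) → RealL L w (∑ a ∈ s, F a)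
  congr : ∀ {L w : ℕ} {H H' : VF k n}, RealL L w H →
    (∀ v, H' v ∈ MvPolynomial.supported k (low n L)) → (∀ v ∉ low n L, H' v = 0) →
    (∀ v, H' v - H v ∈ J k n (w + wt v + 1)) → RealL L w H'
  el : ∀ {L w : ℕ} {i : Vr n} {f : PS k n}, i ∈ low n L →
    f ∈ MvPolynomial.supported k (low n L) → i ∉ f.vars → f ∈ J k n (w + wt i) →
    RealL L w (Pi.single i f)

def S_RL : Prop := ∀ (k : Type) [Field k] (n : ℕ), RLLaws k n

/-- RD: the divergence of a realizable field is zero -/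
def S_RD : Prop := ∀ (k : Type) [Field k] (n L w : ℕ) (H : VF k n), 1 ≤ w → RealL L w H →
  ∑ v ∈ lowF n L, MvPolynomial.pderiv v (H v) ∈ J k n (w + 1)

/-- RKL: commutators -/
def S_RKL : Prop := ∀ (k : Type) [Field k] (n L w : ℕ) (i : Fin n) (h : PS k n), 1 ≤ L → 1 ≤ w →
  h ∈ MvPolynomial.supported k (low n L) → (Sum.inr 0 : Vr n) ∉ h.vars → h ∈ J k n w →
  RealL L w (KK (Sum.inl i) (Sum.inr 0) h)

open Classical in
/-- CJ: conjugation with `y_j ↦ y_j + t y_0` -/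
def S_CJ : Prop := ∀ (k : Type) [Field k] (n L w j : ℕ) (t : k) (H : VF k n), 1 ≤ j → j < L →
  1 ≤ w → RealL L w H →
  RealL L w (fun v => if v = Sum.inr j then mu j t (H v - MvPolynomial.C t * H (Sum.inr 0))
    else mu j t (H v))

/-- POL: polarization -/
def S_POL : Prop := ∀ (k : Type) [Field k] [CharZero k] (A : Type) [CommRing A] [Algebra k A]
  (S : AddSubgroup A) (M U Z : A) (N : ℕ),
  (∀ c t : k, t ≠ 0 → c • (M * (U + t • Z) ^ N) ∈ S) →
  ∀ b ≤ N, ∀ c : k, c • (M * (U ^ (N - b) * Z ^ b)) ∈ S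

/-- CX: realizable fields with a given `x_i`-component -/
def S_CX : Prop := ∀ (k : Type) [Field k] [CharZero k] (n L w : ℕ) (i : Fin n) (f : PS k n),
  2 ≤ L → 1 ≤ w → f ∈ MvPolynomial.supported k (low n L) → f ∈ J k n w →
  ∃ H : VF k n, RealL L w H ∧ H (Sum.inl i) = f ∧ ∀ i' : Fin n, i' ≠ i → H (Sum.inl i') = 0

/-- CY: realizable fields with a given `y_j`-component -/
def S_CY : Prop := ∀ (k : Type) [Field k] [CharZero k] (n L w j : ℕ) (f : PS k n),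
  1 ≤ j → j < L → 1 ≤ w → f ∈ MvPolynomial.supported k (low n L) → f ∈ J k n (w + 1) →
  ∃ H : VF k n, RealL L w H ∧ H (Sum.inr j) = f ∧
    ∀ v : Vr n, v ≠ Sum.inr j → v ≠ Sum.inr 0 → H v = 0

/-- G0: the part without `y_0` -/
def S_G0 : Prop := ∀ (k : Type) [Field k] [CharZero k] (n L w : ℕ) (f : PS k n),
  f ∈ MvPolynomial.supported k (low n L) → f ∈ J k n (w + 1) →
  MvPolynomial.pderiv (Sum.inr 0) f ∈ J k n (w + 1) →
  ∃ f0 : PS k n, f0 ∈ MvPolynomial.supported k (low n L) ∧ f0 ∈ J k n (w + 1) ∧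
    (Sum.inr 0 : Vr n) ∉ f0.vars ∧ f - f0 ∈ J k n (w + 2)

/-- STL: the induction step -/
def S_STL : Prop := ∀ (k : Type) [Field k] [CharZero k] (n L w : ℕ) (θ : PS k n ≃ₐ[k] PS k n),
  2 ≤ L → 1 ≤ w → FL L θ → Lvl w θ → ∃ τ ∈ TL k n L, Lvl (w + 1) (θ * τ⁻¹)

/-- IT: all levels -/
def S_IT : Prop := ∀ (k : Type) [Field k] [CharZero k] (n L w : ℕ) (θ : PS k n ≃ₐ[k] PS k n),
  2 ≤ L → 1 ≤ w → FL L θ → Lvl 1 θ → ∃ τ ∈ TL k n L, FL L (θ * τ⁻¹) ∧ Lvl w (θ * τ⁻¹)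

/-- DSL: descent to `n + L` variables -/
def S_DSL : Prop := ∀ (k : Type) [Field k] (n L : ℕ), ∀ τ ∈ TL k n L,
  ∃ τ' ∈ Tame k (n + L), ∀ a : Fin (n + L),
    MvPolynomial.rename (emb n L) (τ' (MvPolynomial.X a)) = τ (MvPolynomial.X (emb n L a))

/-- LFT: automorphisms of `k[x_1, ..., x_(n+L)]` give automorphisms of `PS k n` -/
def S_LFT : Prop := ∀ (k : Type) [Field k] (n L : ℕ)
  (θ' : MvPolynomial (Fin (n + L)) k ≃ₐ[k] MvPolynomial (Fin (n + L)) k),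
  ∃ θ : PS k n ≃ₐ[k] PS k n, FL L θ ∧ ∀ a : Fin (n + L),
    MvPolynomial.rename (emb n L) (θ' (MvPolynomial.X a)) = θ (MvPolynomial.X (emb n L a))

/-- JY: the filtration `J` and the powers of the ideal -/
def S_JY : Prop := ∀ (k : Type) [Field k] (n l m : ℕ) (f : MvPolynomial (Fin (n + l)) k),
  MvPolynomial.rename (emb n l) f ∈ J k n m ↔ f ∈ IY k n l ^ m

/-- FA: tame automorphisms are dense along `y = 0` -/
def S_FA : Prop := ∀ (k : Type) [Field k] [CharZero k] (n l : ℕ), 2 ≤ l →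
  ∀ θ : MvPolynomial (Fin (n + l)) k ≃ₐ[k] MvPolynomial (Fin (n + l)) k,
  (∀ i : Fin n, θ (MvPolynomial.X (Fin.castAdd l i)) - MvPolynomial.X (Fin.castAdd l i)
    ∈ IY k n l) →
  (∀ j : Fin l, θ (MvPolynomial.X (Fin.natAdd n j)) - MvPolynomial.X (Fin.natAdd n j)
    ∈ IY k n l ^ 2) →
  ∀ m : ℕ, ∃ τ ∈ Tame k (n + l), ∀ a : Fin (n + l),
    τ (MvPolynomial.X a) - θ (MvPolynomial.X a) ∈ IY k n l ^ m

/-- FB: uniform stable tameness to all orders -/
def S_FB : Prop := ∀ (k : Type) [Field k] [CharZero k] (n : ℕ)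
  (φ : MvPolynomial (Fin n) k ≃ₐ[k] MvPolynomial (Fin n) k),
  ∃ l₀ : ℕ, ∀ l : ℕ, l₀ ≤ l → ∀ m : ℕ, ∃ τ ∈ Tame k (n + l),
    (∀ i : Fin n, τ (MvPolynomial.X (Fin.castAdd l i))
      - MvPolynomial.rename (Fin.castAdd l) (φ (MvPolynomial.X i)) ∈ IY k n l ^ m) ∧
    (∀ j : Fin l, τ (MvPolynomial.X (Fin.natAdd n j)) - MvPolynomial.X (Fin.natAdd n j)
      ∈ IY k n l ^ m)

end

end Pool.AM
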