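import Pool.Agent.Work.MP_91aed7_un.Def

/-!
# Tame density along a linear subspace: the combined statement
-/

set_option autoImplicit false

open Finset

namespace Pool.AM

noncomputable section

/-- `ψ` agrees to first order along `y = 0` with the extension of `φ` by the identity on the
`y_j` -/
def Agr {k : Type} [Field k] {n l : ℕ} (φ : MvPolynomial (Fin n) k ≃ₐ[k] MvPolynomial (Fin n) k)
    (ψ : MvPolynomial (Fin (n + l)) k ≃ₐ[k] MvPolynomial (Fin (n + l)) k) : Prop :=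
  (∀ i : Fin n, ψ (MvPolynomial.X (Fin.castAdd l i))
    - MvPolynomial.rename (Fin.castAdd l) (φ (MvPolynomial.X i)) ∈ IY k n l) ∧
  (∀ j : Fin l, ψ (MvPolynomial.X (Fin.natAdd n j)) - MvPolynomial.X (Fin.natAdd n j)
    ∈ IY k n l ^ 2)

/-- EF: the extension of `φ` in `n + l` variables -/
def S_EF : Prop := ∀ (k : Type) [Field k] (n l : ℕ)
  (φ : MvPolynomial (Fin n) k ≃ₐ[k] MvPolynomial (Fin n) k),
  ∃ Φ : MvPolynomial (Fin (n + l)) k ≃ₐ[k] MvPolynomial (Fin (n + l)) k,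
    (∀ i : Fin n, Φ (MvPolynomial.X (Fin.castAdd l i))
      = MvPolynomial.rename (Fin.castAdd l) (φ (MvPolynomial.X i))) ∧
    (∀ j : Fin l, Φ (MvPolynomial.X (Fin.natAdd n j)) = MvPolynomial.X (Fin.natAdd n j)) ∧
    (∀ i : Fin n, Φ.symm (MvPolynomial.X (Fin.castAdd l i))
      = MvPolynomial.rename (Fin.castAdd l) (φ.symm (MvPolynomial.X i))) ∧
    (∀ j : Fin l, Φ.symm (MvPolynomial.X (Fin.natAdd n j)) = MvPolynomial.X (Fin.natAdd n j)) ∧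
    (φ ∈ Tame k n → Φ ∈ Tame k (n + l))

/-- FC1: from one tame automorphism to all -/
def S_FC1 : Prop := ∀ (k : Type) [Field k] [CharZero k] (n l : ℕ), 2 ≤ l →
  ∀ (φ : MvPolynomial (Fin n) k ≃ₐ[k] MvPolynomial (Fin n) k)
    (σ ψ : MvPolynomial (Fin (n + l)) k ≃ₐ[k] MvPolynomial (Fin (n + l)) k),
  σ ∈ Tame k (n + l) → Agr φ σ → Agr φ ψ →
  ∀ m : ℕ, ∃ τ ∈ Tame k (n + l), ∀ a : Fin (n + l),
    τ (MvPolynomial.X a) - ψ (MvPolynomial.X a) ∈ IY k n l ^ m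

/-- FC: the theorem -/
def S_FC : Prop := ∀ (k : Type) [Field k] [CharZero k] (n : ℕ)
  (φ : MvPolynomial (Fin n) k ≃ₐ[k] MvPolynomial (Fin n) k),
  ∃ l₀ : ℕ, (φ ∈ Tame k n → l₀ = 2) ∧ ∀ l : ℕ, l₀ ≤ l →
    ∀ ψ : MvPolynomial (Fin (n + l)) k ≃ₐ[k] MvPolynomial (Fin (n + l)) k, Agr φ ψ →
    ∀ m : ℕ, ∃ τ ∈ Tame k (n + l), ∀ a : Fin (n + l),
      τ (MvPolynomial.X a) - ψ (MvPolynomial.X a) ∈ IY k n l ^ m

end

end Pool.AM
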