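import Pool.Agent.Work.MP_91aed7_un.Def

/-!
# Uniform stable tameness to all orders over infinite fields: statements of the blocks

The new point is an average over the scalings of three variables which `φ_l` does not move: it
works in every characteristic (the field must be infinite).
-/

set_option autoImplicit false

open Finset

namespace Pool.AM

noncomputable section

open Classical in
/-- the endomorphism `y_j ↦ c y_j` -/
def sc {k : Type} [Field k] {n : ℕ} (j : ℕ) (c : k) : PS k n →ₐ[k] PS k n :=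
  MvPolynomial.aeval (fun v => if v = Sum.inr j then
    MvPolynomial.C c * MvPolynomial.X (Sum.inr j) else MvPolynomial.X v)

open Classical in
/-- the vector field `E` conjugated with the scaling `y_j ↦ c y_j` -/
def dl {k : Type} [Field k] {n : ℕ} (j : ℕ) (c : k) (E : VF k n) : VF k n :=
  fun v => if v = Sum.inr j then MvPolynomial.C c⁻¹ * sc j c (E v) else sc j c (E v)

open Classical in
/-- the part of degree `e` in `y_j` -/
def prt {k : Type} [Field k] {n : ℕ} (j e : ℕ) (f : PS k n) : PS k n :=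
  ∑ m ∈ f.support.filter (fun m => m (Sum.inr j) = e),
    MvPolynomial.monomial m (MvPolynomial.coeff m f)

open Classical in
/-- the part of a vector field which is invariant under the scalings of `y_j` -/
def pj {k : Type} [Field k] {n : ℕ} (j : ℕ) (E : VF k n) : VF k n :=
  fun v => prt j (if v = Sum.inr j then 1 else 0) (E v)

/-- `E` is a vector field of weight at least `w` in the variables of `low n L` -/
def EV {k : Type} [Field k] {n : ℕ} (L w : ℕ) (E : VF k n) : Prop :=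
  (∀ v, E v ∈ J k n (w + wt v)) ∧ (∀ v, E v ∈ MvPolynomial.supported k (low n L)) ∧
    ∀ v ∉ low n L, E v = 0

/-- Z1: scalings -/
def S_Z1 : Prop := ∀ (k : Type) [Field k] (n L j : ℕ) (c : k), j < L → c ≠ 0 →
  (∃ δ ∈ TL k n L, (∀ f, δ f = sc j c f) ∧ ∀ f, δ⁻¹ f = sc j c⁻¹ f) ∧
  (∀ (r : ℕ) (f : PS k n), f ∈ J k n r → sc j c f ∈ J k n r) ∧
  (∀ f ∈ MvPolynomial.supported k (low n L), sc j c f ∈ MvPolynomial.supported k (low n L)) ∧
  (∀ f : PS k n, (Sum.inr j : Vr n) ∉ f.vars → sc j c f = f)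

/-- Z2: conjugation with scalings -/
def S_Z2 : Prop := ∀ (k : Type) [Field k] (n L w j : ℕ) (c : k) (H : VF k n), 1 ≤ w → j < L →
  c ≠ 0 → RealL L w H → RealL L w (dl j c H)

/-- Z3: the error field of an approximation is invariant up to realizable fields -/
def S_Z3 : Prop := ∀ (k : Type) [Field k] (n l L w j : ℕ) (c : k) (θ τ : PS k n ≃ₐ[k] PS k n),
  1 ≤ w → l ≤ j → j < L → c ≠ 0 → FL l θ → τ ∈ TL k n L → Lvl w (θ * τ⁻¹) →
  RealL L w ((fun v => (θ * τ⁻¹) (MvPolynomial.X v) - MvPolynomial.X v) -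
    dl j c (fun v => (θ * τ⁻¹) (MvPolynomial.X v) - MvPolynomial.X v))

/-- Z4: elements with non-zero subset sums -/
def S_Z4 : Prop := ∀ (k : Type) [Field k] [Infinite k] (M : ℕ), ∃ u : Fin M → k,
  ∀ S : Finset (Fin M), S.Nonempty → ∑ i ∈ S, u i ≠ 0

/-- Z5: finite differences of powers -/
def S_Z5 : Prop := ∀ (A : Type) [CommRing A] (M e : ℕ) (u : Fin M → A), e < M →
  ∑ S : Finset (Fin M), (-1 : A) ^ S.card * (∑ i ∈ S, u i) ^ e = 0

/-- Z6: averaging -/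
def S_Z6 : Prop := ∀ (k : Type) [Field k] [Infinite k] (n L w j : ℕ) (E : VF k n), 1 ≤ w →
  j < L → EV L w E → (∀ c : k, c ≠ 0 → RealL L w (E - dl j c E)) → RealL L w (E - pj j E)

/-- Z7: commutators -/
def S_Z7 : Prop := ∀ (k : Type) [Field k] (n L w a b : ℕ) (i : Vr n) (N : ℕ) (g h : PS k n),
  1 ≤ w → 1 ≤ b → N < L → i ∈ low n L → g ∈ MvPolynomial.supported k (low n L) →
  h ∈ MvPolynomial.supported k (low n L) →
  wt i ≤ a → a + b = w + wt i → (Sum.inr N : Vr n) ≠ i → (Sum.inr N : Vr n) ∉ g.vars →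
  (Sum.inr N : Vr n) ∉ h.vars → i ∉ g.vars → g ∈ J k n a → h ∈ J k n b →
  RealL L w (KK i (Sum.inr N) (g * h))

/-- Z8: pure powers -/
def S_Z8 : Prop := ∀ (k : Type) [Field k] (n L w j N u₂ u₃ : ℕ) (c : PS k n), 1 ≤ w →
  j < L → N < L → u₂ < L → u₃ < L → N ≠ j → u₂ ≠ j → u₃ ≠ j → u₂ ≠ N → u₃ ≠ N → u₂ ≠ u₃ →
  c ∈ MvPolynomial.supported k (low n L) →
  (Sum.inr j : Vr n) ∉ c.vars → (Sum.inr N : Vr n) ∉ c.vars →
  (Sum.inr u₂ : Vr n) ∉ c.vars → (Sum.inr u₃ : Vr n) ∉ c.vars →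
  RealL L w (KK (Sum.inr j) (Sum.inr N) (c * MvPolynomial.X (Sum.inr j) ^ (w + 1)))

/-- Z9: all `KK i z f`, `z = y_l` -/
def S_Z9 : Prop := ∀ (k : Type) [Field k] (n l w : ℕ) (i : Vr n) (f : PS k n), 1 ≤ w →
  i ∈ low n (l + 3) → i ≠ Sum.inr l →
  ((∀ v ∈ f.vars, v ∈ low n l) ∧ i ∈ low n l ∨
    ∃ c : PS k n, (∀ v ∈ c.vars, v ∈ low n l) ∧ f = c * MvPolynomial.X i ∧ i ∉ low n l) →
  f ∈ J k n (w + wt i) → RealL (l + 3) w (KK i (Sum.inr l) f)

/-- Z10: invariant fields of divergence zero are realizable -/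
def S_Z10 : Prop := ∀ (k : Type) [Field k] (n l w : ℕ) (E : VF k n), 1 ≤ w → EV (l + 3) w E →
  pj l E = E → pj (l + 1) E = E → pj (l + 2) E = E →
  ∑ v ∈ lowF n (l + 3), MvPolynomial.pderiv v (E v) ∈ J k n (w + 1) → RealL (l + 3) w E

/-- ZP: laws for `pj` and `dl` -/
def S_ZP : Prop := ∀ (k : Type) [Field k] (n : ℕ),
  (∀ (j : ℕ) (E : VF k n), pj j (pj j E) = pj j E) ∧
  (∀ (i j : ℕ) (E : VF k n), pj i (pj j E) = pj j (pj i E)) ∧
  (∀ (L w j : ℕ) (E : VF k n), EV L w E → EV L w (pj j E)) ∧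
  (∀ (j : ℕ) (c : k) (E E' : VF k n), dl j c (E - E') = dl j c E - dl j c E')

/-- Z11: the step -/
def S_Z11 : Prop := ∀ (k : Type) [Field k] [Infinite k] (n l w : ℕ) (θ τ : PS k n ≃ₐ[k] PS k n),
  1 ≤ w → FL l θ → τ ∈ TL k n (l + 3) → Lvl w (θ * τ⁻¹) →
  ∃ τ' ∈ TL k n (l + 3), Lvl (w + 1) (θ * τ'⁻¹)

/-- Z12: all levels -/
def S_Z12 : Prop := ∀ (k : Type) [Field k] [Infinite k] (n l w : ℕ) (θ : PS k n ≃ₐ[k] PS k n),
  1 ≤ w → FL l θ → Lvl 1 θ → ∃ τ ∈ TL k n (l + 3), Lvl w (θ * τ⁻¹)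

/-- Z13: the theorem -/
def S_Z13 : Prop := ∀ (k : Type) [Field k] [Infinite k] (n : ℕ)
  (φ : MvPolynomial (Fin n) k ≃ₐ[k] MvPolynomial (Fin n) k),
  ∃ l₀ : ℕ, ∀ l : ℕ, l₀ ≤ l → ∀ m : ℕ, ∃ τ ∈ Tame k (n + l),
    (∀ i : Fin n, τ (MvPolynomial.X (Fin.castAdd l i))
      - MvPolynomial.rename (Fin.castAdd l) (φ (MvPolynomial.X i)) ∈ IY k n l ^ m) ∧
    (∀ j : Fin l, τ (MvPolynomial.X (Fin.natAdd n j)) - MvPolynomial.X (Fin.natAdd n j)
      ∈ IY k n l ^ m)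

end

end Pool.AM
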