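import Pool.Agent.Work.MP_91aed7_am_helper54.Main
import Pool.Agent.Work.MP_91aed7_un.B_TLL
import Pool.Agent.Work.MP_91aed7_un.B_RL
import Pool.Agent.Work.MP_91aed7_un.B_RD
import Pool.Agent.Work.MP_91aed7_un.B_RKL
import Pool.Agent.Work.MP_91aed7_un.B_CJ
import Pool.Agent.Work.MP_91aed7_un.B_POL
import Pool.Agent.Work.MP_91aed7_un.B_CX
import Pool.Agent.Work.MP_91aed7_un.B_CY
import Pool.Agent.Work.MP_91aed7_un.B_G0
import Pool.Agent.Work.MP_91aed7_un.B_STL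
import Pool.Agent.Work.MP_91aed7_un.B_IT
import Pool.Agent.Work.MP_91aed7_un.B_DSL
import Pool.Agent.Work.MP_91aed7_un.B_LFT
import Pool.Agent.Work.MP_91aed7_un.B_JY
import Pool.Agent.Work.MP_91aed7_un.B_FA
import Pool.Agent.Work.MP_91aed7_un.B_FB
import Pool.Agent.Work.MP_91aed7_un.B_EF
import Pool.Agent.Work.MP_91aed7_un.B_FC1
import Pool.Agent.Work.MP_91aed7_un.B_FC

/-! Assembly of the density theorem. -/

set_option autoImplicit false

namespace Pool.AM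

theorem n_FLL : Stmt_FLL := stmt_FLL
theorem n_TLL : S_TLL := u_TLL n_FLL
theorem n_RL : S_RL := u_RL stmt_J main_LV n_TLL
theorem n_RD : S_RD := u_RD stmt_J n_TLL main_DIV
theorem n_RKL : S_RKL := u_RKL stmt_J main_LV n_TLL n_RL
theorem n_CJ : S_CJ := u_CJ stmt_J n_TLL
theorem n_CX : S_CX := p_CX stmt_J n_RL n_RKL n_CJ u_POL
theorem n_CY : S_CY := u_CY stmt_J n_RL n_CJ u_POL
theorem n_STL : S_STL := u_STL stmt_J main_LV n_TLL n_RL n_RD main_DIV n_CX n_CY u_G0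
theorem n_IT : S_IT := u_IT n_TLL n_FLL n_STL
theorem n_JY : S_JY := u_JY stmt_J
theorem n_FA : S_FA := u_FA stmt_J main_LV n_IT u_DSL u_LFT n_JY
theorem n_FB : S_FB := u_FB stmt_J n_FLL main_START stmt_EXT n_TLL n_IT u_DSL n_JY
theorem n_FC1 : S_FC1 := u_FC1 stmt_J main_LV u_LFT n_JY n_FA u_EF
theorem n_FC : S_FC := u_FC n_FB u_EF n_FC1

end Pool.AM
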