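import Pool.Agent.Work.MP_91aed7_un.Main
import Pool.Agent.Work.MP_91aed7_un.B_Z1
import Pool.Agent.Work.MP_91aed7_un.B_Z2
import Pool.Agent.Work.MP_91aed7_un.B_Z3
import Pool.Agent.Work.MP_91aed7_un.B_Z4
import Pool.Agent.Work.MP_91aed7_un.B_Z5
import Pool.Agent.Work.MP_91aed7_un.B_Z6
import Pool.Agent.Work.MP_91aed7_un.B_Z7
import Pool.Agent.Work.MP_91aed7_un.B_Z8
import Pool.Agent.Work.MP_91aed7_un.B_Z9
import Pool.Agent.Work.MP_91aed7_un.B_Z10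
import Pool.Agent.Work.MP_91aed7_un.B_ZP
import Pool.Agent.Work.MP_91aed7_un.B_Z11
import Pool.Agent.Work.MP_91aed7_un.B_Z12
import Pool.Agent.Work.MP_91aed7_un.B_Z13

/-! Assembly of the uniform theorem over infinite fields. -/

set_option autoImplicit false

namespace Pool.AM

theorem n_Z2 : S_Z2 := u_Z2 stmt_J n_TLL u_Z1
theorem n_Z3 : S_Z3 := u_Z3 stmt_J main_LV n_FLL n_TLL u_Z1
theorem n_Z6 : S_Z6 := u_Z6 n_RL u_Z4 u_Z5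
theorem n_Z7 : S_Z7 := u_Z7 stmt_J main_LV n_TLL
theorem n_Z8 : S_Z8 := u_Z8 stmt_J main_LV n_TLL n_RL n_Z7
theorem n_Z9 : S_Z9 := u_Z9 stmt_J n_RL n_Z7 n_Z8
theorem n_Z10 : S_Z10 := u_Z10 stmt_J n_RL n_Z9
theorem n_Z11 : S_Z11 :=
  u_Z11 stmt_J main_LV n_FLL n_TLL n_RL n_RD main_DIV n_Z2 n_Z3 n_Z6 n_Z10 u_ZP
theorem n_Z12 : S_Z12 := u_Z12 n_Z11
theorem n_Z13 : S_Z13 := u_Z13 stmt_J n_FLL main_START stmt_EXT n_TLL n_Z12 u_DSL n_JY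

end Pool.AM
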